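import Mathlib
import Pool.Agent.K4H74.SC.Core

/-!
# L-series and periods of the Artin twists of a motive: the definitions

`M` is a motive over `ℚ`; only its Frobenius eigenvalues and Deligne's two periods are used. For an
Artin character `χ` of a Galois extension `L / K` of number fields the twist is
`R_{K/ℚ}(M_K ⊗ χ)`.
-/

set_option autoImplicit false
set_option linter.unusedSectionVars false

namespace Pool.Agent.W2helper76.DP

open NumberField Pool.Agent.K4H74.SK

/-- The trace of the `k`-th power of the Frobenius at `p` on `M`, for `q = p ^ k`, `k ≥ 1`, if the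
prime `p` is not in the finite set `bad`, where `eig p i` are the eigenvalues of the Frobenius at
`p`; otherwise `0`. For a prime `P` of a number field over `p` with norm `p ^ f` this is at
`q = N(P)^n` the trace of the `n`-th power of the Frobenius at `P` on `M_K`. -/
noncomputable def frobTrace {d : ℕ} (bad : Finset ℕ) (eig : ℕ → Fin d → ℂ) (q : ℕ) : ℂ :=
  open Classical in
  if IsPrimePow q ∧ q.minFac ∉ bad then ∑ i, eig q.minFac i ^ q.factorization q.minFac else 0

/-- The term `tr(Frob_P^n | M) χ(P^n) / (n N(P)^(n s))` of the logarithm of the L-function (without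
the Euler factors at the primes over the bad ones) of `M_K ⊗ χ` at `s`, for the pair `(P, n)`, where
`tr` is as in `frobTrace`. -/
noncomputable def twistTerm (tr : ℕ → ℂ) {E : Ext} (χ : G E → ℂ) (s : ℂ) (x : Pr E × ℕ+) : ℂ :=
  tr (Ideal.absNorm x.1.1 ^ (x.2 : ℕ)) * logTerm χ s x

/-- The rank `[K : ℚ] χ(1)` of the Artin motive `R_{K/ℚ}[χ]` over `ℚ`. -/
noncomputable def artinRank {E : Ext} (χ : G E → ℂ) : ℂ := Module.finrank ℚ E.K * χ 1

/-- The trace of the complex conjugation on the Betti realisation of the Artin motive
`R_{K/ℚ}[χ]`, which is the sum of the numbers `χ(c_v)` over the real places `v` of `K`, where `c_v`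
is the complex conjugation at a place over `v`: it is `|G|⁻¹ ∑ χ(g)`, the sum over the pairs
`(φ, g)`, where `φ` is an embedding of `L` and `g ∈ G = Gal(L/K)`, with `φ ∘ g` the complex
conjugate of `φ`. -/
noncomputable def conjTrace {E : Ext} (χ : G E → ℂ) : ℂ :=
  (Nat.card (G E) : ℂ)⁻¹ *
    ∑ᶠ x ∈ {x : (E.L →+* ℂ) × G E | ∀ y, x.1 (emb x.2 y) = star (x.1 y)}, χ x.2

end Pool.Agent.W2helper76.DP
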