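import Mathlib
import Pool.Agent.W2helper76.DP.Def

/-!
# The determinant of the automorphisms of the complex numbers on the Artin motives: the definitions
-/

set_option autoImplicit false
set_option linter.unusedSectionVars false

namespace Pool.Agent.W2helper76.DP

open NumberField Pool.Agent.K4H74.SK

/-- The trace of the automorphism `σ` of `ℂ` on `R_{K/ℚ}[χ]`, the representation of the Galois
group of `ℚ` (on which `Aut ℂ` acts) induced from the one with the character `χ`: it is
`|G|⁻¹ ∑ χ(g)`, the sum over the pairs `(φ, g)`, where `φ` is an embedding of `L` and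
`g ∈ G = Gal(L/K)`, with `φ ∘ g = σ ∘ φ`. -/
noncomputable def galTrace (σ : ℂ ≃+* ℂ) {E : Ext} (χ : G E → ℂ) : ℂ :=
  (Nat.card (G E) : ℂ)⁻¹ *
    ∑ᶠ x ∈ {x : (E.L →+* ℂ) × G E | ∀ y, x.1 (emb x.2 y) = σ (x.1 y)}, χ x.2

/-- `d` is the determinant of the automorphism `σ` of `ℂ` on `R_{K/ℚ}[χ]`: the determinant of a matrix whose powers have the same traces as the powers of
`σ`. -/
def IsArtinDet (σ : ℂ ≃+* ℂ) {E : Ext} (χ : G E → ℂ) (d : ℂ) : Prop :=
  ∃ (R : ℕ) (A : Matrix (Fin R) (Fin R) ℂ), (∀ k : ℕ, (A ^ k).trace = galTrace (σ ^ k) χ) ∧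
    d = A.det

end Pool.Agent.W2helper76.DP
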