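import Mathlib
import Pool.Agent.K4H74.ST.Grp
import Pool.Agent.R389.Sol

/-!
# Artin's induction theorem relative to a set of elements
-/

set_option autoImplicit false
set_option linter.unusedSectionVars false

namespace Pool.Agent.W2helper76.DP

open Pool.Agent.K4H74.ST Pool.Agent.R389 Pool.Agent.W446.AS Pool.Agent.H541R3.ART

/-- the group generated by the permutation characters of the subgroups disjoint from `X` -/
def PP {G : Type} [Group G] (X : Set G) : AddSubgroup (G → ℂ) :=
  AddSubgroup.closure {f | ∃ U : Subgroup G, (∀ x ∈ X, x ∉ U) ∧ f = ind U (fun _ => 1)}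

open Classical in
/-- Artin's function: it is the order of the group at the generators and zero elsewhere -/
noncomputable def th (G : Type) [Group G] (g : G) : ℂ :=
  if Subgroup.zpowers g = ⊤ then (Nat.card G : ℂ) else 0

section

variable {G : Type} [Group G] [Finite G]

/-- **Artin's formula** -/
lemma artin_formula [Fintype (Subgroup G)] {f : G → ℂ} (hf : ∀ g x : G, f (x * g * x⁻¹) = f g)
    (g : G) : (Nat.card G : ℂ) * f g = ∑ C : Subgroup G, ind C (fun h => th C h * f h) g := by
  classical
  have : Fintype G := Fintype.ofFinite G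
  have h1 : ∀ C : Subgroup G, ind C (fun h => th C h * f h) g
      = ∑ x : G, if Subgroup.zpowers (x⁻¹ * g * x) = C then f g else 0 := by
    intro C
    have hC : (Nat.card C : ℂ) ≠ 0 := by exact_mod_cast Nat.card_pos.ne'
    rw [ind_eq, Finset.mul_sum]
    refine Finset.sum_congr rfl fun x _ => ?_
    have hfx : f (x⁻¹ * g * x) = f g := by
      have := hf g x⁻¹
      rwa [inv_inv] at this
    by_cases hx : x⁻¹ * g * x ∈ C
    · rw [ext_mem _ _ hx]
      change (Nat.card C : ℂ)⁻¹ * (th C ⟨x⁻¹ * g * x, hx⟩ * f (x⁻¹ * g * x)) = _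
      have h2 : Subgroup.zpowers (⟨x⁻¹ * g * x, hx⟩ : C) = ⊤ ↔
          Subgroup.zpowers (x⁻¹ * g * x) = C := by
        constructor
        · intro h
          apply le_antisymm
          · rw [Subgroup.zpowers_le]; exact hx
          · intro y hy
            have h3 : (⟨y, hy⟩ : C) ∈ Subgroup.zpowers (⟨x⁻¹ * g * x, hx⟩ : C) := by
              rw [h]; exact Subgroup.mem_top _
            obtain ⟨k, hk⟩ := Subgroup.mem_zpowers_iff.mp h3
            refine Subgroup.mem_zpowers_iff.mpr ⟨k, ?_⟩
            exact congrArg Subtype.val hk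
        · intro h
          rw [Subgroup.eq_top_iff']
          rintro ⟨y, hy⟩
          have h3 : y ∈ Subgroup.zpowers (x⁻¹ * g * x) := by rw [h]; exact hy
          obtain ⟨k, hk⟩ := Subgroup.mem_zpowers_iff.mp h3
          exact Subgroup.mem_zpowers_iff.mpr ⟨k, Subtype.ext hk⟩
      rw [hfx, th]
      by_cases h : Subgroup.zpowers (x⁻¹ * g * x) = C
      · rw [if_pos h, if_pos (h2.mpr h), ← mul_assoc, inv_mul_cancel₀ hC, one_mul]
      · rw [if_neg h, if_neg (fun h' => h (h2.mp h')), zero_mul, mul_zero]
    · rw [ext_not _ _ hx, mul_zero, if_neg]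
      intro h
      exact hx (h ▸ Subgroup.mem_zpowers _)
  rw [Finset.sum_congr rfl (fun C _ => h1 C), Finset.sum_comm]
  have h3 : ∀ x : G, ∑ C : Subgroup G, (if Subgroup.zpowers (x⁻¹ * g * x) = C then f g else 0)
      = f g := by
    intro x
    rw [Finset.sum_ite_eq Finset.univ]
    rw [if_pos (Finset.mem_univ _)]
  rw [Finset.sum_congr rfl (fun x _ => h3 x), Finset.sum_const, Finset.card_univ, nsmul_eq_mul,
    Nat.card_eq_fintype_card]

/-- inducing permutation characters -/
lemma ind_PP {X : Set G} (H : Subgroup G) {f : H → ℂ} (hf : f ∈ PP {x : H | (x : G) ∈ X}) :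
    ind H f ∈ PP X := by
  have h1 : PP {x : H | (x : G) ∈ X} ≤ (PP X).comap (indHom H) := by
    rw [PP, AddSubgroup.closure_le]
    rintro f ⟨V, hV, rfl⟩
    rw [SetLike.mem_coe, AddSubgroup.mem_comap, indHom_apply, ind_ind]
    refine AddSubgroup.subset_closure ⟨V.map H.subtype, ?_, rfl⟩
    rintro x hx ⟨z, hz, rfl⟩
    exact hV z hx hz
  exact h1 hf

end

/-- Artin's function is a combination of permutation characters -/
lemma th_mem : ∀ (n : ℕ) (G : Type) [Group G] [Finite G], Nat.card G = n →
    th G ∈ PP (∅ : Set G) := by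
  intro n
  induction n using Nat.strong_induction_on with
  | _ n ih =>
    intro G _ _ hn
    classical
    have : Fintype G := Fintype.ofFinite G
    have : Fintype (Subgroup G) := Fintype.ofFinite _
    have h1 : (fun _ : G => (Nat.card G : ℂ))
        = ∑ C : Subgroup G, ind C (fun h => th C h) := by
      funext g
      rw [Finset.sum_apply]
      have h2 := artin_formula (f := fun _ : G => (1 : ℂ)) (fun _ _ => rfl) g
      simp only [mul_one] at h2
      exact h2
    rw [← Finset.add_sum_erase _ _ (Finset.mem_univ (⊤ : Subgroup G))] at h1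
    have h3 : ind (⊤ : Subgroup G) (fun h => th (⊤ : Subgroup G) h) = th G := by
      have h4 : (fun h : (⊤ : Subgroup G) => th (⊤ : Subgroup G) h)
          = fun h : (⊤ : Subgroup G) => th G h := by
        funext h
        rw [th, th]
        have h5 : Nat.card (⊤ : Subgroup G) = Nat.card G := Subgroup.card_top
        have h6 : Subgroup.zpowers h = ⊤ ↔ Subgroup.zpowers (h : G) = ⊤ := by
          rw [Subgroup.eq_top_iff', Subgroup.eq_top_iff']
          constructor
          · intro h7 y
            obtain ⟨k, hk⟩ := Subgroup.mem_zpowers_iff.mp (h7 ⟨y, Subgroup.mem_top y⟩)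
            exact Subgroup.mem_zpowers_iff.mpr ⟨k, congrArg Subtype.val hk⟩
          · intro h7 y
            obtain ⟨k, hk⟩ := Subgroup.mem_zpowers_iff.mp (h7 y)
            exact Subgroup.mem_zpowers_iff.mpr ⟨k, Subtype.ext hk⟩
        rw [h5]
        by_cases h8 : Subgroup.zpowers (h : G) = ⊤
        · rw [if_pos h8, if_pos (h6.mpr h8)]
        · rw [if_neg h8, if_neg (fun h' => h8 (h6.mp h'))]
      rw [h4]
      refine ind_top (th G) fun g x => ?_
      rw [th, th]
      have h5 : Subgroup.zpowers (x * g * x⁻¹) = ⊤ ↔ Subgroup.zpowers g = ⊤ := by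
        have h6 : ∀ (a y : G), Subgroup.zpowers a = ⊤ → Subgroup.zpowers (y * a * y⁻¹) = ⊤ := by
          intro a y ha
          rw [Subgroup.eq_top_iff'] at ha ⊢
          intro z
          obtain ⟨k, hk⟩ := Subgroup.mem_zpowers_iff.mp (ha (y⁻¹ * z * y))
          refine Subgroup.mem_zpowers_iff.mpr ⟨k, ?_⟩
          rw [conj_zpow, hk]
          group
        constructor
        · intro h
          have := h6 _ x⁻¹ h
          have h7 : x⁻¹ * (x * g * x⁻¹) * x⁻¹⁻¹ = g := by group
          rwa [h7] at this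
        · exact h6 g x
      by_cases h8 : Subgroup.zpowers g = ⊤
      · rw [if_pos h8, if_pos (h5.mpr h8)]
      · rw [if_neg h8, if_neg (fun h' => h8 (h5.mp h'))]
    rw [h3] at h1
    have h4 : th G = (fun _ : G => (Nat.card G : ℂ))
        - ∑ C ∈ Finset.univ.erase (⊤ : Subgroup G), ind C (fun h => th C h) := by
      rw [h1]; abel
    rw [h4]
    refine sub_mem ?_ (sum_mem fun C hC => ?_)
    · have h5 : (fun _ : G => (Nat.card G : ℂ)) = Nat.card G • (fun _ : G => (1 : ℂ)) := by
        funext g
        rw [Pi.smul_apply, nsmul_eq_mul, mul_one]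
      have h6 : (fun _ : G => (1 : ℂ)) ∈ PP (∅ : Set G) :=
        AddSubgroup.subset_closure ⟨⊤, fun x hx => absurd hx (by simp),
          (ind_top (fun _ : G => (1 : ℂ)) (fun _ _ => rfl)).symm⟩
      rw [h5]
      exact nsmul_mem h6 _
    · have hC' : C ≠ ⊤ := (Finset.mem_erase.mp hC).1
      have h5 : Nat.card C < n := by
        rw [← hn]
        have h6 := Subgroup.card_subgroup_dvd_card C
        refine lt_of_le_of_ne (Nat.le_of_dvd Nat.card_pos h6) fun h => hC' ?_
        exact Subgroup.eq_top_of_card_eq C h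
      have h7 := ih _ h5 C rfl
      have h8 : (∅ : Set C) = {x : C | (x : G) ∈ (∅ : Set G)} := by
        ext x; simp
      rw [h8] at h7
      exact ind_PP C h7

section main

variable {G : Type} [Group G] [Finite G]

/-- products with permutation characters -/
lemma PP_mul {u : G → ℂ} (hu : u ∈ PP (∅ : Set G)) {f : G → ℂ} (hf : Virt f) :
    Virt (fun g => u g * f g) := by
  let m : (G → ℂ) →+ (G → ℂ) := AddMonoidHom.mk' (fun u g => u g * f g) (fun a b => by
    funext g
    change (a g + b g) * f g = a g * f g + b g * f g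
    ring)
  have h1 : PP (∅ : Set G) ≤ (AddSubgroup.closure (Irr G)).comap m := by
    rw [PP, AddSubgroup.closure_le]
    rintro u ⟨U, -, rfl⟩
    rw [SetLike.mem_coe, AddSubgroup.mem_comap]
    have h2 : m (ind U fun _ => 1) = ind U (fun h => f h) := by
      funext g
      change ind U (fun _ => 1) g * f g = _
      rw [← ind_mul U (fun _ => (1 : ℂ)) hf.conj g]
      simp only [one_mul]
    rw [h2]
    exact virt_ind U (Virt.comp hf U.subtype)
  exact h1 hu

/-- **The relative form of Artin's theorem.** -/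
theorem artin_JJ {X : Set G} {f : G → ℂ} (hf : Virt f)
    (h0 : ∀ g : G, ∀ x ∈ X, x ∈ Subgroup.zpowers g → f g = 0) :
    Nat.card G • f ∈ JJ X := by
  classical
  have : Fintype (Subgroup G) := Fintype.ofFinite _
  have h1 : Nat.card G • f = ∑ C : Subgroup G, ind C (fun h => th C h * f h) := by
    funext g
    rw [Finset.sum_apply, Pi.smul_apply, nsmul_eq_mul]
    exact artin_formula hf.conj g
  rw [h1]
  refine sum_mem fun C _ => ?_
  by_cases hC : ∀ x ∈ X, x ∉ C
  · apply ind_JJ
    have h2 : Virt (fun h : C => th C h * f h) := PP_mul (th_mem _ C rfl) (Virt.comp hf C.subtype)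
    refine (AddSubgroup.closure_le (JJ {x : C | (x : G) ∈ X})).mpr ?_ (virt_mem_mon h2)
    rintro u ⟨U, ψ, -, rfl⟩
    exact AddSubgroup.subset_closure ⟨U, ψ, fun x hx _ => hC x hx x.2, rfl⟩
  · push Not at hC
    obtain ⟨x, hx, hxC⟩ := hC
    have h2 : (fun h : C => th C h * f h) = 0 := by
      funext h
      rw [th]
      by_cases h3 : Subgroup.zpowers h = ⊤
      · rw [h0 h x hx, mul_zero]
        · rfl
        have h4 : (⟨x, hxC⟩ : C) ∈ Subgroup.zpowers h := by rw [h3]; exact Subgroup.mem_top _
        obtain ⟨k, hk⟩ := Subgroup.mem_zpowers_iff.mp h4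
        exact Subgroup.mem_zpowers_iff.mpr ⟨k, congrArg Subtype.val hk⟩
      · rw [if_neg h3, zero_mul]
        rfl
    rw [h2, ind_zero]
    exact zero_mem _

/-- **The rational relative form of Artin's theorem.** -/
theorem artin_PP {X : Set G} {f : G → ℂ} (hf : ∀ g x : G, f (x * g * x⁻¹) = f g)
    (hz : ∀ g : G, ∃ n : ℤ, f g = n)
    (hg : ∀ g h : G, Subgroup.zpowers g = Subgroup.zpowers h → f g = f h)
    (h0 : ∀ g : G, ∀ x ∈ X, x ∈ Subgroup.zpowers g → f g = 0) :
    Nat.card G • f ∈ PP X := by
  classical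
  have : Fintype (Subgroup G) := Fintype.ofFinite _
  have h1 : Nat.card G • f = ∑ C : Subgroup G, ind C (fun h => th C h * f h) := by
    funext g
    rw [Finset.sum_apply, Pi.smul_apply, nsmul_eq_mul]
    exact artin_formula hf g
  rw [h1]
  refine sum_mem fun C _ => ?_
  by_cases hcyc : ∃ y : C, Subgroup.zpowers y = ⊤
  swap
  · have h2 : (fun h : C => th C h * f h) = 0 := by
      funext h
      rw [th, if_neg (fun h' => hcyc ⟨h, h'⟩), zero_mul]
      rfl
    rw [h2, ind_zero]
    exact zero_mem _
  obtain ⟨y, hy⟩ := hcyc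
  by_cases hC : ∀ x ∈ X, x ∉ C
  · apply ind_PP
    obtain ⟨n, hn⟩ := hz y
    have h2 : (fun h : C => th C h * f h) = n • th C := by
      funext h
      rw [Pi.smul_apply, zsmul_eq_mul, th]
      by_cases h3 : Subgroup.zpowers h = ⊤
      · rw [if_pos h3, ← hn, mul_comm]
        congr 1
        apply hg
        have h4 : ∀ a b : C, Subgroup.zpowers a = ⊤ → Subgroup.zpowers (b : G) ≤
            Subgroup.zpowers (a : G) := by
          intro a b ha
          rw [Subgroup.zpowers_le]
          have h5 : b ∈ Subgroup.zpowers a := by rw [ha]; exact Subgroup.mem_top _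
          obtain ⟨k, hk⟩ := Subgroup.mem_zpowers_iff.mp h5
          exact Subgroup.mem_zpowers_iff.mpr ⟨k, congrArg Subtype.val hk⟩
        exact le_antisymm (h4 y h hy) (h4 h y h3)
      · rw [if_neg h3, zero_mul, mul_zero]
    rw [h2]
    refine zsmul_mem ?_ _
    have h3 : PP (∅ : Set C) ≤ PP {x : C | (x : G) ∈ X} := by
      rw [PP, AddSubgroup.closure_le]
      rintro u ⟨U, -, rfl⟩
      exact AddSubgroup.subset_closure ⟨U, fun x hx _ => hC x hx x.2, rfl⟩
    exact h3 (th_mem _ C rfl)
  · push Not at hC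
    obtain ⟨x, hx, hxC⟩ := hC
    have h2 : (fun h : C => th C h * f h) = 0 := by
      funext h
      rw [th]
      by_cases h3 : Subgroup.zpowers h = ⊤
      · rw [h0 h x hx, mul_zero]
        · rfl
        have h4 : (⟨x, hxC⟩ : C) ∈ Subgroup.zpowers h := by rw [h3]; exact Subgroup.mem_top _
        obtain ⟨k, hk⟩ := Subgroup.mem_zpowers_iff.mp h4
        exact Subgroup.mem_zpowers_iff.mpr ⟨k, congrArg Subtype.val hk⟩
      · rw [if_neg h3, zero_mul]
        rfl
    rw [h2, ind_zero]
    exact zero_mem _

end main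

end Pool.Agent.W2helper76.DP
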