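import Mathlib
import Pool.Agent.K4H74.ST.Fin
import Pool.Agent.K4H34.ST.Main6

/-!
# The trace of the complex conjugations as an inductive invariant
-/

set_option autoImplicit false
set_option linter.unusedSectionVars false

namespace Pool.Agent.W2helper76.DP

open NumberField NumberField.ComplexEmbedding Pool.Agent.K4H74.ST Pool.Agent.R389

section defs

variable (K L : Type) [Field K] [NumberField K] [Field L] [NumberField L] [Algebra K L]

open Classical in
/-- the trace of the complex conjugations -/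
noncomputable def tee (χ : (L ≃ₐ[K] L) → ℂ) : ℂ :=
  (Nat.card (L ≃ₐ[K] L) : ℂ)⁻¹ * ∑ φ : L →+* ℂ, ∑ g : L ≃ₐ[K] L, if IsConj φ g then χ g else 0

/-- the degree -/
noncomputable def dee (χ : (L ≃ₐ[K] L) → ℂ) : ℂ := Module.finrank ℚ K * χ 1

end defs

section add

variable {K L : Type} [Field K] [NumberField K] [Field L] [NumberField L] [Algebra K L]

lemma tee_add (χ χ' : (L ≃ₐ[K] L) → ℂ) : tee K L (χ + χ') = tee K L χ + tee K L χ' := by
  classical
  rw [tee, tee, tee, ← mul_add, ← Finset.sum_add_distrib]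
  congr 1
  refine Finset.sum_congr rfl fun φ _ => ?_
  rw [← Finset.sum_add_distrib]
  refine Finset.sum_congr rfl fun g _ => ?_
  by_cases h : IsConj φ g
  · rw [if_pos h, if_pos h, if_pos h, Pi.add_apply]
  · rw [if_neg h, if_neg h, if_neg h, add_zero]

lemma dee_add (χ χ' : (L ≃ₐ[K] L) → ℂ) : dee K L (χ + χ') = dee K L χ + dee K L χ' := by
  rw [dee, dee, dee, Pi.add_apply, mul_add]

end add

section ext

variable {L N : Type} [Field L] [NumberField L] [Field N] [NumberField N] [Algebra L N]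

open Classical in
/-- the number of the extensions of an embedding -/
lemma card_ext (φ : L →+* ℂ) :
    (Finset.univ.filter (fun Φ : N →+* ℂ => Φ.comp (algebraMap L N) = φ)).card
      = Module.finrank L N := by
  classical
  let _ : Algebra L ℂ := φ.toAlgebra
  have h1 : Fintype.card (N →ₐ[L] ℂ) = Module.finrank L N := AlgHom.card L N ℂ
  rw [← h1, ← Fintype.card_subtype]
  refine Fintype.card_congr ⟨fun Φ => { Φ.1 with commutes' := fun x => RingHom.congr_fun Φ.2 x },
    fun f => ⟨f.toRingHom, ?_⟩, fun Φ => rfl, fun f => rfl⟩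
  ext x
  exact f.commutes x

lemma sum_ext_emb (F : (L →+* ℂ) → ℂ) :
    ∑ Φ : N →+* ℂ, F (Φ.comp (algebraMap L N)) = Module.finrank L N * ∑ φ : L →+* ℂ, F φ := by
  classical
  rw [← Finset.sum_fiberwise (s := Finset.univ)
    (g := fun Φ : N →+* ℂ => Φ.comp (algebraMap L N)), Finset.mul_sum]
  refine Finset.sum_congr rfl fun φ _ => ?_
  rw [← card_ext (N := N) φ, ← nsmul_eq_mul, ← Finset.sum_const]
  refine Finset.sum_congr rfl fun Φ hΦ => ?_
  rw [(Finset.mem_filter.mp hΦ).2]

end ext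

section infl

variable {K L N : Type} [Field K] [NumberField K] [Field L] [NumberField L] [Field N]
  [NumberField N] [Algebra K L] [IsGalois K L] [Algebra K N] [IsGalois K N] [Algebra L N]
  [IsScalarTower K L N]

lemma tee_infl (χ : (L ≃ₐ[K] L) → ℂ) :
    tee K N (fun g => χ (AlgEquiv.restrictNormalHom L g)) = tee K L χ := by
  classical
  have hgal : IsGalois L N := IsGalois.tower_top_of_isGalois K L N
  have hfK : FiniteDimensional K N := Module.Finite.of_restrictScalars_finite ℚ K N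
  have hfK' : FiniteDimensional K L := Module.Finite.of_restrictScalars_finite ℚ K L
  have hfL : FiniteDimensional L N := Module.Finite.of_restrictScalars_finite ℚ L N
  rw [tee, tee]
  have h1 : ∀ Φ : N →+* ℂ, (∑ g : N ≃ₐ[K] N,
      if IsConj Φ g then χ (AlgEquiv.restrictNormalHom L g) else 0)
      = ∑ g : L ≃ₐ[K] L, if IsConj (Φ.comp (algebraMap L N)) g then χ g else 0 := by
    intro Φ
    by_cases hr : IsReal (Φ.comp (algebraMap K N))
    · obtain ⟨c, hc⟩ := exists_conj (K := K) hr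
      have hc' := isConj_res (L := L) hc
      rw [Finset.sum_eq_single c, Finset.sum_eq_single (AlgEquiv.restrictNormalHom L c)]
      · rw [if_pos hc, if_pos hc']
      · intro g _ hg
        rw [if_neg]
        intro h
        exact hg (IsConj.ext h hc')
      · intro h
        exact absurd (Finset.mem_univ _) h
      · intro g _ hg
        rw [if_neg]
        intro h
        exact hg (IsConj.ext h hc)
      · intro h
        exact absurd (Finset.mem_univ _) h
    · rw [Finset.sum_eq_zero, Finset.sum_eq_zero]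
      · intro g _
        rw [if_neg]
        intro h
        apply hr
        have h2 : IsReal ((Φ.comp (algebraMap L N)).comp (algebraMap K L)) := by
          rw [IsReal]
          exact h.isReal_comp
        have h3 : (Φ.comp (algebraMap L N)).comp (algebraMap K L) = Φ.comp (algebraMap K N) := by
          rw [RingHom.comp_assoc, ← IsScalarTower.algebraMap_eq K L N]
        rwa [h3] at h2
      · intro g _
        rw [if_neg]
        intro h
        exact hr h.isReal_comp
  rw [Finset.sum_congr rfl (fun Φ _ => h1 Φ),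
    sum_ext_emb (N := N) (fun φ => ∑ g : L ≃ₐ[K] L, if IsConj φ g then χ g else 0)]
  have h2 : Nat.card (N ≃ₐ[K] N) = Nat.card (L ≃ₐ[K] L) * Module.finrank L N := by
    rw [IsGalois.card_aut_eq_finrank, IsGalois.card_aut_eq_finrank]
    exact (Module.finrank_mul_finrank K L N).symm
  have h3 : (Module.finrank L N : ℂ) ≠ 0 := by exact_mod_cast Module.finrank_pos.ne'
  have h4 : (Nat.card (L ≃ₐ[K] L) : ℂ) ≠ 0 := by exact_mod_cast Nat.card_pos.ne'
  rw [h2]
  push_cast
  field_simp

lemma dee_infl (χ : (L ≃ₐ[K] L) → ℂ) :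
    dee K N (fun g => χ (AlgEquiv.restrictNormalHom L g)) = dee K L χ := by
  rw [dee, dee, map_one]

end infl

section ind

variable {K F L : Type} [Field K] [NumberField K] [Field F] [NumberField F] [Field L]
  [NumberField L] [Algebra K F] [Algebra F L] [Algebra K L] [IsScalarTower K F L] [IsGalois K L]
  [IsGalois F L]

/-- induction as a sum -/
lemma indChar_sum (χ : (L ≃ₐ[F] L) → ℂ) (g : L ≃ₐ[K] L) [DecidableEq (L ≃ₐ[K] L)] :
    indChar K F L χ g = (Nat.card (L ≃ₐ[F] L) : ℂ)⁻¹ * ∑ x : L ≃ₐ[K] L, ∑ h : L ≃ₐ[F] L,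
      if h.restrictScalars K = x⁻¹ * g * x then χ h else 0 := by
  rw [indChar, finsum_eq_sum_of_fintype]
  congr 1
  refine Finset.sum_congr rfl fun x _ => ?_
  rw [finsum_eq_sum_of_fintype]
  refine Finset.sum_congr rfl fun h _ => ?_
  rw [finsum_eq_if]

lemma tee_ind (χ : (L ≃ₐ[F] L) → ℂ) : tee K L (indChar K F L χ) = tee F L χ := by
  classical
  have h4 : (Nat.card (L ≃ₐ[K] L) : ℂ) ≠ 0 := by exact_mod_cast Nat.card_pos.ne'
  have h5 : (Nat.card (L ≃ₐ[F] L) : ℂ) ≠ 0 := by exact_mod_cast Nat.card_pos.ne'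
  rw [tee, tee]
  have h1 : ∀ (φ : L →+* ℂ) (g : L ≃ₐ[K] L), (if IsConj φ g then indChar K F L χ g else 0)
      = (Nat.card (L ≃ₐ[F] L) : ℂ)⁻¹ * ∑ x : L ≃ₐ[K] L, ∑ h : L ≃ₐ[F] L,
        if (IsConj φ g ∧ h.restrictScalars K = x⁻¹ * g * x) then χ h else 0 := by
    intro φ g
    by_cases hφ : IsConj φ g
    · rw [if_pos hφ, indChar_sum]
      congr 1
      refine Finset.sum_congr rfl fun x _ => Finset.sum_congr rfl fun h _ => ?_
      by_cases hh : h.restrictScalars K = x⁻¹ * g * x
      · rw [if_pos hh, if_pos ⟨hφ, hh⟩]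
      · rw [if_neg hh, if_neg (fun h' => hh h'.2)]
    · rw [if_neg hφ, Finset.sum_eq_zero, mul_zero]
      intro x _
      rw [Finset.sum_eq_zero]
      intro h _
      rw [if_neg (fun h' => hφ h'.1)]
  simp_rw [h1, ← Finset.mul_sum]
  have h2 : (∑ φ : L →+* ℂ, ∑ g : L ≃ₐ[K] L, ∑ x : L ≃ₐ[K] L, ∑ h : L ≃ₐ[F] L,
        if (IsConj φ g ∧ h.restrictScalars K = x⁻¹ * g * x) then χ h else 0)
      = ∑ x : L ≃ₐ[K] L, ∑ φ : L →+* ℂ, ∑ h : L ≃ₐ[F] L, if IsConj φ h then χ h else 0 := by
    have e1 : ∀ φ : L →+* ℂ, (∑ g : L ≃ₐ[K] L, ∑ x : L ≃ₐ[K] L, ∑ h : L ≃ₐ[F] L,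
        if (IsConj φ g ∧ h.restrictScalars K = x⁻¹ * g * x) then χ h else 0)
        = ∑ x : L ≃ₐ[K] L, ∑ h : L ≃ₐ[F] L,
          if IsConj φ (x * h.restrictScalars K * x⁻¹) then χ h else 0 := by
      intro φ
      rw [Finset.sum_comm]
      refine Finset.sum_congr rfl fun x _ => ?_
      rw [Finset.sum_comm]
      refine Finset.sum_congr rfl fun h _ => ?_
      rw [Finset.sum_eq_single (x * h.restrictScalars K * x⁻¹)]
      · by_cases hc : IsConj φ (x * h.restrictScalars K * x⁻¹)
        · rw [if_pos hc, if_pos ⟨hc, by group⟩]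
        · rw [if_neg hc, if_neg (fun h' => hc h'.1)]
      · intro g _ hg
        rw [if_neg]
        rintro ⟨-, h'⟩
        apply hg
        rw [h']
        group
      · intro h'
        exact absurd (Finset.mem_univ _) h'
    rw [Finset.sum_congr rfl (fun φ _ => e1 φ), Finset.sum_comm]
    refine Finset.sum_congr rfl fun x _ => ?_
    let e : (L →+* ℂ) ≃ (L →+* ℂ) :=
      { toFun := fun φ => φ.comp (x : L →+* L)
        invFun := fun φ => φ.comp ((x⁻¹ : L ≃ₐ[K] L) : L →+* L)
        left_inv := fun φ => by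
          ext y
          change φ (x ((x⁻¹ : L ≃ₐ[K] L) y)) = φ y
          rw [← AlgEquiv.mul_apply, mul_inv_cancel]
          rfl
        right_inv := fun φ => by
          ext y
          change φ ((x⁻¹ : L ≃ₐ[K] L) (x y)) = φ y
          rw [← AlgEquiv.mul_apply, inv_mul_cancel]
          rfl }
    refine Eq.trans ?_ (Equiv.sum_comp e
      (fun φ => ∑ h : L ≃ₐ[F] L, if IsConj φ h then χ h else 0))
    refine Finset.sum_congr rfl fun φ _ => Finset.sum_congr rfl fun h _ => ?_
    have h3 : IsConj φ (x * h.restrictScalars K * x⁻¹) ↔ IsConj (e φ) h := by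
      constructor
      · intro hc
        refine RingHom.ext fun y => ?_
        have := RingHom.congr_fun hc (x y)
        change star (φ (x y)) = φ (x (h ((x⁻¹ : L ≃ₐ[K] L) (x y)))) at this
        rw [← AlgEquiv.mul_apply x⁻¹ x, inv_mul_cancel] at this
        exact this
      · intro hc
        refine RingHom.ext fun y => ?_
        have := RingHom.congr_fun hc ((x⁻¹ : L ≃ₐ[K] L) y)
        change star (φ (x ((x⁻¹ : L ≃ₐ[K] L) y))) = φ (x (h ((x⁻¹ : L ≃ₐ[K] L) y))) at this
        rw [← AlgEquiv.mul_apply x x⁻¹, mul_inv_cancel] at this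
        exact this
    by_cases hc : IsConj φ (x * h.restrictScalars K * x⁻¹)
    · rw [if_pos hc, if_pos (h3.mp hc)]
    · rw [if_neg hc, if_neg (fun h' => hc (h3.mpr h'))]
  rw [h2, Finset.sum_const, Finset.card_univ, nsmul_eq_mul, ← Nat.card_eq_fintype_card]
  field_simp

lemma dee_ind (χ : (L ≃ₐ[F] L) → ℂ) : dee K L (indChar K F L χ) = dee F L χ := by
  classical
  have hfK : FiniteDimensional K L := Module.Finite.of_restrictScalars_finite ℚ K L
  have hfF : FiniteDimensional F L := Module.Finite.of_restrictScalars_finite ℚ F L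
  have h5 : (Nat.card (L ≃ₐ[F] L) : ℂ) ≠ 0 := by exact_mod_cast Nat.card_pos.ne'
  rw [dee, dee, indChar_sum]
  have h1 : ∀ x : L ≃ₐ[K] L, (∑ h : L ≃ₐ[F] L,
      if h.restrictScalars K = x⁻¹ * 1 * x then χ h else 0) = χ 1 := by
    intro x
    rw [Finset.sum_eq_single 1]
    · rw [if_pos]
      rw [mul_one, inv_mul_cancel]
      rfl
    · intro h _ hh
      rw [if_neg]
      intro h'
      apply hh
      rw [mul_one, inv_mul_cancel] at h'
      ext y
      exact AlgEquiv.congr_fun h' y
    · intro h'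
      exact absurd (Finset.mem_univ _) h'
  rw [Finset.sum_congr rfl (fun x _ => h1 x), Finset.sum_const, Finset.card_univ, nsmul_eq_mul,
    ← Nat.card_eq_fintype_card]
  have h2 : Nat.card (L ≃ₐ[K] L) = Module.finrank K F * Nat.card (L ≃ₐ[F] L) := by
    rw [IsGalois.card_aut_eq_finrank, IsGalois.card_aut_eq_finrank]
    exact (Module.finrank_mul_finrank K F L).symm
  have h3 : Module.finrank ℚ F = Module.finrank ℚ K * Module.finrank K F :=
    (Module.finrank_mul_finrank ℚ K F).symm
  rw [h2, h3]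
  push_cast
  field_simp

end ind

section rat

variable {N : Type} [Field N] [NumberField N] [IsGalois ℚ N]

lemma real_rat (φ : N →+* ℂ) : IsReal (φ.comp (algebraMap ℚ N)) := by
  rw [IsReal]
  exact Subsingleton.elim _ _

lemma exists_CC (N : Type) [Field N] [NumberField N] [IsGalois ℚ N] : ∃ c, c ∈ CC ℚ N := by
  obtain ⟨c, hc⟩ := exists_conj (K := ℚ) (real_rat (Classical.arbitrary (N →+* ℂ)))
  exact ⟨c, _, hc⟩

/-- all complex conjugations over the rational numbers are conjugate -/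
lemma CC_class {c c' : N ≃ₐ[ℚ] N} (h : c ∈ CC ℚ N) (h' : c' ∈ CC ℚ N) :
    ∃ x : N ≃ₐ[ℚ] N, c' = x⁻¹ * c * x := by
  obtain ⟨φ, hφ⟩ := h
  obtain ⟨φ', hφ'⟩ := h'
  obtain ⟨σ, hσ⟩ := ComplexEmbedding.exists_comp_symm_eq_of_comp_eq (k := ℚ) φ φ'
    (Subsingleton.elim _ _)
  refine ⟨σ.symm, ?_⟩
  have h1 := hφ.comp σ.symm
  rw [hσ] at h1
  exact IsConj.ext hφ' h1

lemma tee_rat {χ : (N ≃ₐ[ℚ] N) → ℂ} (hχ : ∀ g x, χ (x * g * x⁻¹) = χ g) {c : N ≃ₐ[ℚ] N}
    (hc : c ∈ CC ℚ N) : tee ℚ N χ = χ c := by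
  classical
  have h4 : (Nat.card (N ≃ₐ[ℚ] N) : ℂ) ≠ 0 := by exact_mod_cast Nat.card_pos.ne'
  rw [tee]
  have h1 : ∀ φ : N →+* ℂ, (∑ g : N ≃ₐ[ℚ] N, if IsConj φ g then χ g else 0) = χ c := by
    intro φ
    obtain ⟨c', hc'⟩ := exists_conj (K := ℚ) (real_rat φ)
    rw [Finset.sum_eq_single c']
    · rw [if_pos hc']
      obtain ⟨x, hx⟩ := CC_class hc ⟨φ, hc'⟩
      rw [hx]
      have := hχ c x⁻¹
      rwa [inv_inv] at this
    · intro g _ hg
      rw [if_neg]
      intro h
      exact hg (IsConj.ext h hc')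
    · intro h
      exact absurd (Finset.mem_univ _) h
  rw [Finset.sum_congr rfl (fun φ _ => h1 φ), Finset.sum_const, Finset.card_univ, nsmul_eq_mul,
    NumberField.Embeddings.card, IsGalois.card_aut_eq_finrank]
  rw [IsGalois.card_aut_eq_finrank] at h4
  field_simp

end rat

end Pool.Agent.W2helper76.DP
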