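import Mathlib
import Pool.Agent.W2helper76.DP.Cyc
import Pool.Agent.W2helper76.DP.Tee

/-!
# Inductive invariants with values in torsion-free groups: only the totally complex fields and the
# field of rational numbers matter
-/

set_option autoImplicit false
set_option linter.unusedSectionVars false

namespace Pool.Agent.W2helper76.DP

open NumberField NumberField.ComplexEmbedding Pool.Agent.K4H74.ST Pool.Agent.R389
  Pool.Agent.W446.AS Pool.Agent.H541R3.ART

section val

variable {M : Type} [CommGroup M] (A : ArtinInvariant M)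

variable {K L : Type} [Field K] [NumberField K] [Field L] [NumberField L] [Algebra K L]
  [IsGalois K L]

lemma val_nsmul {f : (L ≃ₐ[K] L) → ℂ} {v : M} (h : Val A K L f v) (n : ℕ) :
    Val A K L (n • f) (v ^ n) := by
  induction n with
  | zero =>
    rw [zero_smul, pow_zero]
    exact Val.zero A
  | succ n ih =>
    rw [succ_nsmul, pow_succ]
    exact ih.add A h

lemma val_zsmul {f : (L ≃ₐ[K] L) → ℂ} {v : M} (h : Val A K L f v) (n : ℤ) :
    Val A K L (n • f) (v ^ n) := by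
  obtain ⟨k, rfl | rfl⟩ := Int.eq_nat_or_neg n
  · rw [natCast_zsmul, zpow_natCast]
    exact val_nsmul A h k
  · rw [neg_smul, natCast_zsmul, zpow_neg, zpow_natCast]
    exact (val_nsmul A h k).neg A

lemma isChar_one {G : Type} [Group G] : IsChar (fun _ : G => (1 : ℂ)) := by
  have h : (fun _ : G => (1 : ℂ)) = lc (1 : G →* ℂˣ) := by
    funext g
    simp [lc]
  rw [h]
  exact IsChar.lc 1

lemma val_triv (K L : Type) [Field K] [NumberField K] [Field L] [NumberField L] [Algebra K L]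
    [IsGalois K L] : A.val K L (fun _ => 1) = A.val K K (fun _ => 1) :=
  A.val_infl K K L (fun _ => 1) isChar_one

end val

section rat

variable {M : Type} [CommGroup M] {A : ArtinInvariant M}

lemma conj_inv {G : Type} [Group G] {χ : G → ℂ} (h : IsChar χ) (g x : G) :
    χ (x * g * x⁻¹) = χ g := by
  obtain ⟨V, _, _, _, ρ, rfl⟩ := h
  exact Representation.char_conj ρ g x

lemma virt_key {N N' : Type} [Field N] [NumberField N] [IsGalois ℚ N] [Field N'] [NumberField N']
    [Algebra ℚ N'] [Algebra N N'] [IsScalarTower ℚ N N'] [IsGalois ℚ N']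
    (hN : ∀ c ∈ CC ℚ N', ∀ g : N' ≃ₐ[ℚ] N', g * c = c * g →
      AlgEquiv.restrictNormalHom N g = 1 ∨
        AlgEquiv.restrictNormalHom N g = AlgEquiv.restrictNormalHom N c)
    {χ : (N ≃ₐ[ℚ] N) → ℂ} (hχ : IsChar χ) {c : N ≃ₐ[ℚ] N} (hc : c ∈ CC ℚ N) (g : N' ≃ₐ[ℚ] N')
    (x : N' ≃ₐ[ℚ] N') (hx : x ∈ CC ℚ N') (hxg : x ∈ Subgroup.zpowers g) :
    χ (AlgEquiv.restrictNormalHom N g) = χ c := by
  obtain ⟨k, hk⟩ := Subgroup.mem_zpowers_iff.mp hxg
  have h1 : g * x = x * g := by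
    rw [← hk]
    exact ((Commute.refl g).zpow_right k).eq
  have h2 : AlgEquiv.restrictNormalHom N g = AlgEquiv.restrictNormalHom N x := by
    rcases hN x hx g h1 with h | h
    · rw [← hk, map_zpow, h, one_zpow]
    · exact h
  rw [h2]
  obtain ⟨y, hy⟩ := CC_class hc (CC_res hx)
  rw [hy]
  have := conj_inv hχ c y⁻¹
  rwa [inv_inv] at this

/-- **the main theorem over the rational numbers** -/
theorem rat_val (htf : ∀ (x : M) (n : ℕ), 0 < n → x ^ n = 1 → x = 1) (hC : TrivComplex A)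
    (N : Type) [Field N] [NumberField N] [IsGalois ℚ N] {χ : (N ≃ₐ[ℚ] N) → ℂ} (hχ : IsChar χ)
    {c : N ≃ₐ[ℚ] N} (hc : c ∈ CC ℚ N) {m : ℤ} (hm : χ c = m) :
    A.val ℚ N χ = A.val ℚ ℚ (fun _ => 1) ^ m := by
  classical
  obtain ⟨N', i1, i2, i3, i4, i5, i6, -, hN⟩ := exists_comm ℚ N
  have hfin : FiniteDimensional ℚ N' := Module.Finite.of_restrictScalars_finite ℚ ℚ N'
  have hχ' : IsChar (fun g : N' ≃ₐ[ℚ] N' => χ (AlgEquiv.restrictNormalHom N g)) :=
    Pool.Agent.K4H77.SL.IsChar.comp hχ _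
  let f : (N' ≃ₐ[ℚ] N') → ℂ :=
    (fun g : N' ≃ₐ[ℚ] N' => χ (AlgEquiv.restrictNormalHom N g)) - m • (fun _ => 1)
  have hf : Virt f := sub_mem hχ'.virt (zsmul_mem isChar_one.virt m)
  have h0 : ∀ g : N' ≃ₐ[ℚ] N', ∀ x ∈ CC ℚ N', x ∈ Subgroup.zpowers g → f g = 0 := by
    intro g x hx hxg
    change χ (AlgEquiv.restrictNormalHom N g) - m • (1 : ℂ) = 0
    rw [virt_key hN hχ hc g x hx hxg, hm, zsmul_eq_mul, mul_one, sub_self]
  obtain ⟨v, hv, hval⟩ := JJ_le hC (artin_JJ hf h0)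
  rw [Subgroup.mem_bot] at hv
  subst hv
  have h1 : Val A ℚ N' f (A.val ℚ N' (fun g => χ (AlgEquiv.restrictNormalHom N g))
      * (A.val ℚ N' (fun _ => 1) ^ m)⁻¹) := by
    have h2 := (Val.of_char A hχ').add A ((val_zsmul A (Val.of_char A isChar_one) m).neg A)
    rwa [← sub_eq_add_neg] at h2
  have h2 := (val_nsmul A h1 _).unique A hval
  have h3 := htf _ _ Nat.card_pos h2
  rw [mul_inv_eq_one] at h3
  rw [← A.val_infl ℚ N N' χ hχ, h3, val_triv]

end rat

section gen

/-- **every character has the same invariants as a character over the rational numbers** -/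
theorem exists_rat (K L : Type) [Field K] [NumberField K] [Field L] [NumberField L] [Algebra K L]
    [IsGalois K L] {χ : (L ≃ₐ[K] L) → ℂ} (hχ : IsChar χ) :
    ∃ (N : Type) (_ : Field N) (_ : NumberField N) (_ : IsGalois ℚ N) (χ' : (N ≃ₐ[ℚ] N) → ℂ),
      IsChar χ' ∧ (∀ (M : Type) [CommGroup M] (A : ArtinInvariant M),
        A.val K L χ = A.val ℚ N χ') ∧ tee K L χ = tee ℚ N χ' ∧ dee K L χ = dee ℚ N χ' := by
  obtain ⟨N, i1, i2, i3, i4⟩ := Pool.Agent.K4H34.ST.exists_gal L
  let _ : Algebra K N := ((algebraMap L N).comp (algebraMap K L)).toAlgebra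
  have htow : IsScalarTower K L N := IsScalarTower.of_algebraMap_eq fun x => rfl
  have htow2 : IsScalarTower ℚ K N := inferInstance
  have hgal : IsGalois K N := IsGalois.tower_top_of_isGalois ℚ K N
  have h8 : IsChar (fun g : N ≃ₐ[K] N => χ (AlgEquiv.restrictNormalHom L g)) :=
    Pool.Agent.K4H77.SL.IsChar.comp hχ _
  refine ⟨N, i1, i2, i4, indChar ℚ K N (fun g => χ (AlgEquiv.restrictNormalHom L g)),
    Pool.Agent.K4H74.SC.isChar_indChar h8, ?_, ?_, ?_⟩
  · intro M _ A
    rw [← A.val_infl K L N χ hχ, ← A.val_ind ℚ K N _ h8]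
  · rw [tee_ind, tee_infl]
  · rw [dee_ind, dee_infl]

/-- the trace of an involution -/
lemma trace_inv {V : Type} [AddCommGroup V] [Module ℂ V] [FiniteDimensional ℂ V]
    {f : V →ₗ[ℂ] V} (hf : f * f = 1) : ∃ a b : ℕ, (Module.finrank ℂ V : ℂ) = a + b ∧
      LinearMap.trace ℂ V f = a - b := by
  let P : V →ₗ[ℂ] V := (2⁻¹ : ℂ) • (1 + f)
  have hP : P * P = P := by
    have h1 : (1 + f) * (1 + f) = (2 : ℂ) • (1 + f) := by
      rw [add_mul, mul_add, mul_add, hf, one_mul, one_mul, mul_one, two_smul]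
      abel
    rw [smul_mul_smul_comm, h1, smul_smul]
    norm_num [P]
  have h2 : LinearMap.IsProj (LinearMap.range P) P := by
    refine ⟨fun x => LinearMap.mem_range_self P x, ?_⟩
    rintro x ⟨y, rfl⟩
    exact LinearMap.congr_fun hP y
  have h3 : LinearMap.trace ℂ V P = (Module.finrank ℂ (LinearMap.range P) : ℂ) := by
    have : Module.Free ℂ (LinearMap.range P) := inferInstance
    exact h2.trace
  have h4 : LinearMap.trace ℂ V P = 2⁻¹ * (Module.finrank ℂ V + LinearMap.trace ℂ V f) := by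
    rw [map_smul, map_add, LinearMap.trace_one, smul_eq_mul]
  have h5 : Module.finrank ℂ (LinearMap.range P) ≤ Module.finrank ℂ V := Submodule.finrank_le _
  refine ⟨Module.finrank ℂ (LinearMap.range P),
    Module.finrank ℂ V - Module.finrank ℂ (LinearMap.range P), ?_, ?_⟩
  · rw [Nat.cast_sub h5]; ring
  · rw [Nat.cast_sub h5, ← h3, h4]; ring

/-- the degree and the trace of the complex conjugations of a character -/
theorem exists_ab (K L : Type) [Field K] [NumberField K] [Field L] [NumberField L] [Algebra K L]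
    [IsGalois K L] {χ : (L ≃ₐ[K] L) → ℂ} (hχ : IsChar χ) :
    ∃ a b : ℕ, dee K L χ = a + b ∧ tee K L χ = a - b := by
  obtain ⟨N, i1, i2, i3, χ', hχ', -, h1, h2⟩ := exists_rat K L hχ
  obtain ⟨c, hc⟩ := exists_CC N
  rw [h1, h2, tee_rat (conj_inv hχ') hc, dee]
  obtain ⟨V, _, _, _, ρ, rfl⟩ := hχ'
  have hcc : c * c = 1 := by
    obtain ⟨φ, hφ⟩ := hc
    exact isConj_sq hφ
  have h3 : ρ c * ρ c = 1 := by rw [← map_mul, hcc, map_one]
  obtain ⟨a, b, h4, h5⟩ := trace_inv h3
  refine ⟨a, b, ?_, h5⟩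
  rw [Module.finrank_self, Nat.cast_one, one_mul, ← h4]
  change LinearMap.trace ℂ V (ρ 1) = _
  rw [map_one, LinearMap.trace_one]

variable {M : Type} [CommGroup M] {A : ArtinInvariant M}

/-- **the main theorem** -/
theorem main_val (htf : ∀ (x : M) (n : ℕ), 0 < n → x ^ n = 1 → x = 1) (hC : TrivComplex A)
    (K L : Type) [Field K] [NumberField K] [Field L] [NumberField L] [Algebra K L]
    [IsGalois K L] {χ : (L ≃ₐ[K] L) → ℂ} (hχ : IsChar χ) {m : ℤ} (hm : tee K L χ = m) :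
    A.val K L χ = A.val ℚ ℚ (fun _ => 1) ^ m := by
  obtain ⟨N, i1, i2, i3, χ', hχ', h0, h1, -⟩ := exists_rat K L hχ
  obtain ⟨c, hc⟩ := exists_CC N
  rw [h0 M A]
  refine rat_val htf hC N hχ' hc ?_
  rw [← tee_rat (conj_inv hχ') hc, ← h1, hm]

end gen

end Pool.Agent.W2helper76.DP
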