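import Mathlib
import Pool.Agent.W2helper76.DP.Core
import Pool.Agent.K4H74.SC.Newt

/-!
# The trace of an automorphism of the complex numbers as an inductive invariant
-/

set_option autoImplicit false
set_option linter.unusedSectionVars false
set_option maxHeartbeats 400000

namespace Pool.Agent.W2helper76.DP

open NumberField NumberField.ComplexEmbedding Pool.Agent.K4H74.ST Pool.Agent.R389

section rc

/-- `g` is the action of `σ` on `L` under the embedding `φ` -/
def RC (σ : ℂ ≃+* ℂ) {K L : Type} [Field K] [Field L] [Algebra K L] (φ : L →+* ℂ)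
    (g : L ≃ₐ[K] L) : Prop := (σ : ℂ →+* ℂ).comp φ = φ.comp (g : L →+* L)

variable {σ : ℂ ≃+* ℂ} {K L : Type} [Field K] [NumberField K] [Field L] [NumberField L]
  [Algebra K L]

lemma RC.eq {φ : L →+* ℂ} {g : L ≃ₐ[K] L} (h : RC σ φ g) (x : L) : φ (g x) = σ (φ x) :=
  (RingHom.congr_fun h x).symm

lemma RC.ext {φ : L →+* ℂ} {g g' : L ≃ₐ[K] L} (h : RC σ φ g) (h' : RC σ φ g') : g = g' := by
  ext x
  apply φ.injective
  rw [h.eq, h'.eq]

lemma RC.base {φ : L →+* ℂ} {g : L ≃ₐ[K] L} (h : RC σ φ g) :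
    (σ : ℂ →+* ℂ).comp (φ.comp (algebraMap K L)) = φ.comp (algebraMap K L) := by
  ext x
  change σ (φ (algebraMap K L x)) = φ (algebraMap K L x)
  rw [← h.eq, AlgEquiv.commutes]

lemma RC.exists [IsGalois K L] {φ : L →+* ℂ}
    (h : (σ : ℂ →+* ℂ).comp (φ.comp (algebraMap K L)) = φ.comp (algebraMap K L)) :
    ∃ g : L ≃ₐ[K] L, RC σ φ g := by
  obtain ⟨τ, hτ⟩ := ComplexEmbedding.exists_comp_symm_eq_of_comp_eq (k := K) φ
    ((σ : ℂ →+* ℂ).comp φ) (by
      ext x
      exact (RingHom.congr_fun h x).symm)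
  exact ⟨τ.symm, hτ.symm⟩

lemma RC.pow {φ : L →+* ℂ} {g : L ≃ₐ[K] L} (h : RC σ φ g) (k : ℕ) : RC (σ ^ k) φ (g ^ k) := by
  induction k with
  | zero => ext x; rfl
  | succ k ih =>
    ext x
    rw [pow_succ', pow_succ']
    change σ ((σ ^ k) (φ x)) = φ (g ((g ^ k) x))
    rw [h.eq, ih.eq]

variable {N : Type} [Field N] [NumberField N] [Algebra K N] [Algebra L N] [IsScalarTower K L N]
  [IsGalois K L] [IsGalois K N]

lemma RC.res {φ : N →+* ℂ} {g : N ≃ₐ[K] N} (h : RC σ φ g) :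
    RC σ (φ.comp (algebraMap L N)) (AlgEquiv.restrictNormalHom L g) := by
  ext x
  change σ (φ (algebraMap L N x)) = φ (algebraMap L N (AlgEquiv.restrictNormalHom L g x))
  rw [res_apply, h.eq]

end rc

section defs

open Classical in
/-- the trace of `σ` -/
noncomputable def galT (σ : ℂ ≃+* ℂ) (K L : Type) [Field K] [NumberField K] [Field L]
    [NumberField L] [Algebra K L] (χ : (L ≃ₐ[K] L) → ℂ) : ℂ :=
  (Nat.card (L ≃ₐ[K] L) : ℂ)⁻¹ * ∑ φ : L →+* ℂ, ∑ g : L ≃ₐ[K] L, if RC σ φ g then χ g else 0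

end defs

section add

variable {σ : ℂ ≃+* ℂ} {K L : Type} [Field K] [NumberField K] [Field L] [NumberField L] [Algebra K L]

lemma galT_add (χ χ' : (L ≃ₐ[K] L) → ℂ) : galT σ K L (χ + χ') = galT σ K L χ + galT σ K L χ' := by
  classical
  rw [galT, galT, galT, ← mul_add, ← Finset.sum_add_distrib]
  congr 1
  refine Finset.sum_congr rfl fun φ _ => ?_
  rw [← Finset.sum_add_distrib]
  refine Finset.sum_congr rfl fun g _ => ?_
  by_cases h : RC σ φ g
  · rw [if_pos h, if_pos h, if_pos h, Pi.add_apply]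
  · rw [if_neg h, if_neg h, if_neg h, add_zero]

end add

section infl

variable {σ : ℂ ≃+* ℂ} {K L N : Type} [Field K] [NumberField K] [Field L] [NumberField L] [Field N]
  [NumberField N] [Algebra K L] [IsGalois K L] [Algebra K N] [IsGalois K N] [Algebra L N]
  [IsScalarTower K L N]

lemma galT_infl (χ : (L ≃ₐ[K] L) → ℂ) :
    galT σ K N (fun g => χ (AlgEquiv.restrictNormalHom L g)) = galT σ K L χ := by
  classical
  have hgal : IsGalois L N := IsGalois.tower_top_of_isGalois K L N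
  have hfK : FiniteDimensional K N := Module.Finite.of_restrictScalars_finite ℚ K N
  have hfK' : FiniteDimensional K L := Module.Finite.of_restrictScalars_finite ℚ K L
  have hfL : FiniteDimensional L N := Module.Finite.of_restrictScalars_finite ℚ L N
  rw [galT, galT]
  have h1 : ∀ Φ : N →+* ℂ, (∑ g : N ≃ₐ[K] N,
      if RC σ Φ g then χ (AlgEquiv.restrictNormalHom L g) else 0)
      = ∑ g : L ≃ₐ[K] L, if RC σ (Φ.comp (algebraMap L N)) g then χ g else 0 := by
    intro Φ
    by_cases hr : (σ : ℂ →+* ℂ).comp (Φ.comp (algebraMap K N)) = Φ.comp (algebraMap K N)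
    · obtain ⟨c, hc⟩ := RC.exists (K := K) hr
      have hc' := RC.res (L := L) hc
      rw [Finset.sum_eq_single c, Finset.sum_eq_single (AlgEquiv.restrictNormalHom L c)]
      · rw [if_pos hc, if_pos hc']
      · intro g _ hg
        rw [if_neg]
        intro h
        exact hg (RC.ext h hc')
      · intro h
        exact absurd (Finset.mem_univ _) h
      · intro g _ hg
        rw [if_neg]
        intro h
        exact hg (RC.ext h hc)
      · intro h
        exact absurd (Finset.mem_univ _) h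
    · rw [Finset.sum_eq_zero, Finset.sum_eq_zero]
      · intro g _
        rw [if_neg]
        intro h
        apply hr
        have h2 := h.base
        have h3 : (Φ.comp (algebraMap L N)).comp (algebraMap K L) = Φ.comp (algebraMap K N) := by
          rw [RingHom.comp_assoc, ← IsScalarTower.algebraMap_eq K L N]
        rwa [h3] at h2
      · intro g _
        rw [if_neg]
        intro h
        exact hr h.base
  rw [Finset.sum_congr rfl (fun Φ _ => h1 Φ),
    sum_ext_emb (N := N) (fun φ => ∑ g : L ≃ₐ[K] L, if RC σ φ g then χ g else 0)]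
  have h2 : Nat.card (N ≃ₐ[K] N) = Nat.card (L ≃ₐ[K] L) * Module.finrank L N := by
    rw [IsGalois.card_aut_eq_finrank, IsGalois.card_aut_eq_finrank]
    exact (Module.finrank_mul_finrank K L N).symm
  have h3 : (Module.finrank L N : ℂ) ≠ 0 := by exact_mod_cast Module.finrank_pos.ne'
  have h4 : (Nat.card (L ≃ₐ[K] L) : ℂ) ≠ 0 := by exact_mod_cast Nat.card_pos.ne'
  rw [h2]
  push_cast
  field_simp

end infl

section ind

variable {σ : ℂ ≃+* ℂ} {K F L : Type} [Field K] [NumberField K] [Field F] [NumberField F] [Field L]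
  [NumberField L] [Algebra K F] [Algebra F L] [Algebra K L] [IsScalarTower K F L] [IsGalois K L]
  [IsGalois F L]

lemma galT_ind (χ : (L ≃ₐ[F] L) → ℂ) : galT σ K L (indChar K F L χ) = galT σ F L χ := by
  classical
  have h4 : (Nat.card (L ≃ₐ[K] L) : ℂ) ≠ 0 := by exact_mod_cast Nat.card_pos.ne'
  have h5 : (Nat.card (L ≃ₐ[F] L) : ℂ) ≠ 0 := by exact_mod_cast Nat.card_pos.ne'
  rw [galT, galT]
  have h1 : ∀ (φ : L →+* ℂ) (g : L ≃ₐ[K] L), (if RC σ φ g then indChar K F L χ g else 0)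
      = (Nat.card (L ≃ₐ[F] L) : ℂ)⁻¹ * ∑ x : L ≃ₐ[K] L, ∑ h : L ≃ₐ[F] L,
        if (RC σ φ g ∧ h.restrictScalars K = x⁻¹ * g * x) then χ h else 0 := by
    intro φ g
    by_cases hφ : RC σ φ g
    · rw [if_pos hφ, indChar_sum]
      congr 1
      refine Finset.sum_congr rfl fun x _ => Finset.sum_congr rfl fun h _ => ?_
      by_cases hh : h.restrictScalars K = x⁻¹ * g * x
      · rw [if_pos hh, if_pos ⟨hφ, hh⟩]
      · rw [if_neg hh, if_neg (fun h' => hh h'.2)]
    · rw [if_neg hφ, Finset.sum_eq_zero, mul_zero]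
      intro x _
      rw [Finset.sum_eq_zero]
      intro h _
      rw [if_neg (fun h' => hφ h'.1)]
  simp_rw [h1, ← Finset.mul_sum]
  have h2 : (∑ φ : L →+* ℂ, ∑ g : L ≃ₐ[K] L, ∑ x : L ≃ₐ[K] L, ∑ h : L ≃ₐ[F] L,
        if (RC σ φ g ∧ h.restrictScalars K = x⁻¹ * g * x) then χ h else 0)
      = ∑ x : L ≃ₐ[K] L, ∑ φ : L →+* ℂ, ∑ h : L ≃ₐ[F] L, if RC σ φ h then χ h else 0 := by
    have e1 : ∀ φ : L →+* ℂ, (∑ g : L ≃ₐ[K] L, ∑ x : L ≃ₐ[K] L, ∑ h : L ≃ₐ[F] L,
        if (RC σ φ g ∧ h.restrictScalars K = x⁻¹ * g * x) then χ h else 0)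
        = ∑ x : L ≃ₐ[K] L, ∑ h : L ≃ₐ[F] L,
          if RC σ φ (x * h.restrictScalars K * x⁻¹) then χ h else 0 := by
      intro φ
      rw [Finset.sum_comm]
      refine Finset.sum_congr rfl fun x _ => ?_
      rw [Finset.sum_comm]
      refine Finset.sum_congr rfl fun h _ => ?_
      rw [Finset.sum_eq_single (x * h.restrictScalars K * x⁻¹)]
      · by_cases hc : RC σ φ (x * h.restrictScalars K * x⁻¹)
        · rw [if_pos hc, if_pos ⟨hc, by group⟩]
        · rw [if_neg hc, if_neg (fun h' => hc h'.1)]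
      · intro g _ hg
        rw [if_neg]
        rintro ⟨-, h'⟩
        apply hg
        rw [h']
        group
      · intro h'
        exact absurd (Finset.mem_univ _) h'
    rw [Finset.sum_congr rfl (fun φ _ => e1 φ), Finset.sum_comm]
    refine Finset.sum_congr rfl fun x _ => ?_
    let e : (L →+* ℂ) ≃ (L →+* ℂ) :=
      { toFun := fun φ => φ.comp (x : L →+* L)
        invFun := fun φ => φ.comp ((x⁻¹ : L ≃ₐ[K] L) : L →+* L)
        left_inv := fun φ => by
          ext y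
          change φ (x ((x⁻¹ : L ≃ₐ[K] L) y)) = φ y
          rw [← AlgEquiv.mul_apply, mul_inv_cancel]
          rfl
        right_inv := fun φ => by
          ext y
          change φ ((x⁻¹ : L ≃ₐ[K] L) (x y)) = φ y
          rw [← AlgEquiv.mul_apply, inv_mul_cancel]
          rfl }
    refine Eq.trans ?_ (Equiv.sum_comp e
      (fun φ => ∑ h : L ≃ₐ[F] L, if RC σ φ h then χ h else 0))
    refine Finset.sum_congr rfl fun φ _ => Finset.sum_congr rfl fun h _ => ?_
    have h3 : RC σ φ (x * h.restrictScalars K * x⁻¹) ↔ RC σ (e φ) h := by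
      constructor
      · intro hc
        refine RingHom.ext fun y => ?_
        have := RingHom.congr_fun hc (x y)
        change σ (φ (x y)) = φ (x (h ((x⁻¹ : L ≃ₐ[K] L) (x y)))) at this
        rw [← AlgEquiv.mul_apply x⁻¹ x, inv_mul_cancel] at this
        exact this
      · intro hc
        refine RingHom.ext fun y => ?_
        have := RingHom.congr_fun hc ((x⁻¹ : L ≃ₐ[K] L) y)
        change σ (φ (x ((x⁻¹ : L ≃ₐ[K] L) y))) = φ (x (h ((x⁻¹ : L ≃ₐ[K] L) y))) at this
        rw [← AlgEquiv.mul_apply x x⁻¹, mul_inv_cancel] at this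
        exact this
    by_cases hc : RC σ φ (x * h.restrictScalars K * x⁻¹)
    · rw [if_pos hc, if_pos (h3.mp hc)]
    · rw [if_neg hc, if_neg (fun h' => hc (h3.mpr h'))]
  rw [h2, Finset.sum_const, Finset.card_univ, nsmul_eq_mul, ← Nat.card_eq_fintype_card]
  field_simp

end ind

section rat

variable {N : Type} [Field N] [NumberField N] [IsGalois ℚ N]

lemma exists_RC (σ : ℂ ≃+* ℂ) (φ : N →+* ℂ) : ∃ g : N ≃ₐ[ℚ] N, RC σ φ g :=
  RC.exists (Subsingleton.elim _ _)

/-- all these elements are conjugate -/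
lemma RC_class {σ : ℂ ≃+* ℂ} {φ φ' : N →+* ℂ} {c c' : N ≃ₐ[ℚ] N} (hφ : RC σ φ c)
    (hφ' : RC σ φ' c') : ∃ x : N ≃ₐ[ℚ] N, c' = x⁻¹ * c * x := by
  obtain ⟨τ, hτ⟩ := ComplexEmbedding.exists_comp_symm_eq_of_comp_eq (k := ℚ) φ φ'
    (Subsingleton.elim _ _)
  refine ⟨τ.symm, ?_⟩
  apply hφ'.ext
  rw [← hτ]
  ext y
  have h1 := hφ.eq (τ.symm y)
  change σ (φ (τ.symm y)) = φ (τ.symm ((τ.symm⁻¹ : N ≃ₐ[ℚ] N) (c (τ.symm y))))
  rw [← AlgEquiv.mul_apply τ.symm τ.symm⁻¹, mul_inv_cancel]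
  exact h1.symm

lemma galT_rat {σ : ℂ ≃+* ℂ} {χ : (N ≃ₐ[ℚ] N) → ℂ} (hχ : ∀ g x, χ (x * g * x⁻¹) = χ g)
    {φ : N →+* ℂ} {c : N ≃ₐ[ℚ] N} (hc : RC σ φ c) : galT σ ℚ N χ = χ c := by
  classical
  have h4 : (Nat.card (N ≃ₐ[ℚ] N) : ℂ) ≠ 0 := by exact_mod_cast Nat.card_pos.ne'
  rw [galT]
  have h1 : ∀ φ : N →+* ℂ, (∑ g : N ≃ₐ[ℚ] N, if RC σ φ g then χ g else 0) = χ c := by
    intro φ
    obtain ⟨c', hc'⟩ := exists_RC σ φ
    rw [Finset.sum_eq_single c']
    · rw [if_pos hc']
      obtain ⟨x, hx⟩ := RC_class hc hc'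
      rw [hx]
      have := hχ c x⁻¹
      rwa [inv_inv] at this
    · intro g _ hg
      rw [if_neg]
      intro h
      exact hg (RC.ext h hc')
    · intro h
      exact absurd (Finset.mem_univ _) h
  rw [Finset.sum_congr rfl (fun φ _ => h1 φ), Finset.sum_const, Finset.card_univ, nsmul_eq_mul,
    NumberField.Embeddings.card, IsGalois.card_aut_eq_finrank]
  rw [IsGalois.card_aut_eq_finrank] at h4
  field_simp

end rat

end Pool.Agent.W2helper76.DP
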