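import Mathlib
import Pool.Agent.K4H74.SC.Sum

/-!
# Twisted Artin L-series
-/

set_option autoImplicit false
set_option linter.unusedSectionVars false

namespace Pool.Agent.W2helper76.DP

open NumberField Ideal Pool.Agent.K4H74.ST IsDedekindDomain Pool.Agent.K4H74.SC
open scoped Pointwise Topology

section defs

variable (W : ℕ → ℂ) (K L : Type) [Field K] [NumberField K] [Field L] [NumberField L] [Algebra K L]

/-- the twisted term: the value of the weight `W` at the norm of `p ^ n` times the term of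
`log L(s, χ)` -/
noncomputable def tTerm (χ : (L ≃ₐ[K] L) → ℂ) (s : ℂ) (x : HeightOneSpectrum (𝓞 K) × ℕ+) : ℂ :=
  W (absNorm x.1.asIdeal ^ (x.2 : ℕ)) * logTerm K L χ s x

/-- the twisted L-series -/
noncomputable def tLog (χ : (L ≃ₐ[K] L) → ℂ) (s : ℂ) : ℂ := ∑' x, tTerm W K L χ s x

end defs

section ind

variable (W : ℕ → ℂ) {K F L : Type} [Field K] [NumberField K] [Field F] [NumberField F] [Field L]
  [NumberField L] [Algebra K F] [Algebra F L] [Algebra K L] [IsScalarTower K F L] [IsGalois K L]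
  [IsGalois F L]

/-- **induction** -/
theorem hasSum_tInd {χ : (L ≃ₐ[F] L) → ℂ} {s l : ℂ} (hl1 : HasSum (tTerm W F L χ s) l) :
    HasSum (tTerm W K L (indChar K F L χ) s) l := by
  classical
  let e := Equiv.sigmaFiberEquiv (idx (F := F) K)
  have h1 : HasSum (tTerm W F L χ s ∘ e) l := (Equiv.hasSum_iff e).mpr hl1
  refine h1.sigma fun b => ?_
  -- the fibre
  obtain ⟨p, n⟩ := b
  have hpp := p.isPrime
  let D : Finset (Ideal (𝓞 F)) := (pr_finite F p.ne_bot).toFinset.filter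
    fun q => q.inertiaDeg (𝓞 K) ∣ (n : ℕ)
  have hD : ∀ q ∈ D, q.IsPrime ∧ q.LiesOver p.asIdeal ∧ q ≠ ⊥ ∧ q.inertiaDeg (𝓞 K) ∣ (n : ℕ) := by
    intro q hq
    rw [Finset.mem_filter, Set.Finite.mem_toFinset] at hq
    obtain ⟨⟨e1, e2⟩, e3⟩ := hq
    exact ⟨e1, e2, Ideal.ne_bot_of_liesOver_of_ne_bot p.ne_bot q, e3⟩
  let T : D ≃ {x // idx (F := F) K x = (p, n)} :=
    { toFun := fun q => ⟨(⟨q.1, (hD q.1 q.2).1, (hD q.1 q.2).2.2.1⟩,
        ⟨n / q.1.inertiaDeg (𝓞 K), by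
          have := (hD q.1 q.2).1
          exact Nat.div_pos (Nat.le_of_dvd n.2 (hD q.1 q.2).2.2.2) (deg_pos q.1)⟩), by
          have h2 := (hD q.1 q.2).2.1
          refine Prod.ext ?_ ?_
          · apply HeightOneSpectrum.ext
            exact (Ideal.over_def q.1 p.asIdeal).symm
          · apply PNat.eq
            exact Nat.mul_div_cancel' (hD q.1 q.2).2.2.2⟩
      invFun := fun x => ⟨x.1.1.asIdeal, by
          have hx1 := congrArg (fun y => y.1.asIdeal) x.2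
          have hx2 := congrArg (fun y => (y.2 : ℕ)) x.2
          rw [Finset.mem_filter, Set.Finite.mem_toFinset]
          refine ⟨⟨x.1.1.isPrime, ⟨hx1.symm⟩⟩, ?_⟩
          exact ⟨x.1.2, hx2.symm⟩⟩
      left_inv := fun q => rfl
      right_inv := fun x => by
          apply Subtype.ext
          refine Prod.ext rfl ?_
          apply PNat.eq
          have hx2 : x.1.1.asIdeal.inertiaDeg (𝓞 K) * (x.1.2 : ℕ) = n :=
            congrArg (fun y => (y.2 : ℕ)) x.2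
          have := x.1.1.isPrime
          change (n : ℕ) / x.1.1.asIdeal.inertiaDeg (𝓞 K) = x.1.2
          rw [← hx2]
          exact Nat.mul_div_cancel_left _ (deg_pos _) }
  rw [← Equiv.hasSum_iff T]
  have h2 : tTerm W K L (indChar K F L χ) s (p, n)
      = ∑ q : D, ((fun c => (tTerm W F L χ s ∘ e) ⟨(p, n), c⟩) ∘ T) q := by
    have h3 := frobMean_ind (K := K) (F := F) (L := L) (χ := χ) p.ne_bot (n := (n : ℕ)) n.pos
    change W (absNorm p.asIdeal ^ (n : ℕ)) *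
      (frobMean K L (indChar K F L χ) p.asIdeal (n : ℕ) / _) = _
    rw [h3, ← Finset.sum_filter]
    change _ * ((∑ q ∈ D, _) / _) = _
    rw [Finset.sum_div, Finset.mul_sum, ← Finset.sum_coe_sort]
    refine Finset.sum_congr rfl fun q _ => ?_
    obtain ⟨q, hq⟩ := q
    obtain ⟨e1, e2, e3, e4⟩ := hD q hq
    change W (absNorm p.asIdeal ^ (n : ℕ)) *
      (((q.inertiaDeg (𝓞 K) : ℂ) * frobMean F L χ q ((n : ℕ) / q.inertiaDeg (𝓞 K)))
      / ((n : ℕ) * (absNorm p.asIdeal : ℂ) ^ (((n : ℕ) : ℂ) * s)))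
      = W (absNorm q ^ ((n : ℕ) / q.inertiaDeg (𝓞 K))) *
        (frobMean F L χ q ((n : ℕ) / q.inertiaDeg (𝓞 K)) / ((((n : ℕ) / q.inertiaDeg (𝓞 K) : ℕ) : ℂ) *
        (absNorm q : ℂ) ^ ((((n : ℕ) / q.inertiaDeg (𝓞 K) : ℕ) : ℂ) * s)))
    obtain ⟨m, hm⟩ := e4
    have hd0 : q.inertiaDeg (𝓞 K) ≠ 0 := (deg_pos q).ne'
    have hm' : (n : ℕ) / q.inertiaDeg (𝓞 K) = m := by
      rw [hm]; exact Nat.mul_div_cancel_left _ (deg_pos q)
    have hm0 : (m : ℂ) ≠ 0 := by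
      intro h0
      have : m = 0 := by exact_mod_cast h0
      rw [this, mul_zero] at hm
      exact n.2.ne' hm
    rw [hm', hm]
    have h4 : absNorm p.asIdeal ^ (q.inertiaDeg (𝓞 K) * m) = absNorm q ^ m := by
      rw [pow_mul, Ideal.absNorm_pow_inertiaDeg p.asIdeal q]
    have h3 : (absNorm q : ℂ) ^ ((m : ℂ) * s)
        = (absNorm p.asIdeal : ℂ) ^ (((q.inertiaDeg (𝓞 K) * m : ℕ) : ℂ) * s) := by
      rw [← Ideal.absNorm_pow_inertiaDeg p.asIdeal q]
      push_cast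
      rw [mul_assoc, Complex.natCast_cpow_natCast_mul]
    rw [h3, h4]
    congr 1
    push_cast
    have hd1 : (q.inertiaDeg (𝓞 K) : ℂ) ≠ 0 := by exact_mod_cast hd0
    rw [mul_assoc, mul_div_mul_left _ _ hd1]
  rw [h2]
  exact hasSum_fintype _

end ind

section terms

variable {W : ℕ → ℂ} {K L : Type} [Field K] [NumberField K] [Field L] [NumberField L]
  [Algebra K L]

/-- **convergence** -/
theorem tTerm_summable {w B : ℝ} (hB : 0 ≤ B) (hW : ∀ q : ℕ, ‖W q‖ ≤ B * (q : ℝ) ^ w)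
    (χ : (L ≃ₐ[K] L) → ℂ) {s : ℂ} (hs : 1 < s.re - w) :
    Summable (tTerm W K L χ s) := by
  obtain ⟨C, hC, hb⟩ := frobMean_bound χ
  have h1 : Summable (fun q : HeightOneSpectrum (𝓞 K) =>
      ((absNorm q.asIdeal : ℕ) : ℝ) ^ (-(s.re - w))) := summable_absNorm hs
  have hgeo : Summable (fun n : ℕ+ => ((1 / 2 : ℝ)) ^ (((n : ℕ+) : ℕ) - 1)) := by
    have h2 : Summable (fun n : ℕ => ((1 / 2 : ℝ)) ^ n) :=
      summable_geometric_of_lt_one (by norm_num) (by norm_num)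
    have h3 : Function.Injective (fun n : ℕ+ => ((n : ℕ) - 1)) := by
      intro a b hab
      apply PNat.eq
      have := a.pos
      have := b.pos
      simp only at hab
      omega
    exact h2.comp_injective h3
  have h4 := h1.mul_of_nonneg hgeo (fun q => Real.rpow_nonneg (Nat.cast_nonneg _) _)
    (fun n => pow_nonneg (by norm_num) _)
  refine Summable.of_norm_bounded (h4.mul_left (B * C)) fun x => ?_
  obtain ⟨q, n⟩ := x
  have hN : (2 : ℝ) ≤ (absNorm q.asIdeal : ℕ) := by exact_mod_cast two_le_absNorm q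
  have hN0 : (0 : ℝ) < (absNorm q.asIdeal : ℕ) := by linarith
  rw [tTerm, logTerm, norm_mul, norm_div, norm_mul, Complex.norm_natCast]
  have h5 : ‖(absNorm q.asIdeal : ℂ) ^ (((n : ℕ) : ℂ) * s)‖
      = ((absNorm q.asIdeal : ℕ) : ℝ) ^ ((n : ℕ) * s.re) := by
    have h6 := Complex.norm_cpow_eq_rpow_re_of_pos hN0 (((n : ℕ) : ℂ) * s)
    have h7 : (((n : ℕ) : ℂ) * s).re = (n : ℕ) * s.re := by
      rw [Complex.mul_re, Complex.natCast_re, Complex.natCast_im, zero_mul, sub_zero]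
    rw [h7] at h6
    exact_mod_cast h6
  rw [h5]
  have hn1 : (1 : ℝ) ≤ (n : ℕ) := by exact_mod_cast n.pos
  have h8 : (0 : ℝ) < ((absNorm q.asIdeal : ℕ) : ℝ) ^ ((n : ℕ) * s.re) := Real.rpow_pos_of_pos hN0 _
  have h9 : ‖frobMean K L χ q.asIdeal n‖ / ((n : ℕ) * ((absNorm q.asIdeal : ℕ) : ℝ) ^ ((n : ℕ) * s.re))
      ≤ C / ((absNorm q.asIdeal : ℕ) : ℝ) ^ ((n : ℕ) * s.re) := by
    refine div_le_div₀ hC (hb q n) h8 ?_
    exact le_mul_of_one_le_left h8.le hn1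
  have h9' : ‖W (absNorm q.asIdeal ^ (n : ℕ))‖ ≤ B * ((absNorm q.asIdeal : ℕ) : ℝ) ^ ((n : ℕ) * w) := by
    refine (hW _).trans (le_of_eq ?_)
    push_cast
    rw [← Real.rpow_natCast, ← Real.rpow_mul hN0.le]
  have h9'' := mul_le_mul h9' h9 (div_nonneg (norm_nonneg _) (mul_nonneg (by linarith) h8.le))
    (mul_nonneg hB (Real.rpow_nonneg hN0.le _))
  refine h9''.trans ?_
  have h12 : B * ((absNorm q.asIdeal : ℕ) : ℝ) ^ ((n : ℕ) * w) *
      (C / ((absNorm q.asIdeal : ℕ) : ℝ) ^ ((n : ℕ) * s.re))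
      = (B * C) * ((absNorm q.asIdeal : ℕ) : ℝ) ^ (-((n : ℕ) * (s.re - w))) := by
    have h13 : ((absNorm q.asIdeal : ℕ) : ℝ) ^ (-((n : ℕ) * (s.re - w)))
        = ((absNorm q.asIdeal : ℕ) : ℝ) ^ ((n : ℕ) * w)
          / ((absNorm q.asIdeal : ℕ) : ℝ) ^ ((n : ℕ) * s.re) := by
      rw [← Real.rpow_sub hN0]
      congr 1
      ring
    rw [h13]
    ring
  rw [h12]
  refine mul_le_mul_of_nonneg_left ?_ (mul_nonneg hB hC)
  -- `N^(-n σ) ≤ N^(-σ) (1/2)^(n-1)`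
  set σ : ℝ := s.re - w with hσ
  have h10 : ((absNorm q.asIdeal : ℕ) : ℝ) ^ (-((n : ℕ) * σ))
      = ((absNorm q.asIdeal : ℕ) : ℝ) ^ (-σ)
        * ((absNorm q.asIdeal : ℕ) : ℝ) ^ (-((((n : ℕ) - 1 : ℕ) : ℝ) * σ)) := by
    rw [← Real.rpow_add hN0]
    congr 1
    have h11 : (((n : ℕ) - 1 : ℕ) : ℝ) = (n : ℕ) - 1 := by
      rw [Nat.cast_sub n.pos, Nat.cast_one]
    rw [h11]
    ring
  change ((absNorm q.asIdeal : ℕ) : ℝ) ^ (-((n : ℕ) * σ))
    ≤ ((absNorm q.asIdeal : ℕ) : ℝ) ^ (-σ) * (1 / 2) ^ ((n : ℕ) - 1)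
  rw [h10]
  refine mul_le_mul_of_nonneg_left ?_ (Real.rpow_nonneg hN0.le _)
  calc ((absNorm q.asIdeal : ℕ) : ℝ) ^ (-((((n : ℕ) - 1 : ℕ) : ℝ) * σ))
      ≤ (2 : ℝ) ^ (-((((n : ℕ) - 1 : ℕ) : ℝ) * σ)) := by
        refine Real.rpow_le_rpow_of_nonpos (by norm_num) hN ?_
        have h12 : (0 : ℝ) ≤ (((n : ℕ) - 1 : ℕ) : ℝ) := Nat.cast_nonneg _
        nlinarith
    _ ≤ (2 : ℝ) ^ (-(((n : ℕ) - 1 : ℕ) : ℝ)) := by
        refine Real.rpow_le_rpow_of_exponent_le (by norm_num) ?_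
        have h12 : (0 : ℝ) ≤ (((n : ℕ) - 1 : ℕ) : ℝ) := Nat.cast_nonneg _
        nlinarith
    _ = (1 / 2) ^ ((n : ℕ) - 1) := by
        rw [Real.rpow_neg (by norm_num), Real.rpow_natCast, one_div, inv_pow]

lemma tLog_add {w B : ℝ} (hB : 0 ≤ B) (hW : ∀ q : ℕ, ‖W q‖ ≤ B * (q : ℝ) ^ w)
    (χ χ' : (L ≃ₐ[K] L) → ℂ) {s : ℂ} (hs : 1 < s.re - w) :
    tLog W K L (χ + χ') s = tLog W K L χ s + tLog W K L χ' s := by
  have h1 := (tTerm_summable hB hW χ hs).hasSum.add (tTerm_summable hB hW χ' hs).hasSum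
  have h2 : (fun x => tTerm W K L χ s x + tTerm W K L χ' s x) = tTerm W K L (χ + χ') s := by
    funext x
    have := x.1.isPrime
    rw [tTerm, tTerm, tTerm, ← mul_add, logTerm, logTerm, logTerm, frobMean_add χ χ' x.1.ne_bot,
      add_div]
  rw [h2] at h1
  exact h1.tsum_eq

end terms

section infl

variable (W : ℕ → ℂ) {K L N : Type} [Field K] [NumberField K] [Field L] [NumberField L] [Field N]
  [NumberField N] [Algebra K L] [Algebra L N] [Algebra K N] [IsScalarTower K L N] [IsGalois K L]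
  [IsGalois K N]

/-- **inflation** -/
theorem tLog_infl {χ : (L ≃ₐ[K] L) → ℂ} (hχ : IsChar χ) (s : ℂ) :
    tLog W K N (fun g => χ (AlgEquiv.restrictNormalHom L g)) s = tLog W K L χ s := by
  rw [tLog, tLog]
  congr 1
  funext x
  rw [tTerm, tTerm, logTerm_infl hχ]

end infl

/-- **the twisted L-values as an inductive invariant** -/
noncomputable def tInv (W : ℕ → ℂ) {w B : ℝ} (hB : 0 ≤ B) (hW : ∀ q : ℕ, ‖W q‖ ≤ B * (q : ℝ) ^ w)
    {s : ℂ} (hs : 1 < s.re - w) : ArtinInvariant (Multiplicative ℂ) where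
  val K L _ _ _ _ _ _ χ := Multiplicative.ofAdd (tLog W K L χ s)
  val_add K L _ _ _ _ _ _ χ χ' _ _ := by
    rw [tLog_add hB hW χ χ' hs]
    rfl
  val_infl K L N _ _ _ _ _ _ _ _ _ _ _ _ χ hχ := by
    rw [tLog_infl W hχ]
  val_ind K F L _ _ _ _ _ _ _ _ _ _ _ _ χ _ := by
    congr 1
    exact (hasSum_tInd W (tTerm_summable hB hW χ hs).hasSum).tsum_eq

end Pool.Agent.W2helper76.DP
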