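import Mathlib
import Pool.Agent.W2helper76.DP.Core
import Pool.Agent.W2helper76.DP.Term

/-!
# The defect of Deligne's conjecture for the Artin twists as an inductive invariant
-/

set_option autoImplicit false
set_option linter.unusedSectionVars false
set_option maxHeartbeats 400000

namespace Pool.Agent.W2helper76.DP

open NumberField Pool.Agent.K4H74.ST Pool.Agent.R389 Pool.Agent.K4H74.SC

section expo

open Classical in
/-- the power of `z` with a complex exponent which is an integer -/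
noncomputable def expo (z : ℂˣ) (r : ℂ) : ℂˣ := if h : ∃ n : ℤ, (n : ℂ) = r then z ^ h.choose else 1

lemma expo_int (z : ℂˣ) {r : ℂ} {n : ℤ} (h : (n : ℂ) = r) : expo z r = z ^ n := by
  have h1 : ∃ n : ℤ, (n : ℂ) = r := ⟨n, h⟩
  rw [expo, dif_pos h1]
  congr 1
  have h2 := h1.choose_spec.trans h.symm
  exact_mod_cast h2

lemma expo_nat (z : ℂˣ) {r : ℂ} {n : ℕ} (h : (n : ℂ) = r) : expo z r = z ^ n := by
  rw [expo_int z (n := (n : ℤ)) (by rw [← h]; push_cast; rfl), zpow_natCast]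

lemma expo_add (z : ℂˣ) {r r' : ℂ} (h : ∃ n : ℕ, (n : ℂ) = r) (h' : ∃ n : ℕ, (n : ℂ) = r') :
    expo z (r + r') = expo z r * expo z r' := by
  obtain ⟨n, hn⟩ := h
  obtain ⟨n', hn'⟩ := h'
  rw [expo_nat z hn, expo_nat z hn', expo_nat z (n := n + n') (by rw [← hn, ← hn']; push_cast; rfl),
    pow_add]

end expo

section per

/-- the exponents of the two periods -/
noncomputable def dp (K L : Type) [Field K] [NumberField K] [Field L] [NumberField L] [Algebra K L]
    (χ : (L ≃ₐ[K] L) → ℂ) : ℂ := (dee K L χ + tee K L χ) / 2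

/-- the exponents of the two periods -/
noncomputable def dm (K L : Type) [Field K] [NumberField K] [Field L] [NumberField L] [Algebra K L]
    (χ : (L ≃ₐ[K] L) → ℂ) : ℂ := (dee K L χ - tee K L χ) / 2

variable {K L : Type} [Field K] [NumberField K] [Field L] [NumberField L] [Algebra K L]
  [IsGalois K L]

lemma dp_nat {χ : (L ≃ₐ[K] L) → ℂ} (h : IsChar χ) : ∃ n : ℕ, (n : ℂ) = dp K L χ := by
  obtain ⟨a, b, h1, h2⟩ := exists_ab K L h
  exact ⟨a, by rw [dp, h1, h2]; ring⟩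

lemma dm_nat {χ : (L ≃ₐ[K] L) → ℂ} (h : IsChar χ) : ∃ n : ℕ, (n : ℂ) = dm K L χ := by
  obtain ⟨a, b, h1, h2⟩ := exists_ab K L h
  exact ⟨b, by rw [dm, h1, h2]; ring⟩

variable (cp cm : ℂˣ)

/-- the period of the twist -/
noncomputable def per (K L : Type) [Field K] [NumberField K] [Field L] [NumberField L] [Algebra K L]
    (χ : (L ≃ₐ[K] L) → ℂ) : ℂˣ := expo cp (dp K L χ) * expo cm (dm K L χ)

lemma per_eq {χ : (L ≃ₐ[K] L) → ℂ} {a b : ℕ} (h1 : dee K L χ = a + b) (h2 : tee K L χ = a - b) :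
    per cp cm K L χ = cp ^ a * cm ^ b := by
  rw [per, expo_nat cp (n := a) (by rw [dp, h1, h2]; ring),
    expo_nat cm (n := b) (by rw [dm, h1, h2]; ring)]

lemma per_add {χ χ' : (L ≃ₐ[K] L) → ℂ} (h : IsChar χ) (h' : IsChar χ') :
    per cp cm K L (χ + χ') = per cp cm K L χ * per cp cm K L χ' := by
  have h1 : dp K L (χ + χ') = dp K L χ + dp K L χ' := by
    rw [dp, dp, dp, dee_add, tee_add]; ring
  have h2 : dm K L (χ + χ') = dm K L χ + dm K L χ' := by
    rw [dm, dm, dm, dee_add, tee_add]; ring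
  rw [per, per, per, h1, h2, expo_add cp (dp_nat h) (dp_nat h'), expo_add cm (dm_nat h) (dm_nat h')]
  exact mul_mul_mul_comm _ _ _ _

end per

/-- the data which belong to a motive: the weight function, the two periods and the point -/
structure Dat where
  W : ℕ → ℂ
  w : ℝ
  B : ℝ
  s : ℂ
  hB : 0 ≤ B
  hW : ∀ q : ℕ, ‖W q‖ ≤ B * (q : ℝ) ^ w
  hs : 1 < s.re - w
  cp : ℂˣ
  cm : ℂˣ

/-- the value of the L-function -/
noncomputable def Dat.L (D : Dat) (K L : Type) [Field K] [NumberField K] [Field L] [NumberField L]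
    [Algebra K L] (χ : (L ≃ₐ[K] L) → ℂ) : ℂˣ :=
  Units.mk0 (Complex.exp (tLog D.W K L χ D.s)) (Complex.exp_ne_zero _)

/-- the value of the L-function divided by the period -/
noncomputable def Dat.Q (D : Dat) (K L : Type) [Field K] [NumberField K] [Field L] [NumberField L]
    [Algebra K L] (χ : (L ≃ₐ[K] L) → ℂ) : ℂˣ := D.L K L χ / per D.cp D.cm K L χ

lemma Dat.L_add (D : Dat) {K L : Type} [Field K] [NumberField K] [Field L] [NumberField L]
    [Algebra K L] (χ χ' : (L ≃ₐ[K] L) → ℂ) : D.L K L (χ + χ') = D.L K L χ * D.L K L χ' := by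
  apply Units.ext
  rw [Units.val_mul]
  change Complex.exp _ = Complex.exp _ * Complex.exp _
  rw [tLog_add D.hB D.hW χ χ' D.hs, Complex.exp_add]

lemma Dat.Q_add (D : Dat) {K L : Type} [Field K] [NumberField K] [Field L] [NumberField L]
    [Algebra K L] [IsGalois K L] {χ χ' : (L ≃ₐ[K] L) → ℂ} (h : IsChar χ) (h' : IsChar χ') :
    D.Q K L (χ + χ') = D.Q K L χ * D.Q K L χ' := by
  rw [Dat.Q, Dat.Q, Dat.Q, D.L_add, per_add D.cp D.cm h h']
  exact (div_mul_div_comm _ _ _ _).symm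

lemma Dat.Q_infl (D : Dat) {K L N : Type} [Field K] [NumberField K] [Field L] [NumberField L]
    [Field N] [NumberField N] [Algebra K L] [IsGalois K L] [Algebra K N] [IsGalois K N]
    [Algebra L N] [IsScalarTower K L N] {χ : (L ≃ₐ[K] L) → ℂ} (h : IsChar χ) :
    D.Q K N (fun g => χ (AlgEquiv.restrictNormalHom L g)) = D.Q K L χ := by
  have h1 : D.L K N (fun g => χ (AlgEquiv.restrictNormalHom L g)) = D.L K L χ := by
    apply Units.ext
    change Complex.exp _ = Complex.exp _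
    rw [tLog_infl D.W h]
  rw [Dat.Q, Dat.Q, h1, per, per, dp, dp, dm, dm, dee_infl, tee_infl]

lemma Dat.Q_ind (D : Dat) {K F L : Type} [Field K] [NumberField K] [Field F] [NumberField F]
    [Field L] [NumberField L] [Algebra K F] [Algebra F L] [Algebra K L] [IsScalarTower K F L]
    [IsGalois K L] [IsGalois F L] (χ : (L ≃ₐ[F] L) → ℂ) :
    D.Q K L (indChar K F L χ) = D.Q F L χ := by
  have h1 : D.L K L (indChar K F L χ) = D.L F L χ := by
    apply Units.ext
    change Complex.exp _ = Complex.exp _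
    congr 1
    exact (hasSum_tInd D.W (tTerm_summable D.hB D.hW χ D.hs).hasSum).tsum_eq
  rw [Dat.Q, Dat.Q, h1, per, per, dp, dp, dm, dm, dee_ind, tee_ind]

lemma isChar_sig {G : Type} [Group G] [Finite G] {χ : G → ℂ} (h : IsChar χ) (σ : ℂ ≃+* ℂ) :
    IsChar (fun g => σ (χ g)) := isChar_sigma h σ.toRingHom

/-- the defect -/
noncomputable def dq (D D' : Dat) (σ : ℂ ≃+* ℂ) (K L : Type) [Field K] [NumberField K] [Field L]
    [NumberField L] [Algebra K L] (χ : (L ≃ₐ[K] L) → ℂ) : ℂˣ :=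
  Units.map (σ : ℂ →* ℂ) (D.Q K L χ) / D'.Q K L (fun g => σ (χ g))

lemma dq_add (D D' : Dat) (σ : ℂ ≃+* ℂ) {K L : Type} [Field K] [NumberField K] [Field L]
    [NumberField L] [Algebra K L] [IsGalois K L] {χ χ' : (L ≃ₐ[K] L) → ℂ} (h : IsChar χ)
    (h' : IsChar χ') : dq D D' σ K L (χ + χ') = dq D D' σ K L χ * dq D D' σ K L χ' := by
  have hfin : FiniteDimensional K L := Module.Finite.of_restrictScalars_finite ℚ K L
  have h1 : (fun g => σ ((χ + χ') g)) = (fun g => σ (χ g)) + (fun g => σ (χ' g)) := by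
    funext g
    exact map_add σ _ _
  have h2 : D'.Q K L ((fun g => σ (χ g)) + (fun g => σ (χ' g)))
      = D'.Q K L (fun g => σ (χ g)) * D'.Q K L (fun g => σ (χ' g)) :=
    D'.Q_add (isChar_sig h σ) (isChar_sig h' σ)
  rw [dq, dq, dq, D.Q_add h h', h1, h2, map_mul]
  exact (div_mul_div_comm _ _ _ _).symm

lemma dq_infl (D D' : Dat) (σ : ℂ ≃+* ℂ) {K L N : Type} [Field K] [NumberField K] [Field L]
    [NumberField L] [Field N] [NumberField N] [Algebra K L] [IsGalois K L] [Algebra K N]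
    [IsGalois K N] [Algebra L N] [IsScalarTower K L N] {χ : (L ≃ₐ[K] L) → ℂ} (h : IsChar χ) :
    dq D D' σ K N (fun g => χ (AlgEquiv.restrictNormalHom L g)) = dq D D' σ K L χ := by
  have h3 : IsChar (fun g => σ (χ g)) := isChar_sig h σ
  have h2 := D'.Q_infl (K := K) (L := L) (N := N) (χ := fun g => σ (χ g)) h3
  unfold dq
  rw [D.Q_infl h]
  exact congrArg (fun z : ℂˣ => Units.map (σ : ℂ →* ℂ) (D.Q K L χ) / z) h2

lemma dq_ind (D D' : Dat) (σ : ℂ ≃+* ℂ) {K F L : Type} [Field K] [NumberField K] [Field F]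
    [NumberField F] [Field L] [NumberField L] [Algebra K F] [Algebra F L] [Algebra K L]
    [IsScalarTower K F L] [IsGalois K L] [IsGalois F L] (χ : (L ≃ₐ[F] L) → ℂ) :
    dq D D' σ K L (indChar K F L χ) = dq D D' σ F L χ := by
  have h0 : (fun g => σ (indChar K F L χ g))
      = indChar K F L (fun g => σ (χ g)) := funext fun g => indChar_sigma σ.toRingHom _ _
  rw [dq, dq, D.Q_ind χ, h0, D'.Q_ind (fun g => σ (χ g))]

/-- **the defect, up to roots of unity** -/
noncomputable def dInv (D D' : Dat) (σ : ℂ ≃+* ℂ) :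
    ArtinInvariant (ℂˣ ⧸ CommGroup.torsion ℂˣ) where
  val K L _ _ _ _ _ _ χ := QuotientGroup.mk' _ (dq D D' σ K L χ)
  val_add K L _ _ _ _ _ _ χ χ' h h' := by
    rw [dq_add D D' σ h h', map_mul]
  val_infl K L N _ _ _ _ _ _ _ _ _ _ _ _ χ h := by
    rw [dq_infl D D' σ h]
  val_ind K F L _ _ _ _ _ _ _ _ _ _ _ _ χ h := by
    rw [dq_ind D D' σ χ]

lemma tf_quot (x : ℂˣ ⧸ CommGroup.torsion ℂˣ) (n : ℕ) (hn : 0 < n) (h : x ^ n = 1) : x = 1 := by
  obtain ⟨y, rfl⟩ := QuotientGroup.mk_surjective x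
  have h1 : ((y ^ n : ℂˣ) : ℂˣ ⧸ CommGroup.torsion ℂˣ) = 1 := h
  rw [QuotientGroup.eq_one_iff] at h1 ⊢
  exact (isOfFinOrder_pow.mp h1).resolve_right hn.ne'

lemma dInv_eq_one {D D' : Dat} {σ : ℂ ≃+* ℂ} {K L : Type} [Field K] [NumberField K] [Field L]
    [NumberField L] [Algebra K L] [IsGalois K L] {χ : (L ≃ₐ[K] L) → ℂ} :
    (dInv D D' σ).val K L χ = 1 ↔ ∃ n : ℕ, 0 < n ∧
      σ (D.Q K L χ : ℂˣ) ^ n = ((D'.Q K L (fun g => σ (χ g)) : ℂˣ) : ℂ) ^ n := by
  change ((dq D D' σ K L χ : ℂˣ) : ℂˣ ⧸ CommGroup.torsion ℂˣ) = 1 ↔ _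
  rw [QuotientGroup.eq_one_iff, dq]
  change IsOfFinOrder _ ↔ _
  rw [isOfFinOrder_iff_pow_eq_one]
  refine exists_congr fun n => and_congr_right fun _ => ?_
  rw [div_pow, div_eq_one, ← Units.val_inj, Units.val_pow_eq_pow_val, Units.val_pow_eq_pow_val]
  rfl

/-- the value over the rational numbers -/
theorem main_dInv {D D' : Dat} {σ : ℂ ≃+* ℂ} (hC : TrivComplex (dInv D D' σ))
    (h1 : (dInv D D' σ).val ℚ ℚ (fun _ => 1) = 1) (K L : Type) [Field K] [NumberField K] [Field L]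
    [NumberField L] [Algebra K L] [IsGalois K L] {χ : (L ≃ₐ[K] L) → ℂ} (hχ : IsChar χ) :
    (dInv D D' σ).val K L χ = 1 := by
  obtain ⟨a, b, -, h2⟩ := exists_ab K L hχ
  rw [main_val tf_quot hC K L hχ (m := (a : ℤ) - b) (by rw [h2]; push_cast; rfl), h1, one_zpow]

end Pool.Agent.W2helper76.DP
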