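import Mathlib
import Pool.Agent.W2helper76.DP.Gal
import Pool.Agent.W2helper76.DP.Inv

/-!
# The determinant of an automorphism of the complex numbers as an inductive invariant, and the exact
# defect of Deligne's conjecture
-/

set_option autoImplicit false
set_option linter.unusedSectionVars false
set_option maxHeartbeats 400000

namespace Pool.Agent.W2helper76.DP

open NumberField NumberField.ComplexEmbedding Pool.Agent.K4H74.ST Pool.Agent.R389
  Pool.Agent.K4H74.SC

section lin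

lemma lin_pow {R : ℕ} (A : Matrix (Fin R) (Fin R) ℂ) (k : ℕ) :
    (Matrix.toLin' A) ^ k = Matrix.toLin' (A ^ k) :=
  (map_pow (Matrix.toLinAlgEquiv' (R := ℂ) (n := Fin R)) A k).symm

lemma lin_trace {R : ℕ} (A : Matrix (Fin R) (Fin R) ℂ) :
    LinearMap.trace ℂ (Fin R → ℂ) (Matrix.toLin' A) = A.trace := by
  rw [LinearMap.trace_eq_matrix_trace ℂ (Pi.basisFun ℂ (Fin R)), LinearMap.toMatrix_eq_toMatrix',
    LinearMap.toMatrix'_toLin']

/-- the determinant from the traces -/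
lemma det_unique {R R' : ℕ} {A : Matrix (Fin R) (Fin R) ℂ} {A' : Matrix (Fin R') (Fin R') ℂ}
    (h : ∀ k : ℕ, (A' ^ k).trace = (A ^ k).trace) : A'.det = A.det := by
  rw [← LinearMap.det_toLin', ← LinearMap.det_toLin' A]
  refine det_of_trace (RingHom.id ℂ) _ _ fun k => ?_
  rw [lin_pow, lin_pow, lin_trace, lin_trace, h]
  rfl

lemma det_add {R R₁ R₂ : ℕ} {A : Matrix (Fin R) (Fin R) ℂ} {A₁ : Matrix (Fin R₁) (Fin R₁) ℂ}
    {A₂ : Matrix (Fin R₂) (Fin R₂) ℂ}
    (h : ∀ k : ℕ, (A ^ k).trace = (A₁ ^ k).trace + (A₂ ^ k).trace) :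
    A.det = A₁.det * A₂.det := by
  rw [← LinearMap.det_toLin', ← LinearMap.det_toLin' A₁, ← LinearMap.det_toLin' A₂]
  refine det_of_trace_add _ _ _ fun k => ?_
  rw [lin_pow, lin_pow, lin_pow, lin_trace, lin_trace, lin_trace, h]

end lin

/-- `d` is the determinant of `σ` -/
def IsDetK (σ : ℂ ≃+* ℂ) (K L : Type) [Field K] [NumberField K] [Field L] [NumberField L]
    [Algebra K L] (χ : (L ≃ₐ[K] L) → ℂ) (d : ℂ) : Prop :=
  ∃ (R : ℕ) (A : Matrix (Fin R) (Fin R) ℂ), (∀ k : ℕ, (A ^ k).trace = galT (σ ^ k) K L χ) ∧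
    d = A.det

section basic

variable {σ : ℂ ≃+* ℂ} {K L : Type} [Field K] [NumberField K] [Field L] [NumberField L]
  [Algebra K L]

lemma IsDetK.unique {χ : (L ≃ₐ[K] L) → ℂ} {d d' : ℂ} (h : IsDetK σ K L χ d)
    (h' : IsDetK σ K L χ d') : d = d' := by
  obtain ⟨R, A, h1, rfl⟩ := h
  obtain ⟨R', A', h1', rfl⟩ := h'
  exact det_unique fun k => by rw [h1, h1']

lemma IsDetK.add {χ χ' : (L ≃ₐ[K] L) → ℂ} {d d' e : ℂ} (h : IsDetK σ K L χ d)
    (h' : IsDetK σ K L χ' d') (he : IsDetK σ K L (χ + χ') e) : e = d * d' := by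
  obtain ⟨R, A, h1, rfl⟩ := h
  obtain ⟨R', A', h1', rfl⟩ := h'
  obtain ⟨R'', A'', h1'', rfl⟩ := he
  exact det_add fun k => by rw [h1, h1', h1'', galT_add]

/-- every character has the same invariants as a character over the rational numbers -/
theorem exists_rat_gal [IsGalois K L] {χ : (L ≃ₐ[K] L) → ℂ} (hχ : IsChar χ) :
    ∃ (N : Type) (_ : Field N) (_ : NumberField N) (_ : IsGalois ℚ N) (χ' : (N ≃ₐ[ℚ] N) → ℂ),
      IsChar χ' ∧ ∀ σ : ℂ ≃+* ℂ, galT σ K L χ = galT σ ℚ N χ' := by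
  obtain ⟨N, i1, i2, i3, i4⟩ := Pool.Agent.K4H34.ST.exists_gal L
  let _ : Algebra K N := ((algebraMap L N).comp (algebraMap K L)).toAlgebra
  have htow : IsScalarTower K L N := IsScalarTower.of_algebraMap_eq fun x => rfl
  have htow2 : IsScalarTower ℚ K N := inferInstance
  have hgal : IsGalois K N := IsGalois.tower_top_of_isGalois ℚ K N
  have h8 : IsChar (fun g : N ≃ₐ[K] N => χ (AlgEquiv.restrictNormalHom L g)) :=
    Pool.Agent.K4H77.SL.IsChar.comp hχ _
  refine ⟨N, i1, i2, i4, indChar ℚ K N (fun g => χ (AlgEquiv.restrictNormalHom L g)),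
    Pool.Agent.K4H74.SC.isChar_indChar h8, fun σ => ?_⟩
  rw [galT_ind, galT_infl]

/-- existence of the determinant -/
theorem exists_det [IsGalois K L] (σ : ℂ ≃+* ℂ) {χ : (L ≃ₐ[K] L) → ℂ} (hχ : IsChar χ) :
    ∃ d : ℂˣ, IsDetK σ K L χ d := by
  obtain ⟨N, i1, i2, i3, χ', hχ', h1⟩ := exists_rat_gal hχ
  obtain ⟨φ⟩ : Nonempty (N →+* ℂ) := inferInstance
  obtain ⟨g, hg⟩ := exists_RC σ φ
  have hconj := conj_inv hχ'
  obtain ⟨V, _, _, _, ρ, rfl⟩ := hχ'
  let b := Module.finBasis ℂ V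
  let A := LinearMap.toMatrix b b (ρ g)
  have hA : ∀ k : ℕ, A ^ k = LinearMap.toMatrix b b (ρ (g ^ k)) := by
    intro k
    rw [map_pow]
    exact (map_pow (LinearMap.toMatrixAlgEquiv b) (ρ g) k).symm
  have h2 : ∀ k : ℕ, (A ^ k).trace = galT (σ ^ k) K L χ := by
    intro k
    rw [hA, ← LinearMap.trace_eq_matrix_trace, h1, galT_rat hconj (hg.pow k)]
    rfl
  have h3 : A.det ≠ 0 := by
    have h4 : A * LinearMap.toMatrix b b (ρ g⁻¹) = 1 := by
      have h5 : A * LinearMap.toMatrix b b (ρ g⁻¹)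
          = LinearMap.toMatrix b b (ρ g * ρ g⁻¹) :=
        (map_mul (LinearMap.toMatrixAlgEquiv b) (ρ g) (ρ g⁻¹)).symm
      rw [h5, ← map_mul, mul_inv_cancel, map_one]
      exact map_one (LinearMap.toMatrixAlgEquiv b)
    have h6 := congrArg Matrix.det h4
    rw [Matrix.det_mul, Matrix.det_one] at h6
    intro h0
    rw [h0, zero_mul] at h6
    exact zero_ne_one h6
  exact ⟨Units.mk0 A.det h3, _, A, h2, rfl⟩

end basic

open Classical in
/-- the determinant as an inductive invariant -/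
noncomputable def detInv (σ : ℂ ≃+* ℂ) : ArtinInvariant ℂˣ where
  val K L _ _ _ _ _ _ χ := if h : ∃ d : ℂˣ, IsDetK σ K L χ d then h.choose else 1
  val_add K L _ _ _ _ _ _ χ χ' h h' := by
    have e1 := exists_det σ h
    have e2 := exists_det σ h'
    have e3 := exists_det σ (h.add h')
    rw [dif_pos e1, dif_pos e2, dif_pos e3]
    apply Units.ext
    rw [Units.val_mul]
    exact e1.choose_spec.add e2.choose_spec e3.choose_spec
  val_infl K L N _ _ _ _ _ _ _ _ _ _ _ _ χ h := by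
    have h0 : ∀ d : ℂˣ, IsDetK σ K N (fun g => χ (AlgEquiv.restrictNormalHom L g)) d
        ↔ IsDetK σ K L χ d := by
      intro d
      unfold IsDetK
      simp only [galT_infl]
    simp only [h0]
  val_ind K F L _ _ _ _ _ _ _ _ _ _ _ _ χ h := by
    have h0 : ∀ d : ℂˣ, IsDetK σ K L (indChar K F L χ) d ↔ IsDetK σ F L χ d := by
      intro d
      unfold IsDetK
      simp only [galT_ind]
    simp only [h0]

lemma detInv_spec {σ : ℂ ≃+* ℂ} {K L : Type} [Field K] [NumberField K] [Field L] [NumberField L]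
    [Algebra K L] [IsGalois K L] {χ : (L ≃ₐ[K] L) → ℂ} (h : IsChar χ) :
    IsDetK σ K L χ ((detInv σ).val K L χ : ℂˣ) := by
  have e1 := exists_det σ h
  have e2 : (detInv σ).val K L χ = e1.choose := dif_pos e1
  rw [e2]
  exact e1.choose_spec

/-- the exact defect -/
noncomputable def eq1 (D D' : Dat) (r : ℕ) (σ : ℂ ≃+* ℂ) (K L : Type) [Field K] [NumberField K]
    [Field L] [NumberField L] [Algebra K L] [IsGalois K L] (χ : (L ≃ₐ[K] L) → ℂ) : ℂˣ :=
  dq D D' σ K L χ * (detInv σ).val K L (fun g => σ (χ g)) ^ r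

/-- **the exact defect as an inductive invariant** -/
noncomputable def eInv (D D' : Dat) (r : ℕ) (σ : ℂ ≃+* ℂ) : ArtinInvariant ℂˣ where
  val K L _ _ _ _ _ _ χ := eq1 D D' r σ K L χ
  val_add K L _ _ _ _ _ _ χ χ' h h' := by
    have hfin : FiniteDimensional K L := Module.Finite.of_restrictScalars_finite ℚ K L
    have h1 : (fun g => σ ((χ + χ') g)) = (fun g => σ (χ g)) + (fun g => σ (χ' g)) := by
      funext g
      exact map_add σ _ _
    have h2 := (detInv σ).val_add K L _ _ (isChar_sig h σ) (isChar_sig h' σ)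
    unfold eq1
    rw [dq_add D D' σ h h', h1, h2, mul_pow]
    exact mul_mul_mul_comm _ _ _ _
  val_infl K L N _ _ _ _ _ _ _ _ _ _ _ _ χ h := by
    have hfin : FiniteDimensional K L := Module.Finite.of_restrictScalars_finite ℚ K L
    have h3 : IsChar (fun g => σ (χ g)) := isChar_sig h σ
    have h2 := (detInv σ).val_infl K L N (fun g => σ (χ g)) h3
    unfold eq1
    rw [dq_infl D D' σ h]
    exact congrArg (fun z : ℂˣ => dq D D' σ K L χ * z ^ r) h2
  val_ind K F L _ _ _ _ _ _ _ _ _ _ _ _ χ h := by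
    have hfin : FiniteDimensional F L := Module.Finite.of_restrictScalars_finite ℚ F L
    have h3 : IsChar (fun g => σ (χ g)) := isChar_sig h σ
    have h0 : (fun g => σ (indChar K F L χ g))
        = indChar K F L (fun g => σ (χ g)) := funext fun g => indChar_sigma σ.toRingHom _ _
    unfold eq1
    rw [dq_ind D D' σ χ, h0, (detInv σ).val_ind K F L _ h3]

end Pool.Agent.W2helper76.DP
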