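import Mathlib
import Pool.Agent.W2helper76.DP.Def
import Pool.Agent.W2helper76.DP.Inv
import Pool.Agent.K4H74.SC.Wrap

/-!
# The definitions and the inductive invariants
-/

set_option autoImplicit false
set_option linter.unusedSectionVars false
set_option maxHeartbeats 400000

namespace Pool.Agent.W2helper76.DP

open NumberField Pool.Agent.K4H74 Pool.Agent.K4H74.SK

section tr

lemma factz_pow {p k : ℕ} (hp : p.Prime) (hk : 0 < k) : (p ^ k).factorization (p ^ k).minFac = k := by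
  rw [hp.pow_minFac hk.ne', hp.factorization_pow, Finsupp.single_eq_same]

/-- the bound for the weight function -/
lemma frobTrace_bound {d : ℕ} {bad : Finset ℕ} {eig : ℕ → Fin d → ℂ} {w : ℝ}
    (h : ∀ p : ℕ, p.Prime → p ∉ bad → ∀ i, ‖eig p i‖ = (p : ℝ) ^ w) (q : ℕ) :
    ‖frobTrace bad eig q‖ ≤ d * (q : ℝ) ^ w := by
  classical
  rw [frobTrace]
  split_ifs with hq
  · obtain ⟨⟨p, k, hp, hk, rfl⟩, hb⟩ := hq
    have hp' : p.Prime := hp.nat_prime
    rw [hp'.pow_minFac hk.ne'] at hb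
    rw [factz_pow hp' hk, hp'.pow_minFac hk.ne']
    refine (norm_sum_le _ _).trans ?_
    have h1 : ∀ i ∈ (Finset.univ : Finset (Fin d)), ‖eig p i ^ k‖ ≤ (((p ^ k : ℕ) : ℝ)) ^ w := by
      intro i _
      rw [norm_pow, h p hp' hb i, Nat.cast_pow, ← Real.rpow_natCast, ← Real.rpow_natCast,
        ← Real.rpow_mul (Nat.cast_nonneg _), ← Real.rpow_mul (Nat.cast_nonneg _), mul_comm]
    refine (Finset.sum_le_sum h1).trans ?_
    rw [Finset.sum_const, Finset.card_univ, Fintype.card_fin, nsmul_eq_mul]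
  · rw [norm_zero]
    exact mul_nonneg (Nat.cast_nonneg _) (Real.rpow_nonneg (Nat.cast_nonneg _) _)

end tr

section link

variable {E : Ext}

lemma artinRank_eq (χ : G E → ℂ) : artinRank χ = dee E.K E.L χ := rfl

lemma pairs_eq : ({x : (E.L →+* ℂ) × G E | ∀ y, x.1 (emb x.2 y) = star (x.1 y)} :
    Set ((E.L →+* ℂ) × (E.L ≃ₐ[E.K] E.L)))
      = {x : (E.L →+* ℂ) × (E.L ≃ₐ[E.K] E.L) | ComplexEmbedding.IsConj x.1 x.2} := by
  ext x
  constructor
  · intro h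
    exact RingHom.ext fun y => (h y).symm
  · intro h y
    exact (RingHom.congr_fun h y).symm

lemma sum_pairs (χ : (E.L ≃ₐ[E.K] E.L) → ℂ) :
    (∑ᶠ x ∈ {x : (E.L →+* ℂ) × (E.L ≃ₐ[E.K] E.L) | ComplexEmbedding.IsConj x.1 x.2}, χ x.2)
      = (Nat.card (E.L ≃ₐ[E.K] E.L) : ℂ) * tee E.K E.L χ := by
  classical
  have h4 : (Nat.card (E.L ≃ₐ[E.K] E.L) : ℂ) ≠ 0 := by exact_mod_cast Nat.card_pos.ne'
  rw [tee, ← mul_assoc, mul_inv_cancel₀ h4, one_mul, ← Finset.sum_product']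
  have h2 : ({x : (E.L →+* ℂ) × (E.L ≃ₐ[E.K] E.L) | ComplexEmbedding.IsConj x.1 x.2} : Set _)
      = ((Finset.univ ×ˢ Finset.univ : Finset ((E.L →+* ℂ) × (E.L ≃ₐ[E.K] E.L))).filter
        (fun x => ComplexEmbedding.IsConj x.1 x.2) :
          Finset ((E.L →+* ℂ) × (E.L ≃ₐ[E.K] E.L))) := by
    ext x
    rw [Finset.coe_filter]
    simp
  rw [h2, finsum_mem_coe_finset, Finset.sum_filter]

lemma conjTrace_eq (χ : G E → ℂ) : conjTrace χ = tee E.K E.L χ := by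
  have h4 : (Nat.card (E.L ≃ₐ[E.K] E.L) : ℂ) ≠ 0 := by exact_mod_cast Nat.card_pos.ne'
  have h1 : conjTrace χ = (Nat.card (E.L ≃ₐ[E.K] E.L) : ℂ)⁻¹ *
      ∑ᶠ x ∈ ({x : (E.L →+* ℂ) × G E | ∀ y, x.1 (emb x.2 y) = star (x.1 y)} :
        Set ((E.L →+* ℂ) × (E.L ≃ₐ[E.K] E.L))), χ x.2 := rfl
  rw [h1, pairs_eq, sum_pairs χ, ← mul_assoc, inv_mul_cancel₀ h4, one_mul]

lemma tee_sigma (σ : ℂ ≃+* ℂ) {K L : Type} [Field K] [NumberField K] [Field L] [NumberField L]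
    [Algebra K L] (χ : (L ≃ₐ[K] L) → ℂ) : tee K L (fun g => σ (χ g)) = σ (tee K L χ) := by
  classical
  rw [tee, tee, map_mul, map_inv₀, map_natCast, map_sum]
  congr 1
  refine Finset.sum_congr rfl fun φ _ => ?_
  rw [map_sum]
  refine Finset.sum_congr rfl fun g _ => ?_
  split_ifs
  · rfl
  · rw [map_zero]

lemma conjTrace_sigma (σ : ℂ ≃+* ℂ) (χ : G E → ℂ) :
    conjTrace (fun g => σ (χ g)) = σ (conjTrace χ) := by
  rw [conjTrace_eq, conjTrace_eq]
  exact tee_sigma (K := E.K) (L := E.L) σ χ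

lemma twistTerm_hasSum {tr : ℕ → ℂ} {χ : G E → ℂ} {s l : ℂ} :
    HasSum (twistTerm tr χ s) l ↔ HasSum (tTerm tr E.K E.L χ s) l := by
  have h1 : twistTerm tr χ s = tTerm tr E.K E.L χ s ∘ ((prEquiv E).prodCongr (Equiv.refl ℕ+)) := by
    funext x
    rw [twistTerm, logTerm, frobMean_eq]
    rfl
  rw [h1, Equiv.hasSum_iff]

lemma twist_hasSum (D : Dat) (χ : G E → ℂ) :
    HasSum (twistTerm D.W χ D.s) (tLog D.W E.K E.L χ D.s) :=
  twistTerm_hasSum.mpr (tTerm_summable D.hB D.hW χ D.hs).hasSum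

/-- the explicit form of the triviality of the defect -/
lemma defect_iff {D D' : Dat} {σ : ℂ ≃+* ℂ} {χ : G E → ℂ} (hχ : IsChr χ) :
    (dInv D D' σ).val E.K E.L χ = 1 ↔ ∃ (a b n : ℕ) (l l' : ℂ), 0 < n ∧
      artinRank χ = a + b ∧ conjTrace χ = a - b ∧
      HasSum (twistTerm D.W χ D.s) l ∧ HasSum (twistTerm D'.W (fun g => σ (χ g)) D'.s) l' ∧
      σ (Complex.exp l / ((D.cp : ℂ) ^ a * (D.cm : ℂ) ^ b)) ^ n
        = (Complex.exp l' / ((D'.cp : ℂ) ^ a * (D'.cm : ℂ) ^ b)) ^ n := by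
  have h' := isChr_iff.mp hχ
  obtain ⟨a, b, h1, h2⟩ := exists_ab E.K E.L h'
  have hσ : dee E.K E.L (fun g => σ (χ g)) = a + b := by
    have h3 : dee E.K E.L (fun g => σ (χ g)) = σ (dee E.K E.L χ) := by
      rw [dee, dee, map_mul, map_natCast]
    rw [h3, h1, map_add, map_natCast, map_natCast]
  have hσ2 : tee E.K E.L (fun g => σ (χ g)) = a - b := by
    have h3 : tee E.K E.L (fun g => σ (χ g)) = σ (tee E.K E.L χ) :=
      tee_sigma (K := E.K) (L := E.L) σ χ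
    rw [h3, h2, map_sub, map_natCast, map_natCast]
  have hQ : ((D.Q E.K E.L χ : ℂˣ) : ℂ) = Complex.exp (tLog D.W E.K E.L χ D.s) /
      ((D.cp : ℂ) ^ a * (D.cm : ℂ) ^ b) := by
    rw [Dat.Q, per_eq D.cp D.cm h1 h2, Units.val_div_eq_div_val, Units.val_mul,
      Units.val_pow_eq_pow_val, Units.val_pow_eq_pow_val]
    rfl
  have hQ' : ((D'.Q E.K E.L (fun g => σ (χ g)) : ℂˣ) : ℂ)
      = Complex.exp (tLog D'.W E.K E.L (fun g => σ (χ g)) D'.s) /
      ((D'.cp : ℂ) ^ a * (D'.cm : ℂ) ^ b) := by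
    rw [Dat.Q, per_eq D'.cp D'.cm hσ hσ2, Units.val_div_eq_div_val, Units.val_mul,
      Units.val_pow_eq_pow_val, Units.val_pow_eq_pow_val]
    rfl
  rw [dInv_eq_one, hQ, hQ']
  constructor
  · rintro ⟨n, hn, h⟩
    exact ⟨a, b, n, _, _, hn, h1, (conjTrace_eq χ).trans h2, twist_hasSum D χ,
      twist_hasSum D' (fun g => σ (χ g)), h⟩
  · rintro ⟨a', b', n, l, l', hn, e1, e2, hl, hl', h⟩
    rw [artinRank_eq, h1] at e1
    rw [conjTrace_eq, h2] at e2
    have e3 : a = a' := by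
      have : (a : ℂ) = a' := by linear_combination (e1 + e2) / 2
      exact_mod_cast this
    have e4 : b = b' := by
      have : (b : ℂ) = b' := by linear_combination (e1 - e2) / 2
      exact_mod_cast this
    subst e3 e4
    rw [hl.unique (twist_hasSum D χ), hl'.unique (twist_hasSum D' (fun g => σ (χ g)))] at h
    exact ⟨n, hn, h⟩

lemma isChr_one (E : Ext) : IsChr (fun _ : G E => (1 : ℂ)) := isChr_iff.mpr DP.isChar_one

end link

end Pool.Agent.W2helper76.DP
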