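import Mathlib
import Pool.Agent.W2helper76.DP.DefGal
import Pool.Agent.W2helper76.DP.Det
import Pool.Agent.W2helper76.DP.Link

/-!
# The exact defect and the definitions
-/

set_option autoImplicit false
set_option linter.unusedSectionVars false
set_option maxHeartbeats 400000

namespace Pool.Agent.W2helper76.DP

open NumberField Pool.Agent.K4H74 Pool.Agent.K4H74.SK

variable {E : Ext}

lemma gpairs_eq (σ : ℂ ≃+* ℂ) :
    ({x : (E.L →+* ℂ) × G E | ∀ y, x.1 (emb x.2 y) = σ (x.1 y)} :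
    Set ((E.L →+* ℂ) × (E.L ≃ₐ[E.K] E.L)))
      = {x : (E.L →+* ℂ) × (E.L ≃ₐ[E.K] E.L) | RC σ x.1 x.2} := by
  ext x
  constructor
  · intro h
    exact RingHom.ext fun y => (h y).symm
  · intro h y
    exact (RingHom.congr_fun h y).symm

lemma gsum_pairs (σ : ℂ ≃+* ℂ) (χ : (E.L ≃ₐ[E.K] E.L) → ℂ) :
    (∑ᶠ x ∈ {x : (E.L →+* ℂ) × (E.L ≃ₐ[E.K] E.L) | RC σ x.1 x.2}, χ x.2)
      = (Nat.card (E.L ≃ₐ[E.K] E.L) : ℂ) * galT σ E.K E.L χ := by
  classical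
  have h4 : (Nat.card (E.L ≃ₐ[E.K] E.L) : ℂ) ≠ 0 := by exact_mod_cast Nat.card_pos.ne'
  rw [galT, ← mul_assoc, mul_inv_cancel₀ h4, one_mul, ← Finset.sum_product']
  have h2 : ({x : (E.L →+* ℂ) × (E.L ≃ₐ[E.K] E.L) | RC σ x.1 x.2} : Set _)
      = ((Finset.univ ×ˢ Finset.univ : Finset ((E.L →+* ℂ) × (E.L ≃ₐ[E.K] E.L))).filter
        (fun x => RC σ x.1 x.2) :
          Finset ((E.L →+* ℂ) × (E.L ≃ₐ[E.K] E.L))) := by
    ext x
    rw [Finset.coe_filter]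
    simp
  rw [h2, finsum_mem_coe_finset, Finset.sum_filter]

lemma galTrace_eq (σ : ℂ ≃+* ℂ) (χ : G E → ℂ) : galTrace σ χ = galT σ E.K E.L χ := by
  have h4 : (Nat.card (E.L ≃ₐ[E.K] E.L) : ℂ) ≠ 0 := by exact_mod_cast Nat.card_pos.ne'
  have h1 : galTrace σ χ = (Nat.card (E.L ≃ₐ[E.K] E.L) : ℂ)⁻¹ *
      ∑ᶠ x ∈ ({x : (E.L →+* ℂ) × G E | ∀ y, x.1 (emb x.2 y) = σ (x.1 y)} :
        Set ((E.L →+* ℂ) × (E.L ≃ₐ[E.K] E.L))), χ x.2 := rfl
  rw [h1, gpairs_eq, gsum_pairs σ χ, ← mul_assoc, inv_mul_cancel₀ h4, one_mul]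

lemma artinDet_iff {σ : ℂ ≃+* ℂ} {χ : G E → ℂ} {d : ℂ} :
    IsArtinDet σ χ d ↔ IsDetK σ E.K E.L χ d := by
  unfold IsArtinDet IsDetK
  simp only [galTrace_eq]

lemma IsArtinDet.unique {σ : ℂ ≃+* ℂ} {χ : G E → ℂ} {d d' : ℂ} (h : IsArtinDet σ χ d)
    (h' : IsArtinDet σ χ d') : d = d' := (artinDet_iff.mp h).unique (artinDet_iff.mp h')

lemma exists_artinDet (σ : ℂ ≃+* ℂ) {χ : G E → ℂ} (hχ : IsChr χ) : ∃ d, IsArtinDet σ χ d := by
  obtain ⟨d, hd⟩ := exists_det σ (isChr_iff.mp hχ)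
  exact ⟨d, artinDet_iff.mpr hd⟩

lemma isChr_sigma (σ : ℂ ≃+* ℂ) {χ : G E → ℂ} (hχ : IsChr χ) : IsChr (fun g => σ (χ g)) := by
  have hfin : FiniteDimensional E.K E.L := Module.Finite.of_restrictScalars_finite ℚ E.K E.L
  exact isChr_iff.mpr (isChar_sig (G := E.L ≃ₐ[E.K] E.L) (isChr_iff.mp hχ) σ)

/-- the explicit form of a power of the exact defect -/
lemma exact_iff {D D' : Dat} {r : ℕ} {σ : ℂ ≃+* ℂ} {χ : G E → ℂ} (hχ : IsChr χ) (n : ℕ) :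
    (eInv D D' r σ).val E.K E.L χ ^ n = 1 ↔ ∃ (a b : ℕ) (l l' d : ℂ),
      artinRank χ = a + b ∧ conjTrace χ = a - b ∧
      HasSum (twistTerm D.W χ D.s) l ∧ HasSum (twistTerm D'.W (fun g => σ (χ g)) D'.s) l' ∧
      IsArtinDet σ (fun g => σ (χ g)) d ∧
      (σ (Complex.exp l / ((D.cp : ℂ) ^ a * (D.cm : ℂ) ^ b)) * d ^ r) ^ n
        = (Complex.exp l' / ((D'.cp : ℂ) ^ a * (D'.cm : ℂ) ^ b)) ^ n := by
  have h' := isChr_iff.mp hχ
  obtain ⟨a, b, h1, h2⟩ := exists_ab E.K E.L h'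
  have hσ : dee E.K E.L (fun g => σ (χ g)) = a + b := by
    have h3 : dee E.K E.L (fun g => σ (χ g)) = σ (dee E.K E.L χ) := by
      rw [dee, dee, map_mul, map_natCast]
    rw [h3, h1, map_add, map_natCast, map_natCast]
  have hσ2 : tee E.K E.L (fun g => σ (χ g)) = a - b := by
    have h3 : tee E.K E.L (fun g => σ (χ g)) = σ (tee E.K E.L χ) :=
      tee_sigma (K := E.K) (L := E.L) σ χ
    rw [h3, h2, map_sub, map_natCast, map_natCast]
  have hQ : ((D.Q E.K E.L χ : ℂˣ) : ℂ) = Complex.exp (tLog D.W E.K E.L χ D.s) /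
      ((D.cp : ℂ) ^ a * (D.cm : ℂ) ^ b) := by
    rw [Dat.Q, per_eq D.cp D.cm h1 h2, Units.val_div_eq_div_val, Units.val_mul,
      Units.val_pow_eq_pow_val, Units.val_pow_eq_pow_val]
    rfl
  have hQ' : ((D'.Q E.K E.L (fun g => σ (χ g)) : ℂˣ) : ℂ)
      = Complex.exp (tLog D'.W E.K E.L (fun g => σ (χ g)) D'.s) /
      ((D'.cp : ℂ) ^ a * (D'.cm : ℂ) ^ b) := by
    rw [Dat.Q, per_eq D'.cp D'.cm hσ hσ2, Units.val_div_eq_div_val, Units.val_mul,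
      Units.val_pow_eq_pow_val, Units.val_pow_eq_pow_val]
    rfl
  have hd : IsArtinDet σ (fun g => σ (χ g))
      (((detInv σ).val E.K E.L (fun g => σ (χ g)) : ℂˣ) : ℂ) :=
    artinDet_iff.mpr (detInv_spec (isChr_iff.mp (isChr_sigma σ hχ)))
  have hkey : (eInv D D' r σ).val E.K E.L χ ^ n = 1 ↔
      (σ (D.Q E.K E.L χ : ℂˣ) * (((detInv σ).val E.K E.L (fun g => σ (χ g)) : ℂˣ) : ℂ) ^ r) ^ n
        = ((D'.Q E.K E.L (fun g => σ (χ g)) : ℂˣ) : ℂ) ^ n := by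
    have e0 : (eInv D D' r σ).val E.K E.L χ
        = (Units.map (σ : ℂ →* ℂ) (D.Q E.K E.L χ) *
          (detInv σ).val E.K E.L (fun g => σ (χ g)) ^ r) / D'.Q E.K E.L (fun g => σ (χ g)) := by
      change eq1 D D' r σ E.K E.L χ = _
      rw [eq1, dq, div_mul_eq_mul_div]
    rw [e0, div_pow, div_eq_one, ← Units.val_inj, Units.val_pow_eq_pow_val,
      Units.val_pow_eq_pow_val, Units.val_mul, Units.val_pow_eq_pow_val]
    rfl
  rw [hkey, hQ, hQ']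
  constructor
  · intro h
    exact ⟨a, b, _, _, _, h1, (conjTrace_eq χ).trans h2, twist_hasSum D χ,
      twist_hasSum D' (fun g => σ (χ g)), hd, h⟩
  · rintro ⟨a', b', l, l', d, e1, e2, hl, hl', hd', h⟩
    rw [artinRank_eq, h1] at e1
    rw [conjTrace_eq, h2] at e2
    have e3 : a = a' := by
      have : (a : ℂ) = a' := by linear_combination (e1 + e2) / 2
      exact_mod_cast this
    have e4 : b = b' := by
      have : (b : ℂ) = b' := by linear_combination (e1 - e2) / 2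
      exact_mod_cast this
    subst e3 e4
    rw [hl.unique (twist_hasSum D χ), hl'.unique (twist_hasSum D' (fun g => σ (χ g))),
      hd'.unique hd] at h
    exact h

end Pool.Agent.W2helper76.DP
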