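import Mathlib
import Pool.Agent.W2helper76.DP.Cyc
import Pool.Agent.K4H77.SL.Main
import Pool.Agent.K4H34.NC.Grp

/-!
# Permutation characters and the subgroups without complex conjugations: an integral result
-/

set_option autoImplicit false
set_option linter.unusedSectionVars false
set_option maxHeartbeats 400000

namespace Pool.Agent.W2helper76.DP

open Pool.Agent.R389 Pool.Agent.W446.AS Pool.Agent.H541R3.ART Pool.Agent.K4H77.SL MulAction
  Pool.Agent.H302R3 Pool.Agent.K4H34.NC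

section fix

variable {G : Type} [Group G] [Finite G]

/-- fixed points as a sum over the orbits -/
lemma fix_sum (X : Type) [MulAction G X] [Finite X] [Fintype (Quotient (orbitRel G X))] (g : G) :
    (Nat.card {x : X // g • x = x} : ℂ) = ∑ ω : Quotient (orbitRel G X),
      ind (stabilizer G ω.out) (fun _ => (1 : ℂ)) g := by
  classical
  have : Fintype G := Fintype.ofFinite _
  have : Fintype X := Fintype.ofFinite _
  let mk : X → Quotient (orbitRel G X) := Quotient.mk _
  have h2 : (Nat.card {x : X // g • x = x} : ℂ) = ∑ x : X, if g • x = x then (1 : ℂ) else 0 := by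
    rw [← Finset.sum_filter, Finset.sum_const, nsmul_eq_mul, mul_one,
      Nat.card_eq_fintype_card, Fintype.card_subtype]
  rw [h2, ← Finset.sum_fiberwise_of_maps_to (s := Finset.univ) (t := Finset.univ)
    (g := mk) (fun _ _ => Finset.mem_univ _)]
  refine Finset.sum_congr rfl fun ω _ => ?_
  rw [ind_eq]
  have h3 : ∀ y : G, ext (stabilizer G ω.out) (fun _ => (1 : ℂ)) (y⁻¹ * g * y)
      = (fun x : X => if g • x = x then (1 : ℂ) else 0) (y • ω.out) := by
    intro y
    have h4 : y⁻¹ * g * y ∈ stabilizer G ω.out ↔ g • y • ω.out = y • ω.out := by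
      rw [mem_stabilizer_iff, mul_smul, mul_smul, inv_smul_eq_iff]
    simp only
    by_cases h : y⁻¹ * g * y ∈ stabilizer G ω.out
    · rw [ext_mem _ _ h, if_pos (h4.mp h)]
    · rw [ext_not _ _ h, if_neg (fun h' => h (h4.mpr h'))]
  rw [Finset.sum_congr rfl (fun y _ => h3 y)]
  have hmk : ∀ y : G, mk (y • ω.out) = ω := by
    intro y
    have h5 : mk (y • ω.out) = mk ω.out := Quotient.sound (orbitRel_apply.mpr ⟨y, rfl⟩)
    rw [h5]; exact Quotient.out_eq ω
  rw [← Finset.sum_fiberwise_of_maps_to (s := (Finset.univ : Finset G))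
    (t := Finset.univ.filter (fun x => mk x = ω)) (g := fun y => y • ω.out)
    (fun y _ => Finset.mem_filter.mpr ⟨Finset.mem_univ _, hmk y⟩), Finset.mul_sum]
  refine Finset.sum_congr rfl fun x hx => ?_
  have hx1 : mk x = mk ω.out := by
    rw [(Finset.mem_filter.mp hx).2]; exact (Quotient.out_eq ω).symm
  obtain ⟨z, hz⟩ := orbitRel_apply.mp (Quotient.exact hx1)
  simp only at hz
  rw [Finset.sum_congr rfl (g := fun _ => if g • x = x then (1 : ℂ) else 0)
    (fun y hy => by rw [(Finset.mem_filter.mp hy).2]), Finset.sum_const, nsmul_eq_mul]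
  have hcard : (Finset.univ.filter (fun y : G => y • ω.out = x)).card
      = Nat.card (stabilizer G ω.out) := by
    rw [← Fintype.card_subtype, ← Nat.card_eq_fintype_card]
    refine Nat.card_congr ⟨fun y => ⟨z⁻¹ * y, ?_⟩, fun s => ⟨z * s, ?_⟩, ?_, ?_⟩
    · rw [mem_stabilizer_iff, mul_smul, y.2, ← hz, inv_smul_smul]
    · rw [mul_smul, mem_stabilizer_iff.mp s.2, hz]
    · intro y; apply Subtype.ext; simp
    · intro s; apply Subtype.ext; simp
  rw [hcard, ← mul_assoc, inv_mul_cancel₀ card_ne, one_mul]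

/-- the permutation character -/
lemma ind_one_fix (U : Subgroup G) (g : G) :
    ind U (fun _ => (1 : ℂ)) g = (Nat.card {x : G ⧸ U // g • x = x} : ℂ) := by
  classical
  have : Fintype G := Fintype.ofFinite _
  have : Fintype (G ⧸ U) := Fintype.ofFinite _
  have h2 : (Nat.card {x : G ⧸ U // g • x = x} : ℂ)
      = ∑ x : G ⧸ U, if g • x = x then (1 : ℂ) else 0 := by
    rw [← Finset.sum_filter, Finset.sum_const, nsmul_eq_mul, mul_one,
      Nat.card_eq_fintype_card, Fintype.card_subtype]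
  rw [h2, ind_eq]
  have h3 : ∀ y : G, ext U (fun _ => (1 : ℂ)) (y⁻¹ * g * y)
      = (fun x : G ⧸ U => if g • x = x then (1 : ℂ) else 0) (y : G ⧸ U) := by
    intro y
    have h4 : y⁻¹ * g * y ∈ U ↔ g • (y : G ⧸ U) = y := by
      have h5 : g • (y : G ⧸ U) = ((g * y : G) : G ⧸ U) := rfl
      rw [h5, eq_comm, QuotientGroup.eq, mul_assoc]
    simp only
    by_cases h : y⁻¹ * g * y ∈ U
    · rw [ext_mem _ _ h, if_pos (h4.mp h)]
    · rw [ext_not _ _ h, if_neg (fun h' => h (h4.mpr h'))]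
  rw [Finset.sum_congr rfl (fun y _ => h3 y),
    ← Finset.sum_fiberwise_of_maps_to (s := (Finset.univ : Finset G))
    (t := (Finset.univ : Finset (G ⧸ U))) (g := fun y => (y : G ⧸ U))
    (fun y _ => Finset.mem_univ _), Finset.mul_sum]
  refine Finset.sum_congr rfl fun x _ => ?_
  rw [Finset.sum_congr rfl (g := fun _ => if g • x = x then (1 : ℂ) else 0)
    (fun y hy => by rw [(Finset.mem_filter.mp hy).2]), Finset.sum_const, nsmul_eq_mul]
  have hcard : (Finset.univ.filter (fun y : G => (y : G ⧸ U) = x)).card = Nat.card U := by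
    rw [← Fintype.card_subtype, ← Nat.card_eq_fintype_card]
    have hx : ((x.out : G) : G ⧸ U) = x := QuotientGroup.out_eq' x
    refine Nat.card_congr ⟨fun y => ⟨x.out⁻¹ * y, ?_⟩, fun s => ⟨x.out * s, ?_⟩, ?_, ?_⟩
    · rw [← QuotientGroup.eq, hx, y.2]
    · rw [← QuotientGroup.mk_mul_of_mem x.out s.2] at *
      exact hx
    · intro y; apply Subtype.ext; simp
    · intro s; apply Subtype.ext; simp
  rw [hcard, ← mul_assoc, inv_mul_cancel₀ card_ne, one_mul]

lemma ind_at_one (U : Subgroup G) : ind U (fun _ => (1 : ℂ)) 1 = (U.index : ℂ) := by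
  rw [ind_one_fix, Subgroup.index]
  congr 1
  exact Nat.card_congr (Equiv.subtypeUnivEquiv fun x => one_smul G x)

lemma ind_top : ind (⊤ : Subgroup G) (fun _ => (1 : ℂ)) = fun _ => 1 := by
  funext g
  rw [ind_one_fix]
  have : Subsingleton (G ⧸ (⊤ : Subgroup G)) := QuotientGroup.subsingleton_quotient_top
  have h : Nat.card {x : G ⧸ (⊤ : Subgroup G) // g • x = x} = 1 := by
    rw [Nat.card_eq_one_iff_unique]
    exact ⟨⟨fun a b => Subtype.ext (Subsingleton.elim _ _)⟩, ⟨((1 : G) : G ⧸ (⊤ : Subgroup G)),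
      Subsingleton.elim _ _⟩⟩
  rw [h, Nat.cast_one]

/-- the kernel of a surjective homomorphism to a commutative group -/
lemma ind_ker {H : Type} [CommGroup H] [Finite H] (π : G →* H) (hπ : Function.Surjective π)
    (g : G) [Decidable (π g = 1)] :
    ind π.ker (fun _ => (1 : ℂ)) g = if π g = 1 then (Nat.card H : ℂ) else 0 := by
  classical
  have h := ind_comap π hπ ⊥ g
  rw [MonoidHom.comap_bot, Subgroup.card_bot, Nat.cast_one, one_mul] at h
  rw [h]
  by_cases h1 : π g = 1
  · rw [if_pos h1, if_pos (Subgroup.mem_bot.mpr h1)]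
  · rw [if_neg h1, if_neg (fun h2 => h1 (Subgroup.mem_bot.mp h2))]

end fix

section two

variable {G : Type} [Group G] [Finite G]

lemma units_surj {π : G →* ℤˣ} {g : G} (h : π g = -1) : Function.Surjective π := by
  intro x
  rcases Int.units_eq_one_or x with rfl | rfl
  · exact ⟨1, map_one _⟩
  · exact ⟨g, h⟩

/-- a subgroup of index two -/
lemma step_top {X : Set G} (β : G →* ℤˣ) (hβ : ∀ x ∈ X, β x = -1) {Q : Subgroup G}
    (hQ : Q.index = 2) (hX : ∀ x ∈ X, x ∈ Q) :
    ind Q (fun _ => (1 : ℂ)) - (2 : ℕ) • (fun _ => (1 : ℂ)) ∈ PP X := by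
  classical
  by_cases hne : ∃ t, t ∈ X
  swap
  · have h1 : ∀ U : Subgroup G, ind U (fun _ => (1 : ℂ)) ∈ PP X := fun U =>
      AddSubgroup.subset_closure ⟨U, fun x hx => (hne ⟨x, hx⟩).elim, rfl⟩
    refine sub_mem (h1 Q) (nsmul_mem ?_ 2)
    rw [← ind_top]
    exact h1 _
  obtain ⟨t, ht⟩ := hne
  let ε : G →* ℤˣ := MonoidHom.mk' (fun g => if g ∈ Q then 1 else -1) (by
    intro a b
    have h := Subgroup.mul_mem_iff_of_index_two hQ (a := a) (b := b)
    by_cases ha : a ∈ Q <;> by_cases hb : b ∈ Q <;> simp [ha, hb, h])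
  have hε : ∀ g, ε g = if g ∈ Q then 1 else -1 := fun g => rfl
  obtain ⟨u, hu⟩ : ∃ u, u ∉ Q := by
    by_contra hcon
    push Not at hcon
    have : Q = ⊤ := by
      rw [eq_top_iff]
      exact fun x _ => hcon x
    rw [this, Subgroup.index_top] at hQ
    omega
  have hεu : ε u = -1 := by rw [hε, if_neg hu]
  have hεt : ε t = 1 := by rw [hε, if_pos (hX t ht)]
  have hβt := hβ t ht
  have hne1 : (-1 : ℤˣ) ≠ 1 := by decide
  have hker : Q = ε.ker := by
    ext g
    rw [MonoidHom.mem_ker, hε]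
    by_cases hg : g ∈ Q
    · simp [hg]
    · simp [hg, hne1]
  have hs1 : Function.Surjective ε := units_surj hεu
  have hs2 : Function.Surjective β := units_surj hβt
  have hs3 : Function.Surjective (ε * β) := units_surj (g := t) (by
    rw [MonoidHom.mul_apply, hεt, hβt, one_mul])
  have hs4 : Function.Surjective (ε.prod β) := by
    rintro ⟨x, y⟩
    obtain ⟨w, hw⟩ := hs1 x
    rcases Int.units_eq_one_or (β w) with h1 | h1 <;> rcases Int.units_eq_one_or y with rfl | rfl
    · exact ⟨w, by rw [MonoidHom.prod_apply, hw, h1]⟩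
    · exact ⟨w * t, by rw [MonoidHom.prod_apply, map_mul, map_mul, hw, h1, hεt, hβt]; simp⟩
    · exact ⟨w * t, by rw [MonoidHom.prod_apply, map_mul, map_mul, hw, h1, hεt, hβt]; simp⟩
    · exact ⟨w, by rw [MonoidHom.prod_apply, hw, h1]⟩
  have hc2 : Nat.card ℤˣ = 2 := by
    rw [Nat.card_eq_fintype_card]; rfl
  have hc4 : Nat.card (ℤˣ × ℤˣ) = 4 := by
    rw [Nat.card_prod, hc2]
  have hmem : ∀ {H : Type} [CommGroup H] (π : G →* H), (∀ x ∈ X, π x ≠ 1) →
      ind π.ker (fun _ => (1 : ℂ)) ∈ PP X := by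
    intro H _ π hπ
    exact AddSubgroup.subset_closure ⟨π.ker, fun x hx h => hπ x hx h, rfl⟩
  have h1 := hmem (ε.prod β) (fun x hx h => by
    rw [MonoidHom.prod_apply, hβ x hx] at h
    exact hne1 (congrArg Prod.snd h))
  have h2 := hmem β (fun x hx h => by
    rw [hβ x hx] at h
    exact hne1 h)
  have h3 := hmem (ε * β) (fun x hx h => by
    rw [MonoidHom.mul_apply, hε, if_pos (hX x hx), hβ x hx, one_mul] at h
    exact hne1 h)
  have h4 : ind Q (fun _ => (1 : ℂ)) - (2 : ℕ) • (fun _ => (1 : ℂ))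
      = ind (ε.prod β).ker (fun _ => (1 : ℂ)) - ind β.ker (fun _ => (1 : ℂ))
        - ind (ε * β).ker (fun _ => (1 : ℂ)) := by
    rw [hker]
    funext g
    simp only [Pi.sub_apply, Pi.smul_apply, ind_ker _ hs1, ind_ker _ hs2, ind_ker _ hs3,
      ind_ker _ hs4, hc2, hc4, MonoidHom.prod_apply, MonoidHom.mul_apply, Prod.mk_eq_one]
    rcases Int.units_eq_one_or (ε g) with e1 | e1 <;> rcases Int.units_eq_one_or (β g) with e2 | e2
    · rw [e1, e2]; simp; norm_num
    · rw [e1, e2]; simp [hne1]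
    · rw [e1, e2]; simp [hne1]
    · rw [e1, e2]; simp [hne1]
  rw [h4]
  exact sub_mem (sub_mem h1 h2) h3

/-- a subgroup of index two in a subgroup -/
lemma step_sub {X : Set G} (β : G →* ℤˣ) (hβ : ∀ x ∈ X, β x = -1) {Q Q' : Subgroup G}
    (hQQ : Q ≤ Q') (hQ : Q.relIndex Q' = 2) (hX : ∀ x ∈ X, x ∈ Q' → x ∈ Q) :
    ind Q (fun _ => (1 : ℂ)) - (2 : ℕ) • ind Q' (fun _ => (1 : ℂ)) ∈ PP X := by
  have h1 := step_top (X := {x : Q' | (x : G) ∈ X}) (β.comp Q'.subtype)
    (fun x hx => hβ _ hx) (Q := Q.subgroupOf Q') hQ (fun x hx => hX _ hx x.2)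
  have h2 := ind_PP Q' h1
  rw [ind_sub, ind_ind, tr_one] at h2
  have h3 : ((Q.subgroupOf Q').map Q'.subtype) = Q := Subgroup.map_subgroupOf_eq_of_le hQQ
  rw [h3] at h2
  have h4 : ind Q' ((2 : ℕ) • (fun _ : Q' => (1 : ℂ))) = (2 : ℕ) • ind Q' (fun _ => (1 : ℂ)) :=
    map_nsmul (indHom Q') 2 _
  rw [h4] at h2
  exact h2

end two

end Pool.Agent.W2helper76.DP
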