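import Mathlib
import Pool.Agent.W2helper76.DP.Hyp

/-!
# Permutation characters and the subgroups without complex conjugations: the integral theorem
-/

set_option autoImplicit false
set_option linter.unusedSectionVars false
set_option maxHeartbeats 400000

namespace Pool.Agent.W2helper76.DP

open Pool.Agent.R389 Pool.Agent.W446.AS Pool.Agent.H541R3.ART Pool.Agent.K4H77.SL MulAction
  Pool.Agent.H302R3 Pool.Agent.K4H34.NC

/-- an extension of index two -/
lemma exists_two {H : Type} [Group H] [Finite H] {S : Subgroup H} [S.Normal]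
    (hS : IsPGroup 2 (H ⧸ S)) {Q : Subgroup H} (hQ : S ≤ Q) (hQT : Q ≠ ⊤) :
    ∃ Q' : Subgroup H, Q ≤ Q' ∧ Q.relIndex Q' = 2 := by
  classical
  have : Fact (Nat.Prime 2) := ⟨Nat.prime_two⟩
  let π : H →* H ⧸ S := QuotientGroup.mk' S
  have hπ : Function.Surjective π := QuotientGroup.mk'_surjective S
  have hker : π.ker = S := QuotientGroup.ker_mk' S
  obtain ⟨m, hm⟩ := IsPGroup.iff_card.mp hS
  obtain ⟨n, hn⟩ := IsPGroup.iff_card.mp (hS.to_subgroup (Q.map π))
  have hQQ : (Q.map π).comap π = Q := by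
    rw [Subgroup.comap_map_eq, hker]
    exact sup_eq_left.mpr hQ
  have hlt : n < m := by
    have h1 : 2 ^ n ∣ 2 ^ m := by
      rw [← hm, ← hn]
      exact Subgroup.card_subgroup_dvd_card _
    have h2 : n ≤ m := (Nat.pow_dvd_pow_iff_le_right (by norm_num)).mp h1
    rcases h2.eq_or_lt with h3 | h3
    · exfalso
      apply hQT
      have h4 : Q.map π = ⊤ := by
        apply Subgroup.eq_top_of_card_eq
        rw [hn, hm, h3]
      rw [← hQQ, h4, Subgroup.comap_top]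
    · exact h3
  obtain ⟨K, hK, hQK⟩ := Sylow.exists_subgroup_card_pow_succ (p := 2) (n := n)
    (by rw [hm]; exact pow_dvd_pow 2 hlt) hn
  refine ⟨K.comap π, ?_, ?_⟩
  · rw [← hQQ]
    exact Subgroup.comap_mono hQK
  · rw [← hQQ, Subgroup.relIndex_comap, Subgroup.map_comap_eq_self_of_surjective hπ]
    have h5 : (Q.map π).relIndex K * Nat.card (Q.map π) = Nat.card K := by
      have h7 := Subgroup.relIndex_mul_relIndex ⊥ (Q.map π) K bot_le hQK
      rw [Subgroup.relIndex_bot_left, Subgroup.relIndex_bot_left] at h7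
      rw [mul_comm]
      exact h7
    rw [hn, hK, pow_succ] at h5
    have h6 : 0 < 2 ^ n := by positivity
    nlinarith [h5, h6]

variable {G : Type} [Group G] [Finite G]

/-- the chain of subgroups -/
lemma chain {X : Set G} (β : G →* ℤˣ) (hβ : ∀ x ∈ X, β x = -1) {R : Subgroup G} [R.Normal]
    (hXR : ∀ x ∈ X, x ∈ R) {H : Subgroup G} (hH : ∀ h ∈ H, ∃ k : ℕ, h ^ (2 ^ k) ∈ R) :
    ∀ (n : ℕ) (Q : Subgroup G), Q ≤ H → R ⊓ H ≤ Q → Q.relIndex H = n →
      ind Q (fun _ => (1 : ℂ)) - n • ind H (fun _ => (1 : ℂ)) ∈ PP X := by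
  classical
  intro n
  induction n using Nat.strong_induction_on with
  | _ n ih =>
  intro Q hQH hRQ hn
  by_cases hQ : Q = H
  · subst hQ
    rw [Subgroup.relIndex_self] at hn
    subst hn
    rw [one_smul, sub_self]
    exact zero_mem _
  have hp : IsPGroup 2 (H ⧸ (R.subgroupOf H)) := by
    rintro ⟨h⟩
    obtain ⟨k, hk⟩ := hH h h.2
    refine ⟨k, ?_⟩
    have h1 : ((h ^ (2 ^ k) : H) : H ⧸ (R.subgroupOf H)) = 1 := by
      rw [QuotientGroup.eq_one_iff]
      exact hk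
    exact h1
  obtain ⟨K, hK1, hK2⟩ := exists_two hp (Q := Q.subgroupOf H) (by
      intro x hx
      exact hRQ ⟨hx, x.2⟩) (by
      intro h
      apply hQ
      exact le_antisymm hQH (Subgroup.subgroupOf_eq_top.mp h))
  let Q' : Subgroup G := K.map H.subtype
  have hQ'H : Q' ≤ H := by
    rintro _ ⟨x, -, rfl⟩
    exact x.2
  have hQQ' : Q ≤ Q' := by
    intro x hx
    exact ⟨⟨x, hQH hx⟩, hK1 hx, rfl⟩
  have hrel : Q.relIndex Q' = 2 := by
    rw [← hK2]
    exact (Subgroup.relIndex_comap Q H.subtype K).symm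
  have hmul : 2 * Q'.relIndex H = n := by
    rw [← hrel, ← hn]
    exact Subgroup.relIndex_mul_relIndex Q Q' H hQQ' hQ'H
  have hpos : 0 < n := by
    rw [← hn]
    exact Nat.pos_of_ne_zero (Subgroup.index_ne_zero_of_finite (H := Q.subgroupOf H))
  have h1 := step_sub β hβ hQQ' hrel (fun x hx hxQ => hRQ ⟨hXR x hx, hQ'H hxQ⟩)
  have h2 := ih (Q'.relIndex H) (by omega) Q' hQ'H (hRQ.trans hQQ') rfl
  have h3 : ind Q (fun _ => (1 : ℂ)) - n • ind H (fun _ => (1 : ℂ))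
      = (ind Q (fun _ => (1 : ℂ)) - (2 : ℕ) • ind Q' (fun _ => (1 : ℂ)))
        + (2 : ℕ) • (ind Q' (fun _ => (1 : ℂ)) - Q'.relIndex H • ind H (fun _ => (1 : ℂ))) := by
    rw [smul_sub, smul_smul, hmul]
    abel
  rw [h3]
  exact add_mem h1 (nsmul_mem h2 2)

/-- the hyperelementary subgroups which meet `X` -/
lemma hyper_mod {X : Set G} (hX2 : ∀ x ∈ X, x * x = 1) (hX1 : ∀ x ∈ X, x ≠ 1) {R : Subgroup G}
    [R.Normal] (hXR : ∀ x ∈ X, ∀ g, g * x = x * g → g ∈ R) {p : ℕ} (hp : p.Prime)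
    {H : Subgroup G} (hH : HypP p H) {t : G} (ht : t ∈ X) (htH : t ∈ H) :
    ∀ h ∈ H, ∃ k : ℕ, h ^ (2 ^ k) ∈ R := by
  intro h hh
  by_cases hp2 : p = 2
  swap
  · refine ⟨0, ?_⟩
    rw [pow_zero, pow_one]
    exact hXR t ht h (invol_central hp hp2 hH htH (hX2 t ht) (hX1 t ht) hh)
  subst hp2
  obtain ⟨c, hcop, hcn, hpw⟩ := hH
  have htR : t ∈ R := hXR t ht t rfl
  have htt : t⁻¹ = t := inv_eq_of_mul_eq_one_left (hX2 t ht)
  let τ : H := ⟨t, htH⟩
  have hτ : τ * τ = 1 := Subtype.ext (hX2 t ht)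
  have hτ' : τ⁻¹ = τ := inv_eq_of_mul_eq_one_left hτ
  obtain ⟨i, hi⟩ := hcn τ
  have hi' : c ^ i = τ * c * τ⁻¹ := hi
  have hcomm : τ * c * τ⁻¹ * c = c * (τ * c * τ⁻¹) := by
    rw [← hi', ← zpow_add_one, ← zpow_one_add, add_comm]
  have h1 : ((c * (τ * c * τ⁻¹) : H) : G) ∈ R := by
    apply hXR t ht
    have h2 : (c * (τ * c * τ⁻¹)) * τ = τ * (c * (τ * c * τ⁻¹)) := by
      rw [← hcomm]
      have e1 : τ * c * τ⁻¹ * c * τ = τ * c * (τ⁻¹ * c * τ) := by group
      have e2 : τ * (τ * c * τ⁻¹ * c) = (τ * τ) * c * τ⁻¹ * c := by group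
      rw [hτ'] at *
      calc τ * c * τ * c * τ = τ * (c * (τ * c * τ)) := by group
        _ = τ * (τ * c * τ * c) := by rw [← hcomm]
    exact congrArg Subtype.val h2
  have h3 : (((c * (τ * c * τ⁻¹))⁻¹ * (c * τ * c⁻¹) * τ⁻¹ : H) : G) ∈ R := by
    rw [Subgroup.coe_mul, Subgroup.coe_mul, Subgroup.coe_inv]
    refine mul_mem (mul_mem (inv_mem h1) ?_) (inv_mem htR)
    exact Subgroup.Normal.conj_mem inferInstance t htR (c : G)
  have h4 : ((c ^ 2 : H) : G) ∈ R := by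
    have h5 : ((c * (τ * c * τ⁻¹) * (c * (τ * c⁻¹ * τ⁻¹)) : H) : G) ∈ R := by
      rw [Subgroup.coe_mul]
      refine mul_mem h1 ?_
      have h6 : (c * (τ * c⁻¹ * τ⁻¹) : H) = (c * τ * c⁻¹) * τ⁻¹ := by group
      rw [h6, Subgroup.coe_mul, Subgroup.coe_inv]
      refine mul_mem ?_ (inv_mem htR)
      exact Subgroup.Normal.conj_mem inferInstance t htR (c : G)
    have h7 : c * (τ * c * τ⁻¹) * (c * (τ * c⁻¹ * τ⁻¹)) = c ^ 2 := by
      rw [← hcomm]
      have e3 : τ * c * τ⁻¹ * c * (c * (τ * c⁻¹ * τ⁻¹))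
          = (τ * c * τ⁻¹) * (c * c) * (τ * c * τ⁻¹)⁻¹ := by group
      rw [e3, ← hi', pow_two, ← zpow_two, ← zpow_neg, ← zpow_add, ← zpow_add]
      congr 1
      ring
    rwa [h7] at h5
  have h8 : (c : G) ∈ R := by
    have h9 := pow_self (x := c) (n := 2) hcop.symm
    obtain ⟨j, hj⟩ := h9
    have h10 : (c ^ 2) ^ j = c := hj
    have h11 : (((c ^ 2) ^ j : H) : G) ∈ R := by
      rw [Subgroup.coe_zpow]
      exact zpow_mem h4 j
    rwa [h10] at h11
  obtain ⟨k, j, hj⟩ := hpw ⟨h, hh⟩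
  refine ⟨k, ?_⟩
  have h12 : c ^ j = (⟨h, hh⟩ : H) ^ 2 ^ k := hj
  have h13 : ((c ^ j : H) : G) ∈ R := by
    rw [Subgroup.coe_zpow]
    exact zpow_mem h8 j
  rwa [h12] at h13

/-- **The theorem on permutation characters.** -/
theorem perm_PP {X : Set G} (hX2 : ∀ x ∈ X, x * x = 1) (hX1 : ∀ x ∈ X, x ≠ 1) {R : Subgroup G}
    [R.Normal] (hXR : ∀ x ∈ X, ∀ g, g * x = x * g → g ∈ R) (β : G →* ℤˣ)
    (hβ : ∀ x ∈ X, β x = -1) {U : Subgroup G} (hU : R ≤ U) :
    ind U (fun _ => (1 : ℂ)) - U.index • (fun _ => (1 : ℂ)) ∈ PP X := by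
  classical
  let f : G → ℂ := ind U (fun _ => (1 : ℂ)) - U.index • (fun _ => (1 : ℂ))
  have hf : ∀ g x : G, f (x * g * x⁻¹) = f g := by
    intro g x
    change ind U (fun _ => (1 : ℂ)) (x * g * x⁻¹) - U.index • (1 : ℂ)
      = ind U (fun _ => (1 : ℂ)) g - U.index • (1 : ℂ)
    rw [ind_class]
  -- one subgroup
  have hone : ∀ (p : ℕ), p.Prime → ∀ H : Subgroup G, HypP p H →
      ind H (fun h => f h) ∈ PP X := by
    intro p hp H hH
    have : Fintype (Quotient (orbitRel H (G ⧸ U))) := Fintype.ofFinite _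
    let Q : Quotient (orbitRel H (G ⧸ U)) → Subgroup H := fun ω => stabilizer H ω.out
    have h1 : ∀ h : H, ind U (fun _ => (1 : ℂ)) (h : G)
        = ∑ ω, ind (Q ω) (fun _ => (1 : ℂ)) h := by
      intro h
      rw [ind_one_fix, ← fix_sum (G := H) (G ⧸ U) h]
      rfl
    have h2 : U.index = ∑ ω, (Q ω).index := by
      have h3 := h1 1
      rw [OneMemClass.coe_one, ind_at_one, Finset.sum_congr rfl (fun ω _ => ind_at_one (Q ω))] at h3
      exact_mod_cast h3
    have h4 : (fun h : H => f h) = ∑ ω, (ind (Q ω) (fun _ => (1 : ℂ))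
        - (Q ω).index • (fun _ => (1 : ℂ))) := by
      funext h
      change ind U (fun _ => (1 : ℂ)) (h : G) - U.index • (1 : ℂ) = _
      rw [h1, h2, Finset.sum_apply, Finset.sum_smul, ← Finset.sum_sub_distrib]
      rfl
    have h5 : ind H (fun h => f h) = ∑ ω, (ind ((Q ω).map H.subtype) (fun _ => (1 : ℂ))
        - (Q ω).index • ind H (fun _ => (1 : ℂ))) := by
      rw [h4, ← indHom_apply, map_sum]
      refine Finset.sum_congr rfl fun ω _ => ?_
      rw [map_sub, map_nsmul, indHom_apply, indHom_apply, ind_ind, tr_one]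
    rw [h5]
    refine sum_mem fun ω _ => ?_
    by_cases hne : ∃ t ∈ X, t ∈ H
    · obtain ⟨t, ht, htH⟩ := hne
      have h6 : ((Q ω).map H.subtype).relIndex H = (Q ω).index := by
        rw [Subgroup.relIndex, Subgroup.subgroupOf, Subgroup.comap_map_eq_self_of_injective
          H.subtype_injective]
      rw [← h6]
      refine chain β hβ (fun x hx => hXR x hx x rfl)
        (hyper_mod hX2 hX1 hXR hp hH ht htH) _ _ ?_ ?_ rfl
      · rintro _ ⟨x, -, rfl⟩
        exact x.2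
      · rintro x ⟨hxR, hxH⟩
        refine ⟨⟨x, hxH⟩, ?_, rfl⟩
        change (⟨x, hxH⟩ : H) • ω.out = ω.out
        obtain ⟨y, hy⟩ := QuotientGroup.mk_surjective ω.out
        rw [← hy]
        change ((x * y : G) : G ⧸ U) = (y : G ⧸ U)
        rw [eq_comm, QuotientGroup.eq, ← mul_assoc]
        have h7 := Subgroup.Normal.conj_mem (inferInstance : R.Normal) x hxR y⁻¹
        rw [inv_inv] at h7
        exact hU h7
    · have e1 : ind ((Q ω).map H.subtype) (fun _ => (1 : ℂ)) ∈ PP X := by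
        refine AddSubgroup.subset_closure ⟨_, ?_, rfl⟩
        rintro x hx ⟨y, -, rfl⟩
        exact hne ⟨_, hx, y.2⟩
      have e2 : ind H (fun _ => (1 : ℂ)) ∈ PP X := by
        refine AddSubgroup.subset_closure ⟨_, ?_, rfl⟩
        intro x hx hxH
        exact hne ⟨x, hx, hxH⟩
      exact sub_mem e1 (nsmul_mem e2 _)
  have hprime : ∀ p : ℕ, p.Prime → ∃ N : ℤ, ¬ (p : ℤ) ∣ N ∧ N • f ∈ PP X := by
    intro p hp
    obtain ⟨N, hN, hN'⟩ := class_solP hp hf
    refine ⟨N, hN, ?_⟩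
    have h1 : AddSubgroup.closure {u : G → ℂ | ∃ U : Subgroup G, HypP p U ∧
        u = ind U (fun h => f h)} ≤ PP X := by
      rw [AddSubgroup.closure_le]
      rintro _ ⟨H, hH, rfl⟩
      exact hone p hp H hH
    exact h1 hN'
  -- all primes
  have hex : ∃ n : ℕ, 0 < n ∧ (n : ℤ) • f ∈ PP X := by
    obtain ⟨N, hN, hN'⟩ := hprime 2 Nat.prime_two
    have hN0 : N ≠ 0 := fun h => hN (h ▸ dvd_zero _)
    refine ⟨N.natAbs, Int.natAbs_pos.mpr hN0, ?_⟩
    rcases Int.natAbs_eq N with h | h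
    · rw [← h]; exact hN'
    · have : (N.natAbs : ℤ) = -N := by omega
      rw [this, neg_smul]
      exact neg_mem hN'
  let a := Nat.find hex
  obtain ⟨ha0, ha⟩ := Nat.find_spec hex
  have hmin : ∀ m : ℕ, 0 < m → (m : ℤ) • f ∈ PP X → a ≤ m := fun m h1 h2 =>
    Nat.find_min' hex ⟨h1, h2⟩
  by_cases ha1 : a = 1
  · have h1 : (a : ℤ) • f ∈ PP X := ha
    rw [ha1, Nat.cast_one, one_smul] at h1
    exact h1
  exfalso
  have hp := Nat.minFac_prime ha1
  obtain ⟨N, hN, hN'⟩ := hprime _ hp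
  let d := Int.gcd a N
  have hd : (d : ℤ) • f ∈ PP X := by
    have h1 : (d : ℤ) = a * Int.gcdA a N + N * Int.gcdB a N := Int.gcd_eq_gcd_ab a N
    rw [h1, add_smul, mul_comm (a : ℤ), mul_comm N, mul_smul, mul_smul]
    exact add_mem (zsmul_mem ha _) (zsmul_mem hN' _)
  have hd0 : 0 < d := Int.gcd_pos_of_ne_zero_left _ (by exact_mod_cast (show a ≠ 0 from ha0.ne'))
  have hda : d ∣ a := by
    have h1 : (d : ℤ) ∣ (a : ℤ) := Int.gcd_dvd_left _ _
    exact_mod_cast h1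
  have h2 := hmin d hd0 hd
  have h3 : d = a := le_antisymm (Nat.le_of_dvd ha0 hda) h2
  apply hN
  have h4 : (d : ℤ) ∣ N := Int.gcd_dvd_right _ _
  rw [h3] at h4
  exact (Int.natCast_dvd_natCast.mpr (Nat.minFac_dvd a)).trans h4

end Pool.Agent.W2helper76.DP
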