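import Mathlib
import Pool.Agent.W2helper76.DP.Core
import Pool.Agent.K4H77.SL.Rat

/-!
# Inductive invariants with values in torsion-free groups: the rational valued characters
-/

set_option autoImplicit false
set_option linter.unusedSectionVars false
set_option maxHeartbeats 400000

namespace Pool.Agent.W2helper76.DP

open NumberField NumberField.ComplexEmbedding Pool.Agent.K4H74.ST Pool.Agent.R389
  Pool.Agent.W446.AS Pool.Agent.H541R3.ART Pool.Agent.K4H74.SC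

variable {M : Type} [CommGroup M] {A : ArtinInvariant M}

lemma PP_le {K L : Type} [Field K] [NumberField K] [Field L] [NumberField L] [Algebra K L]
    [IsGalois K L] (hC : ∀ (K : Type) [Field K] [NumberField K], IsTotallyComplex K →
      A.val K K (fun _ => 1) = 1) : PP (CC K L) ≤ TT A (K := K) (L := L) ⊥ := by
  have hfin : FiniteDimensional K L := Module.Finite.of_restrictScalars_finite ℚ K L
  rw [PP, AddSubgroup.closure_le]
  rintro f ⟨H, hH, rfl⟩
  have h1 : IsChar (ind H (fun _ : H => (1 : ℂ))) := isChar_ind H DP.isChar_one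
  rw [SetLike.mem_coe, mem_TT_char A h1, Subgroup.mem_bot, ind_fixed,
    A.val_ind K (IntermediateField.fixedField H) L (fun _ => 1) DP.isChar_one, val_triv]
  exact hC _ (fixed_complex H hH)

/-- **the main theorem over the rational numbers for rational valued characters** -/
theorem rat_val_rat (htf : ∀ (x : M) (n : ℕ), 0 < n → x ^ n = 1 → x = 1)
    (hC : ∀ (K : Type) [Field K] [NumberField K], IsTotallyComplex K →
      A.val K K (fun _ => 1) = 1)
    (N : Type) [Field N] [NumberField N] [IsGalois ℚ N] {χ : (N ≃ₐ[ℚ] N) → ℂ} (hχ : IsChar χ)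
    (hq : ∀ g, ∃ q : ℚ, χ g = q) {c : N ≃ₐ[ℚ] N} (hc : c ∈ CC ℚ N) {m : ℤ} (hm : χ c = m) :
    A.val ℚ N χ = A.val ℚ ℚ (fun _ => 1) ^ m := by
  classical
  obtain ⟨N', i1, i2, i3, i4, i5, i6, -, hN⟩ := exists_comm ℚ N
  have hfin : FiniteDimensional ℚ N' := Module.Finite.of_restrictScalars_finite ℚ ℚ N'
  have hχ' : IsChar (fun g : N' ≃ₐ[ℚ] N' => χ (AlgEquiv.restrictNormalHom N g)) :=
    Pool.Agent.K4H77.SL.IsChar.comp hχ _
  let f : (N' ≃ₐ[ℚ] N') → ℂ :=
    (fun g : N' ≃ₐ[ℚ] N' => χ (AlgEquiv.restrictNormalHom N g)) - m • (fun _ => 1)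
  have hf : Virt f := sub_mem hχ'.virt (zsmul_mem isChar_one.virt m)
  have h0 : ∀ g : N' ≃ₐ[ℚ] N', ∀ x ∈ CC ℚ N', x ∈ Subgroup.zpowers g → f g = 0 := by
    intro g x hx hxg
    change χ (AlgEquiv.restrictNormalHom N g) - m • (1 : ℂ) = 0
    rw [virt_key hN hχ hc g x hx hxg, hm, zsmul_eq_mul, mul_one, sub_self]
  have hz : ∀ g : N' ≃ₐ[ℚ] N', ∃ z : ℤ, ∀ h : N' ≃ₐ[ℚ] N',
      Subgroup.zpowers h = Subgroup.zpowers g →
        χ (AlgEquiv.restrictNormalHom N h) = z := by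
    intro g
    obtain ⟨q, hq'⟩ := hq (AlgEquiv.restrictNormalHom N g)
    obtain ⟨z, hz⟩ := Pool.Agent.K4H77.SL.rat_int
      (f := fun g : N' ≃ₐ[ℚ] N' => χ (AlgEquiv.restrictNormalHom N g)) (f' := 0)
      (Pool.Agent.K4H77.SL.heil_of_closure' (IsChar.mem hχ'))
      (Pool.Agent.K4H77.SL.heil_of_closure' (zero_mem _)) g
      ⟨q, by rw [Pi.zero_apply, sub_zero]; exact hq'⟩
    refine ⟨z, fun h hh => ?_⟩
    have := hz h hh
    rwa [Pi.zero_apply, sub_zero] at this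
  have hz1 : ∀ g : N' ≃ₐ[ℚ] N', ∃ n : ℤ, f g = n := by
    intro g
    obtain ⟨z, hz'⟩ := hz g
    refine ⟨z - m, ?_⟩
    change χ (AlgEquiv.restrictNormalHom N g) - m • (1 : ℂ) = _
    rw [hz' g rfl, zsmul_eq_mul, mul_one]
    push_cast
    rfl
  have hz2 : ∀ g h : N' ≃ₐ[ℚ] N', Subgroup.zpowers g = Subgroup.zpowers h → f g = f h := by
    intro g h hgh
    obtain ⟨z, hz'⟩ := hz h
    change χ (AlgEquiv.restrictNormalHom N g) - m • (1 : ℂ)
      = χ (AlgEquiv.restrictNormalHom N h) - m • (1 : ℂ)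
    rw [hz' g hgh, hz' h rfl]
  obtain ⟨v, hv, hval⟩ := PP_le hC (artin_PP hf.conj hz1 hz2 h0)
  rw [Subgroup.mem_bot] at hv
  subst hv
  have h1 : Val A ℚ N' f (A.val ℚ N' (fun g => χ (AlgEquiv.restrictNormalHom N g))
      * (A.val ℚ N' (fun _ => 1) ^ m)⁻¹) := by
    have h2 := (Val.of_char A hχ').add A ((val_zsmul A (Val.of_char A isChar_one) m).neg A)
    rwa [← sub_eq_add_neg] at h2
  have h2 := (val_nsmul A h1 _).unique A hval
  have h3 := htf _ _ Nat.card_pos h2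
  rw [mul_inv_eq_one] at h3
  rw [← A.val_infl ℚ N N' χ hχ, h3, val_triv]

/-- **the trivial characters** -/
theorem triv_one (htf : ∀ (x : M) (n : ℕ), 0 < n → x ^ n = 1 → x = 1)
    (hC : ∀ (K : Type) [Field K] [NumberField K], IsTotallyComplex K →
      A.val K K (fun _ => 1) = 1) (h1 : A.val ℚ ℚ (fun _ => 1) = 1) : TrivOne A := by
  classical
  intro K _ _
  obtain ⟨N, i1, i2, i3, i4⟩ := Pool.Agent.K4H34.ST.exists_gal K
  have hgal : IsGalois K N := IsGalois.tower_top_of_isGalois ℚ K N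
  have h8 : IsChar (fun _ : N ≃ₐ[K] N => (1 : ℂ)) := isChar_one
  have h9 : IsChar (indChar ℚ K N (fun _ => 1)) := isChar_indChar h8
  obtain ⟨c, hc⟩ := exists_CC N
  have hq : ∀ g, ∃ q : ℚ, indChar ℚ K N (fun _ => 1) g = q := by
    intro g
    rw [indChar_sum]
    refine ⟨(Nat.card (N ≃ₐ[K] N) : ℚ)⁻¹ * ∑ x : N ≃ₐ[ℚ] N, ∑ h : N ≃ₐ[K] N,
      if h.restrictScalars ℚ = x⁻¹ * g * x then 1 else 0, ?_⟩
    rw [Rat.cast_mul, Rat.cast_inv, Rat.cast_natCast, Rat.cast_sum]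
    congr 1
    refine Finset.sum_congr rfl fun x _ => ?_
    rw [Rat.cast_sum]
    refine Finset.sum_congr rfl fun h _ => ?_
    split_ifs
    · exact Rat.cast_one.symm
    · exact Rat.cast_zero.symm
  have hm : ∃ m : ℤ, indChar ℚ K N (fun _ => 1) c = m := by
    obtain ⟨a, b, e1, e2⟩ := exists_ab ℚ N h9
    refine ⟨(a : ℤ) - b, ?_⟩
    rw [← tee_rat (conj_inv h9) hc, e2]
    push_cast
    rfl
  obtain ⟨m, hm⟩ := hm
  have h2 := rat_val_rat htf hC N h9 hq hc hm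
  rw [h1, one_zpow, A.val_ind ℚ K N (fun _ => 1) h8, val_triv] at h2
  exact h2

end Pool.Agent.W2helper76.DP
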