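import Mathlib
import Pool.Agent.W2helper76.DP.Rat
import Pool.Agent.W2helper76.DP.Hyp2

/-!
# Inductive invariants: the totally real fields
-/

set_option autoImplicit false
set_option linter.unusedSectionVars false
set_option maxHeartbeats 400000

namespace Pool.Agent.W2helper76.DP

open NumberField NumberField.ComplexEmbedding Pool.Agent.K4H74.ST Pool.Agent.R389
  Pool.Agent.W446.AS Pool.Agent.H541R3.ART Pool.Agent.K4H74.SC

variable {M : Type} [CommGroup M] {A : ArtinInvariant M}

/-- the elements of the Galois group which fix a subfield -/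
def fixer (K N : Type) [Field K] [NumberField K] [Field N] [NumberField N] [Algebra K N] :
    Subgroup (N ≃ₐ[ℚ] N) where
  carrier := {g | ∀ y : K, g (algebraMap K N y) = algebraMap K N y}
  mul_mem' := by
    intro a b ha hb y
    change a (b _) = _
    rw [hb y, ha y]
  one_mem' := fun y => rfl
  inv_mem' := by
    intro a ha y
    change a.symm _ = _
    rw [AlgEquiv.symm_apply_eq, ha y]

lemma mem_fixer {K N : Type} [Field K] [NumberField K] [Field N] [NumberField N] [Algebra K N]
    {g : N ≃ₐ[ℚ] N} : g ∈ fixer K N ↔ ∀ y : K, g (algebraMap K N y) = algebraMap K N y := Iff.rfl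

/-- the permutation character of a field -/
lemma ind_fixer (K N : Type) [Field K] [NumberField K] [Field N] [NumberField N] [Algebra K N]
    [IsGalois ℚ N] [IsGalois K N] :
    ind (fixer K N) (fun _ => (1 : ℂ)) = indChar ℚ K N (fun _ => 1) := by
  classical
  have hfin : FiniteDimensional K N := Module.Finite.of_restrictScalars_finite ℚ K N
  funext g
  rw [indChar_sum, ind_eq]
  have hcard : Nat.card (fixer K N) = Nat.card (N ≃ₐ[K] N) := by
    refine Nat.card_congr ⟨fun h => AlgEquiv.ofRingEquiv (f := (h : N ≃ₐ[ℚ] N).toRingEquiv)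
      (fun y => h.2 y), fun h => ⟨h.restrictScalars ℚ, fun y => h.commutes y⟩, ?_, ?_⟩
    · intro h
      apply Subtype.ext
      apply AlgEquiv.ext
      intro x
      rfl
    · intro h
      apply AlgEquiv.ext
      intro x
      rfl
  rw [hcard]
  congr 1
  refine Finset.sum_congr rfl fun x _ => ?_
  by_cases hx : x⁻¹ * g * x ∈ fixer K N
  · rw [ext_mem _ _ hx]
    let h0 : N ≃ₐ[K] N := AlgEquiv.ofRingEquiv (f := (x⁻¹ * g * x).toRingEquiv) (fun y => hx y)
    have h1 : h0.restrictScalars ℚ = x⁻¹ * g * x := AlgEquiv.ext fun y => rfl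
    rw [Finset.sum_eq_single h0]
    · rw [if_pos h1]
    · intro h _ hne
      rw [if_neg]
      intro h2
      apply hne
      apply AlgEquiv.ext
      intro y
      rw [← h1] at h2
      exact AlgEquiv.congr_fun h2 y
    · intro h2
      exact (h2 (Finset.mem_univ _)).elim
  · rw [ext_not _ _ hx]
    symm
    refine Finset.sum_eq_zero fun h _ => ?_
    rw [if_neg]
    intro h1
    apply hx
    rw [← h1]
    intro y
    exact h.commutes y

lemma index_fixer (K N : Type) [Field K] [NumberField K] [Field N] [NumberField N] [Algebra K N]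
    [IsGalois ℚ N] [IsGalois K N] :
    (fixer K N).index = Module.finrank ℚ K := by
  classical
  have hfin : FiniteDimensional K N := Module.Finite.of_restrictScalars_finite ℚ K N
  have hcard : Nat.card (fixer K N) = Nat.card (N ≃ₐ[K] N) := by
    refine Nat.card_congr ⟨fun h => AlgEquiv.ofRingEquiv (f := (h : N ≃ₐ[ℚ] N).toRingEquiv)
      (fun y => h.2 y), fun h => ⟨h.restrictScalars ℚ, fun y => h.commutes y⟩, ?_, ?_⟩
    · intro h
      apply Subtype.ext
      apply AlgEquiv.ext
      intro x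
      rfl
    · intro h
      apply AlgEquiv.ext
      intro x
      rfl
  have h1 := (fixer K N).card_mul_index
  rw [hcard, IsGalois.card_aut_eq_finrank, IsGalois.card_aut_eq_finrank,
    ← Module.finrank_mul_finrank ℚ K N, mul_comm] at h1
  exact Nat.eq_of_mul_eq_mul_right Module.finrank_pos h1

/-- **The theorem on totally real fields.** -/
theorem real_val (hC : ∀ (K : Type) [Field K] [NumberField K], IsTotallyComplex K →
      A.val K K (fun _ => 1) = 1) (K : Type) [Field K] [NumberField K] (hK : IsTotallyReal K) :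
    A.val K K (fun _ => 1) = A.val ℚ ℚ (fun _ => 1) ^ Module.finrank ℚ K := by
  classical
  obtain ⟨N₀, i1, i2, i3, i4⟩ := Pool.Agent.K4H34.ST.exists_gal K
  obtain ⟨N, j1, j2, j3, j4, j5, j6, ⟨j, hj⟩, hN⟩ := exists_comm ℚ N₀
  have hj3 : j3 = DivisionRing.toRatAlgebra := Subsingleton.elim _ _
  subst hj3
  let _ : Algebra K N := ((algebraMap N₀ N).comp (algebraMap K N₀)).toAlgebra
  have htow : IsScalarTower K N₀ N := IsScalarTower.of_algebraMap_eq fun x => rfl
  have hgal : IsGalois K N := IsGalois.tower_top_of_isGalois ℚ K N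
  have hfin : FiniteDimensional ℚ N := Module.Finite.of_restrictScalars_finite ℚ ℚ N
  let X : Set (N ≃ₐ[ℚ] N) := CC ℚ N
  let U : Subgroup (N ≃ₐ[ℚ] N) := fixer K N
  obtain ⟨s, hs, hsX⟩ := odd_i (K := ℚ) hj
  have hne1 : (-1 : ℂˣ) ≠ 1 := by
    intro h
    have h1 := congrArg Units.val h
    rw [Units.val_neg, Units.val_one] at h1
    norm_num at h1
  have hne2 : (-1 : ℤˣ) ≠ 1 := by decide
  let β : (N ≃ₐ[ℚ] N) →* ℤˣ := MonoidHom.mk' (fun g => if s g = 1 then 1 else -1) (by
    intro a b
    rcases hs a with ha | ha <;> rcases hs b with hb | hb <;> simp [ha, hb, hne1])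
  have hβ : ∀ x ∈ X, β x = -1 := by
    intro x hx
    change (if s x = 1 then (1 : ℤˣ) else -1) = -1
    rw [hsX x hx, if_neg hne1]
  have hX2 : ∀ x ∈ X, x * x = 1 := by
    rintro x ⟨φ, hφ⟩
    exact isConj_sq hφ
  have hX1 : ∀ x ∈ X, x ≠ 1 := by
    intro x hx h
    have h1 := hβ x hx
    rw [h, map_one] at h1
    exact hne2 h1.symm
  have hXU : ∀ x ∈ X, x ∈ U := by
    rintro x ⟨φ, hφ⟩ y
    rw [isConj_fix hφ]
    have h1 : IsReal (φ.comp (algebraMap K N)) := by
      have h2 := hK.isReal (InfinitePlace.mk (φ.comp (algebraMap K N)))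
      exact InfinitePlace.isReal_mk_iff.mp h2
    have h3 := RingHom.congr_fun h1 y
    exact Complex.conj_eq_iff_im.mp h3
  have hXU' : ∀ x ∈ X, ∀ g, g * x = x * g → g ∈ U := by
    intro x hx g hg y
    have hres : ∀ (g' : N ≃ₐ[ℚ] N) (z : N₀), algebraMap N₀ N (AlgEquiv.restrictNormalHom N₀ g' z)
        = g' (algebraMap N₀ N z) := fun g' z => res_apply g' z
    have hy : algebraMap K N y = algebraMap N₀ N (algebraMap K N₀ y) := rfl
    rcases hN x hx g hg with h | h
    · rw [hy, ← hres, h]
      rfl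
    · rw [hy, ← hres, h, hres, ← hy]
      exact hXU x hx y
  have hXR : ∀ x ∈ X, ∀ g, g * x = x * g → g ∈ U.normalCore := by
    intro x hx g hg b
    refine hXU' (b * x * b⁻¹) ?_ _ ?_
    · have h1 := CC_conj hx b⁻¹
      rwa [inv_inv] at h1
    · have e1 : b * g * b⁻¹ * (b * x * b⁻¹) = b * (g * x) * b⁻¹ := by group
      have e2 : b * x * b⁻¹ * (b * g * b⁻¹) = b * (x * g) * b⁻¹ := by group
      rw [e1, e2, hg]
  have hmain := perm_PP (X := X) hX2 hX1 (R := U.normalCore) hXR β hβ (U := U)
    U.normalCore_le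
  obtain ⟨v, hv, hval⟩ := PP_le hC hmain
  rw [Subgroup.mem_bot] at hv
  subst hv
  have h8 : IsChar (fun _ : N ≃ₐ[K] N => (1 : ℂ)) := isChar_one
  have hU : ind U (fun _ => (1 : ℂ)) = indChar ℚ K N (fun _ => 1) := ind_fixer K N
  have hchar : IsChar (ind U (fun _ => (1 : ℂ))) := by
    rw [hU]
    exact isChar_indChar h8
  have h1 : Val A ℚ N (ind U (fun _ => (1 : ℂ)) - U.index • (fun _ => (1 : ℂ)))
      (A.val ℚ N (ind U (fun _ => (1 : ℂ))) * (A.val ℚ N (fun _ => 1) ^ U.index)⁻¹) := by
    have h2 := (Val.of_char A hchar).add A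
      ((val_nsmul A (Val.of_char A isChar_one) U.index).neg A)
    rwa [← sub_eq_add_neg] at h2
  have h2 := h1.unique A hval
  rw [mul_inv_eq_one, hU, A.val_ind ℚ K N (fun _ => 1) h8, val_triv A K N, val_triv A ℚ N,
    index_fixer] at h2
  exact h2

end Pool.Agent.W2helper76.DP
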