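import Mathlib

/-!
# The L-functions of the base changes of a motive: the definitions
-/

set_option autoImplicit false
set_option linter.unusedSectionVars false

namespace Pool.Agent.W2helper76.DP

open NumberField

/-- The nonzero prime ideals of `K`. -/
abbrev PrimeOf (K : Type) [Field K] [NumberField K] : Type :=
  {p : Ideal (𝓞 K) // p.IsPrime ∧ p ≠ ⊥}

/-- The term `tr(Frob_P^n | M) / (n N(P)^(n s))` of the logarithm of the L-function (without
the Euler factors at the primes over the bad ones) of the base change `M_K` at `s`, for the pair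
`(P, n)`; `tr q` is the trace on `M` of the `k`-th power of the Frobenius at `p`, if `q = p ^ k`. -/
noncomputable def baseTerm (tr : ℕ → ℂ) (K : Type) [Field K] [NumberField K] (s : ℂ)
    (x : PrimeOf K × ℕ+) : ℂ :=
  tr (Ideal.absNorm x.1.1 ^ (x.2 : ℕ)) /
    ((x.2 : ℕ) * (Ideal.absNorm x.1.1 : ℂ) ^ (((x.2 : ℕ) : ℂ) * s))

end Pool.Agent.W2helper76.DP
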