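import Mathlib
import Pool.Agent.W2helper76.DP.Link
import Pool.Agent.K4H34.AL.Comb2

/-!
# Relations between the values of all inductive invariants
-/

set_option autoImplicit false
set_option linter.unusedSectionVars false
set_option maxHeartbeats 400000

namespace Pool.Agent.W2helper76.DP

open NumberField Pool.Agent.K4H74 Pool.Agent.K4H74.SK Pool.Agent.K4H74.ST Pool.Agent.K4H34.AL

section sat

variable {M : Type} [CommGroup M]

/-- saturation of a subgroup -/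
def sat (P : Subgroup M) : Subgroup M where
  carrier := {y | ∃ n : ℕ, 0 < n ∧ y ^ n ∈ P}
  one_mem' := ⟨1, one_pos, by rw [one_pow]; exact one_mem P⟩
  mul_mem' := by
    rintro a b ⟨n, hn, ha⟩ ⟨k, hk, hb⟩
    refine ⟨n * k, Nat.mul_pos hn hk, ?_⟩
    rw [mul_pow, pow_mul, pow_mul' b]
    exact mul_mem (pow_mem ha k) (pow_mem hb n)
  inv_mem' := by
    rintro a ⟨n, hn, ha⟩
    exact ⟨n, hn, by rw [inv_pow]; exact inv_mem ha⟩

lemma tf_sat (P : Subgroup M) (x : M ⧸ sat P) (n : ℕ) (hn : 0 < n) (h : x ^ n = 1) : x = 1 := by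
  obtain ⟨y, rfl⟩ := QuotientGroup.mk_surjective x
  have h1 : ((y ^ n : M) : M ⧸ sat P) = 1 := h
  rw [QuotientGroup.eq_one_iff] at h1 ⊢
  obtain ⟨k, hk, h2⟩ := h1
  exact ⟨n * k, Nat.mul_pos hn hk, by rw [pow_mul]; exact h2⟩

end sat

/-- the faithful linear characters over the totally complex fields -/
def CxBasic (x : Pair) : Prop :=
  ∃ (E : Ext) (ψ : G E →* ℂˣ), IsTotallyComplex E.K ∧ Function.Injective ψ ∧ x = ⟨E, lin ψ⟩

/-- **the relations of the first kind** -/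
theorem rel_complex {M : Type} [CommGroup M] (A : ArtinInvariant M) {E : Ext} {χ : G E → ℂ}
    (hχ : IsChr χ) {t : ℤ} (ht : conjTrace χ = t) :
    ∃ n : ℕ, 0 < n ∧ ∃ (r : ℕ) (x : Fin r → Pair) (k : Fin r → ℤ), (∀ i, CxBasic (x i)) ∧
      pval A ⟨E, χ⟩ ^ n = pval A ⟨⟨ℚ, ℚ⟩, fun _ => 1⟩ ^ (n * t) * ∏ i, pval A (x i) ^ k i := by
  let P : Subgroup M := Subgroup.closure {y : M | ∃ x : Pair, CxBasic x ∧ y = pval A x}
  let B : ArtinInvariant (M ⧸ sat P) := mapInv (QuotientGroup.mk' (sat P)) A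
  have hC : TrivComplex B := by
    intro K L _ _ _ _ _ _ hK ψ hψ
    refine (QuotientGroup.eq_one_iff (N := sat P) _).mpr ⟨1, one_pos, ?_⟩
    rw [pow_one]
    exact Subgroup.subset_closure ⟨⟨⟨K, L⟩, lin (E := ⟨K, L⟩) ψ⟩, ⟨⟨K, L⟩, ψ, hK, hψ, rfl⟩, rfl⟩
  have h1 := main_val (A := B) (tf_sat P) hC E.K E.L (isChr_iff.mp hχ) (m := t)
    (by rw [← conjTrace_eq]; exact ht)
  have h2 : QuotientGroup.mk' (sat P) (pval A ⟨E, χ⟩ *
      (pval A ⟨⟨ℚ, ℚ⟩, fun _ => 1⟩ ^ t)⁻¹) = 1 := by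
    rw [map_mul, map_inv, map_zpow, mul_inv_eq_one]
    exact h1
  obtain ⟨n, hn, h3⟩ := (QuotientGroup.eq_one_iff (N := sat P) _).mp h2
  obtain ⟨r, x, k, hx, h4⟩ := closure_form A CxBasic h3
  refine ⟨n, hn, r, x, k, hx, ?_⟩
  rw [← h4, mul_pow, inv_pow, mul_comm (n : ℤ) t, zpow_mul, zpow_natCast,
    mul_comm (pval A ⟨E, χ⟩ ^ n), mul_inv_cancel_left]

/-- the twisted L-value as an inductive invariant -/
noncomputable def QInv (D : Dat) : ArtinInvariant ℂˣ where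
  val K L _ _ _ _ _ _ χ := D.Q K L χ
  val_add K L _ _ _ _ _ _ χ χ' h h' := D.Q_add h h'
  val_infl K L N _ _ _ _ _ _ _ _ _ _ _ _ χ h := D.Q_infl h
  val_ind K F L _ _ _ _ _ _ _ _ _ _ _ _ χ h := D.Q_ind χ

/-- all invariants together -/
noncomputable def univInv : ArtinInvariant (Dat → Multiplicative ℂ × ℂˣ) :=
  piInv fun D : Dat => prodInv (tInv D.W D.hB D.hW D.hs) (QInv D)

lemma univ_log (D : Dat) {x : Pair} {l : ℂ} (h : HasSum (twistTerm D.W x.2 D.s) l) :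
    Multiplicative.toAdd (pval univInv x D).1 = l := (twistTerm_hasSum.mp h).tsum_eq

lemma univ_quot (D : Dat) {x : Pair} {l : ℂ} {a b : ℕ} (h1 : artinRank x.2 = a + b)
    (h2 : conjTrace x.2 = a - b) (h : HasSum (twistTerm D.W x.2 D.s) l) :
    (((pval univInv x D).2 : ℂˣ) : ℂ) = Complex.exp l / ((D.cp : ℂ) ^ a * (D.cm : ℂ) ^ b) := by
  change ((D.Q x.1.K x.1.L x.2 : ℂˣ) : ℂ) = _
  have h2' : tee x.1.K x.1.L x.2 = a - b := by rw [← conjTrace_eq]; exact h2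
  rw [Dat.Q, per_eq D.cp D.cm h1 h2', Units.val_div_eq_div_val, Units.val_mul,
    Units.val_pow_eq_pow_val, Units.val_pow_eq_pow_val]
  have h3 : tLog D.W x.1.K x.1.L x.2 D.s = l := (twistTerm_hasSum.mp h).tsum_eq
  rw [← h3]
  rfl

/-- evaluation -/
def ev1 (D : Dat) : (Dat → Multiplicative ℂ × ℂˣ) →* Multiplicative ℂ :=
  (MonoidHom.fst _ _).comp (Pi.evalMonoidHom (fun _ : Dat => Multiplicative ℂ × ℂˣ) D)

/-- evaluation -/
def ev2 (D : Dat) : (Dat → Multiplicative ℂ × ℂˣ) →* ℂˣ :=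
  (MonoidHom.snd _ _).comp (Pi.evalMonoidHom (fun _ : Dat => Multiplicative ℂ × ℂˣ) D)

lemma rel_log (D : Dat) {y : Pair} {n r : ℕ} {x : Fin r → Pair} {k : Fin r → ℤ}
    (h : pval univInv y ^ n = ∏ i, pval univInv (x i) ^ k i) {l : ℂ} {l' : Fin r → ℂ}
    (hl : HasSum (twistTerm D.W y.2 D.s) l)
    (hl' : ∀ i, HasSum (twistTerm D.W (x i).2 D.s) (l' i)) :
    n * l = ∑ i, k i * l' i := by
  have h1 := congrArg (fun z => Multiplicative.toAdd (ev1 D z)) h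
  simp only [map_pow, map_prod, map_zpow, toAdd_pow, toAdd_prod, toAdd_zpow] at h1
  have h2 : ∀ (z : Pair) (l : ℂ), HasSum (twistTerm D.W z.2 D.s) l →
      Multiplicative.toAdd (ev1 D (pval univInv z)) = l := fun z l hl => univ_log D hl
  rw [h2 _ l hl, Finset.sum_congr rfl (fun i _ => by rw [h2 _ _ (hl' i)]), nsmul_eq_mul] at h1
  rw [h1]
  exact Finset.sum_congr rfl fun i _ => by rw [zsmul_eq_mul]

/-- `v` is the quotient of the L-value and the period -/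
def IsQ (D : Dat) (x : Pair) (v : ℂ) : Prop :=
  ∃ (a b : ℕ) (l : ℂ), artinRank x.2 = a + b ∧ conjTrace x.2 = a - b ∧
    HasSum (twistTerm D.W x.2 D.s) l ∧ v = Complex.exp l / ((D.cp : ℂ) ^ a * (D.cm : ℂ) ^ b)

lemma IsQ.eq {D : Dat} {x : Pair} {v : ℂ} (h : IsQ D x v) :
    ((ev2 D (pval univInv x) : ℂˣ) : ℂ) = v := by
  obtain ⟨a, b, l, h1, h2, h3, rfl⟩ := h
  exact univ_quot D h1 h2 h3

lemma rel_quot (D : Dat) {y : Pair} {n r : ℕ} {x : Fin r → Pair} {k : Fin r → ℤ}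
    (h : pval univInv y ^ n = ∏ i, pval univInv (x i) ^ k i) {v : ℂ} {v' : Fin r → ℂ}
    (hv : IsQ D y v) (hv' : ∀ i, IsQ D (x i) (v' i)) :
    v ^ n = ∏ i, v' i ^ k i := by
  have h1 := congrArg (fun z => ((ev2 D z : ℂˣ) : ℂ)) h
  simp only [map_pow, map_prod, map_zpow, Units.val_pow_eq_pow_val, Units.coe_prod,
    Units.val_zpow_eq_zpow_val] at h1
  rw [hv.eq, Finset.prod_congr rfl (fun i _ => by rw [(hv' i).eq])] at h1
  exact h1

/-- the relations of the first kind, in terms of one family of pairs -/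
theorem rel_complex' {M : Type} [CommGroup M] (A : ArtinInvariant M) {E : Ext} {χ : G E → ℂ}
    (hχ : IsChr χ) {t : ℤ} (ht : conjTrace χ = t) :
    ∃ n : ℕ, 0 < n ∧ ∃ (r : ℕ) (x : Fin r → Pair) (k : Fin r → ℤ), (∀ i, CxBasic (x i)) ∧
      pval A ⟨E, χ⟩ ^ n = ∏ i : Fin (r + 1),
        pval A ((Fin.cons (α := fun _ => Pair) (⟨⟨ℚ, ℚ⟩, fun _ => 1⟩ : Pair) x :
          Fin (r + 1) → Pair) i) ^
          ((Fin.cons (α := fun _ => ℤ) ((n : ℤ) * t) k : Fin (r + 1) → ℤ) i) := by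
  obtain ⟨n, hn, r, x, k, hx, h⟩ := rel_complex A hχ ht
  refine ⟨n, hn, r, x, k, hx, ?_⟩
  rw [Fin.prod_univ_succ, h]
  rfl

end Pool.Agent.W2helper76.DP
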