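import Mathlib
import Pool.Agent.W2helper76.DP.BaseDef
import Pool.Agent.W2helper76.DP.Real
import Pool.Agent.W2helper76.DP.LinkGal
import Pool.Agent.W2helper76.DP.Rel
import Pool.Agent.R693.SU.AUTown

/-!
# The base changes: the explicit forms
-/

set_option autoImplicit false
set_option linter.unusedSectionVars false
set_option maxHeartbeats 400000

namespace Pool.Agent.W2helper76.DP

open NumberField NumberField.ComplexEmbedding Pool.Agent.K4H74 Pool.Agent.K4H74.SK
  Pool.Agent.K4H34.AL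

section self

variable (K : Type) [Field K] [NumberField K]

/-- the trivial extension -/
abbrev selfExt : Ext := ⟨K, K⟩

/-- the trivial character -/
abbrev oneP : Pair := ⟨selfExt K, fun _ => 1⟩

lemma frobSet_self (p : PrimeOf K) (n : ℕ) :
    frobSet (selfExt K) p.1 n = {((p.1 : Ideal (𝓞 K)), (1 : G (selfExt K)))} := by
  have hp := p.2.1
  ext x
  constructor
  · rintro ⟨h1, h2, -⟩
    have h3 : x.1 = p.1 := by
      rw [h2]
      exact (Ideal.comap_id x.1).symm
    have h4 : x.2 = 1 := by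
      apply AlgEquiv.ext
      intro y
      exact (show K ≃ₐ[K] K from x.2).commutes y
    exact Prod.ext h3 h4
  · rintro rfl
    refine ⟨hp, (Ideal.comap_id p.1).symm, ?_⟩
    intro y z hyz
    have hz : z = y := by
      apply RingOfIntegers.ext
      exact hyz
    rw [hz]
    have hmax : p.1.IsMaximal := hp.isMaximal p.2.2
    let _ : Field (𝓞 K ⧸ p.1) := Ideal.Quotient.field p.1
    have hfin : Finite (𝓞 K ⧸ p.1) := Ideal.finiteQuotientOfFreeOfNeBot p.1 p.2.2
    let _ : Fintype (𝓞 K ⧸ p.1) := Fintype.ofFinite _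
    have h5 : Ideal.absNorm p.1 = Fintype.card (𝓞 K ⧸ p.1) := by
      rw [Ideal.absNorm_apply, Submodule.cardQuot_apply, Nat.card_eq_fintype_card]
    rw [← Ideal.Quotient.eq, map_pow, h5, FiniteField.pow_card_pow]

lemma frobMean_self (p : PrimeOf K) (n : ℕ) :
    frobMean (E := selfExt K) (fun _ => 1) p.1 n = 1 := by
  rw [frobMean, frobSet_self, finsum_mem_singleton, Set.ncard_singleton, Nat.cast_one, div_one]

lemma baseTerm_eq (tr : ℕ → ℂ) (s : ℂ) :
    baseTerm tr K s = twistTerm tr (E := selfExt K) (fun _ => 1) s := by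
  funext x
  rw [twistTerm, logTerm, frobMean_self, baseTerm, mul_one_div]

lemma isReal_count : (∑ φ : K →+* ℂ, open Classical in if IsReal φ then (1 : ℂ) else 0)
    = InfinitePlace.nrRealPlaces K := by
  classical
  rw [← InfinitePlace.card_real_embeddings, Fintype.card_subtype, ← Finset.sum_filter,
    Finset.sum_const, nsmul_eq_mul, mul_one]

lemma card_self : Nat.card (K ≃ₐ[K] K) = 1 := by
  rw [Nat.card_eq_one_iff_unique]
  exact ⟨⟨fun a b => AlgEquiv.ext fun y => (a.commutes y).trans (b.commutes y).symm⟩, ⟨1⟩⟩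

lemma univ_self : (Finset.univ : Finset (K ≃ₐ[K] K)) = {1} := by
  ext g
  simp only [Finset.mem_univ, Finset.mem_singleton, true_iff]
  exact AlgEquiv.ext fun y => g.commutes y

lemma tee_self : tee K K (fun _ => 1) = InfinitePlace.nrRealPlaces K := by
  classical
  rw [tee, card_self, Nat.cast_one, inv_one, one_mul, ← isReal_count]
  refine Finset.sum_congr rfl fun φ _ => ?_
  rw [univ_self, Finset.sum_singleton]
  congr 1

lemma conjTrace_self : conjTrace (E := selfExt K) (fun _ => 1)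
    = ((InfinitePlace.nrRealPlaces K + InfinitePlace.nrComplexPlaces K : ℕ) : ℂ)
      - (InfinitePlace.nrComplexPlaces K : ℕ) := by
  rw [conjTrace_eq]
  change tee K K (fun _ => 1) = _
  rw [tee_self]
  push_cast
  ring

lemma artinRank_self : artinRank (E := selfExt K) (fun _ => 1)
    = ((InfinitePlace.nrRealPlaces K + InfinitePlace.nrComplexPlaces K : ℕ) : ℂ)
      + (InfinitePlace.nrComplexPlaces K : ℕ) := by
  rw [artinRank, mul_one]
  change ((Module.finrank ℚ K : ℕ) : ℂ) = _
  rw [← InfinitePlace.card_add_two_mul_card_eq_rank]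
  push_cast
  ring

end self

section disc

variable (K : Type) [Field K] [NumberField K]

/-- the permutation of the embeddings -/
def embPerm (σ : ℂ ≃+* ℂ) : Equiv.Perm (K →+* ℂ) where
  toFun φ := (σ : ℂ →+* ℂ).comp φ
  invFun φ := (σ.symm : ℂ →+* ℂ).comp φ
  left_inv φ := by
    ext x
    simp
  right_inv φ := by
    ext x
    simp

lemma embPerm_pow (σ : ℂ ≃+* ℂ) (k : ℕ) : embPerm K (σ ^ k) = embPerm K σ ^ k := by
  induction k with
  | zero =>
    ext φ x
    rfl
  | succ k ih =>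
    rw [pow_succ', pow_succ', ← ih]
    ext φ x
    rfl

/-- the sign -/
noncomputable def sg (σ : ℂ ≃+* ℂ) : ℤˣ := by
  classical
  exact Equiv.Perm.sign (embPerm K σ)

open Classical in
lemma isArtinDet_self (σ : ℂ ≃+* ℂ) :
    IsArtinDet σ (E := selfExt K) (fun _ => 1) ((sg K σ : ℤ) : ℂ) := by
  let e : (K →+* ℂ) ≃ Fin (Fintype.card (K →+* ℂ)) := Fintype.equivFin _
  let P : Matrix (K →+* ℂ) (K →+* ℂ) ℂ := (embPerm K σ).permMatrix ℂ
  have hpow : ∀ k : ℕ, P ^ k = (embPerm K σ ^ k).permMatrix ℂ := by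
    intro k
    induction k with
    | zero => rw [pow_zero, pow_zero, Matrix.permMatrix_one]
    | succ k ih => rw [pow_succ, pow_succ', Matrix.permMatrix_mul, ih]
  refine ⟨Fintype.card (K →+* ℂ), Matrix.reindex e e P, ?_, ?_⟩
  · intro k
    have h1 : (Matrix.reindex e e P) ^ k = Matrix.reindex e e (P ^ k) :=
      (map_pow (Matrix.reindexAlgEquiv ℂ ℂ e) P k).symm
    rw [h1, hpow, ← embPerm_pow, galTrace_eq]
    change _ = galT (σ ^ k) K K (fun _ => 1)
    have h2 : (Matrix.reindex e e ((embPerm K (σ ^ k)).permMatrix ℂ)).trace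
        = ((embPerm K (σ ^ k)).permMatrix ℂ).trace := by
      rw [Matrix.trace, Matrix.trace, ← Equiv.sum_comp e]
      refine Finset.sum_congr rfl fun φ _ => ?_
      simp
    rw [h2, Matrix.trace_permutation, galT, card_self, Nat.cast_one, inv_one, one_mul,
      Set.ncard_eq_toFinset_card']
    have h3 : ∀ φ : K →+* ℂ, (∑ g : K ≃ₐ[K] K, if RC (σ ^ k) φ g then (1 : ℂ) else 0)
        = if φ ∈ (Function.fixedPoints (embPerm K (σ ^ k))) then 1 else 0 := by
      intro φ
      rw [univ_self, Finset.sum_singleton]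
      have h4 : RC (σ ^ k) φ (1 : K ≃ₐ[K] K) ↔ φ ∈ Function.fixedPoints (embPerm K (σ ^ k)) :=
        Iff.rfl
      by_cases h : RC (σ ^ k) φ (1 : K ≃ₐ[K] K)
      · rw [if_pos h, if_pos (h4.mp h)]
      · rw [if_neg h, if_neg (fun h' => h (h4.mpr h'))]
    rw [Finset.sum_congr rfl (fun φ _ => h3 φ), ← Finset.sum_filter, Finset.sum_const,
      nsmul_eq_mul, mul_one]
    congr 2
    ext φ
    simp
  · rw [Matrix.det_reindex_self, Matrix.det_permutation]
    rfl

open Classical in
/-- the square root of the discriminant -/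
lemma sqrt_disc (σ : ℂ ≃+* ℂ) {δ : ℂ} (hδ : δ ^ 2 = (NumberField.discr K : ℂ)) :
    σ δ = ((sg K σ : ℤ) : ℂ) * δ := by
  let B := NumberField.basisMatrix K
  have h1 : B.det ^ 2 = (NumberField.discr K : ℂ) := by
    have h2 : (algebraMap ℚ ℂ) (NumberField.discr K : ℚ) = (NumberField.discr K : ℂ) := by
      simp
    rw [← h2, NumberField.coe_discr, ← Algebra.discr_reindex ℚ (integralBasis K)
      (NumberField.equivReindex K).symm]
    change (NumberField.basisMatrix K).det ^ 2 = _
    rw [NumberField.basisMatrix_eq_embeddingsMatrixReindex]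
    exact (Algebra.discr_eq_det_embeddingsMatrixReindex_pow_two ℚ ℂ
      (integralBasis K ∘ (NumberField.equivReindex K)) (RingHom.equivRatAlgHom K ℂ)).symm
  have h3 : B.map σ = B.submatrix id (embPerm K σ) := by
    ext i φ
    simp [B, embPerm]
  have h4 : σ B.det = ((sg K σ : ℤ) : ℂ) * B.det := by
    have h5 : σ B.det = (B.map σ).det := (σ : ℂ →+* ℂ).map_det B
    rw [h5, h3, Matrix.det_permute']
    rfl
  have h6 : δ = B.det ∨ δ = -B.det := by
    rw [← sq_eq_sq_iff_eq_or_eq_neg, hδ, h1]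
  rcases h6 with h | h
  · rw [h, h4]
  · rw [h, map_neg, h4, mul_neg]

lemma disc_ne {δ : ℂ} (hδ : δ ^ 2 = (NumberField.discr K : ℂ)) : δ ≠ 0 := by
  rintro rfl
  rw [zero_pow two_ne_zero] at hδ
  exact NumberField.discr_ne_zero K (by exact_mod_cast hδ.symm)

lemma sg_sq (σ : ℂ ≃+* ℂ) : ((sg K σ : ℤ) : ℂ) * ((sg K σ : ℤ) : ℂ) = 1 := by
  rcases Int.units_eq_one_or (sg K σ) with h | h <;> rw [h] <;> simp

/-- the rationality -/
lemma rational_iff {v δ : ℂ} (hδ : δ ^ 2 = (NumberField.discr K : ℂ)) (r : ℕ) :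
    (∀ σ : ℂ ≃+* ℂ, σ v * ((sg K σ : ℤ) : ℂ) ^ r = v) ↔ ∃ q : ℚ, v = q * δ ^ r := by
  have hδ0 : δ ^ r ≠ 0 := pow_ne_zero r (disc_ne K hδ)
  constructor
  · intro h
    obtain ⟨q, hq⟩ := Pool.Agent.R693.SU.AUTown.piece (v / δ ^ r) (fun σ => by
      rw [map_div₀, map_pow, sqrt_disc K σ hδ, div_eq_div_iff (by
        refine pow_ne_zero r (mul_ne_zero ?_ (disc_ne K hδ))
        intro h0
        have := sg_sq K σ
        rw [h0, mul_zero] at this
        exact zero_ne_one this) hδ0]
      conv_rhs => rw [← h σ]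
      rw [mul_pow]
      have h1 : ((sg K σ : ℤ) : ℂ) ^ r * ((sg K σ : ℤ) : ℂ) ^ r = 1 := by
        rw [← mul_pow, sg_sq, one_pow]
      linear_combination (-σ v * δ ^ r) * h1)
    refine ⟨q, ?_⟩
    rw [hq, div_mul_cancel₀ _ hδ0]
  · rintro ⟨q, rfl⟩ σ
    rw [map_mul, map_pow, sqrt_disc K σ hδ, mul_pow, map_ratCast]
    have h1 : ((sg K σ : ℤ) : ℂ) ^ r * ((sg K σ : ℤ) : ℂ) ^ r = 1 := by
      rw [← mul_pow, sg_sq, one_pow]
    linear_combination (q * δ ^ r) * h1

end disc

end Pool.Agent.W2helper76.DP
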